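import Pool.Agent.Y913.Padic

/-!
Archimedean core bound: auxiliary polynomial with small values, and the zero estimate.
-/

set_option autoImplicit false

namespace Pool.Agent.Y913

open Finset

/-- truncated exponential -/
noncomputable def Td (d : ℕ) (z : ℝ) : ℝ := ∑ k : Fin d, z ^ (k : ℕ) / ((k : ℕ).factorial : ℝ)

lemma Td_eq (d : ℕ) (z : ℝ) : Td d z = ∑ k ∈ range d, z ^ k / (k.factorial : ℝ) := by
  unfold Td
  exact Fin.sum_univ_eq_sum_range (fun k => z ^ k / (k.factorial : ℝ)) d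

lemma abs_exp_sub_Td {d : ℕ} (hd : 1 ≤ d) {z : ℝ} (hz : |z| ≤ 1) :
    |Real.exp z - Td d z| ≤ 2 * |z| ^ d := by
  rw [Td_eq]
  refine (Real.exp_bound hz (by omega : 0 < d)).trans ?_
  have h1 : ((d.succ : ℕ) : ℝ) / ((d.factorial : ℕ) * (d : ℝ)) ≤ 2 := by
    have hd' : (1 : ℝ) ≤ d := by exact_mod_cast hd
    have hf : (1 : ℝ) ≤ (d.factorial : ℝ) := by exact_mod_cast Nat.factorial_pos d
    rw [div_le_iff₀ (by positivity)]
    push_cast
    nlinarith
  have h2 : 0 ≤ |z| ^ d := by positivity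
  nlinarith

lemma exp_le_three {z : ℝ} (hz : |z| ≤ 1) : Real.exp z ≤ 3 :=
  (Real.exp_le_exp.mpr (le_of_abs_le hz)).trans Real.exp_one_lt_three.le

lemma abs_Td_le {d : ℕ} {z : ℝ} (hz : |z| ≤ 1) : |Td d z| ≤ 3 := by
  rw [Td_eq]
  calc |∑ k ∈ range d, z ^ k / (k.factorial : ℝ)|
      ≤ ∑ k ∈ range d, |z ^ k / (k.factorial : ℝ)| := Finset.abs_sum_le_sum_abs _ _
    _ = ∑ k ∈ range d, |z| ^ k / (k.factorial : ℝ) := by
        apply Finset.sum_congr rfl
        intro k _
        rw [abs_div, abs_pow, abs_of_nonneg (by positivity : (0 : ℝ) ≤ (k.factorial : ℝ))]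
    _ ≤ Real.exp |z| := Real.sum_le_exp_of_nonneg (abs_nonneg z) d
    _ ≤ 3 := exp_le_three (by rwa [abs_abs])

lemma abs_prod_sub_prod_le {τ : Type} (s : Finset τ) (a b : τ → ℝ) (M ε : ℝ) (hM : 1 ≤ M)
    (ha : ∀ j ∈ s, |a j| ≤ M) (hb : ∀ j ∈ s, |b j| ≤ M) (hab : ∀ j ∈ s, |a j - b j| ≤ ε)
    (hε : 0 ≤ ε) : |∏ j ∈ s, a j - ∏ j ∈ s, b j| ≤ s.card * M ^ s.card * ε := by
  classical
  induction s using Finset.induction_on with
  | empty => simp
  | insert j s hj ih =>
    have h1 := ih (fun i hi => ha i (Finset.mem_insert_of_mem hi))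
      (fun i hi => hb i (Finset.mem_insert_of_mem hi))
      (fun i hi => hab i (Finset.mem_insert_of_mem hi))
    rw [Finset.prod_insert hj, Finset.prod_insert hj, Finset.card_insert_of_notMem hj]
    have h2 : a j * ∏ i ∈ s, a i - b j * ∏ i ∈ s, b i =
        (a j - b j) * ∏ i ∈ s, a i + b j * (∏ i ∈ s, a i - ∏ i ∈ s, b i) := by ring
    have h3 : |∏ i ∈ s, a i| ≤ M ^ s.card := by
      rw [Finset.abs_prod]
      calc ∏ i ∈ s, |a i| ≤ ∏ _i ∈ s, M :=
            Finset.prod_le_prod (fun _ _ => abs_nonneg _)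
              (fun i hi => ha i (Finset.mem_insert_of_mem hi))
        _ = M ^ s.card := by rw [Finset.prod_const]
    have h4 := hab j (Finset.mem_insert_self _ _)
    have h5 := hb j (Finset.mem_insert_self _ _)
    have hMs : 0 ≤ M ^ s.card := by positivity
    rw [h2]
    calc |(a j - b j) * ∏ i ∈ s, a i + b j * (∏ i ∈ s, a i - ∏ i ∈ s, b i)|
        ≤ |a j - b j| * |∏ i ∈ s, a i| + |b j| * |∏ i ∈ s, a i - ∏ i ∈ s, b i| := by
          refine (abs_add_le _ _).trans ?_
          rw [abs_mul, abs_mul]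
      _ ≤ ε * M ^ s.card + M * (s.card * M ^ s.card * ε) := by
          apply add_le_add
          · exact mul_le_mul h4 h3 (abs_nonneg _) hε
          · exact mul_le_mul h5 h1 (abs_nonneg _) (by linarith)
      _ ≤ M * (M ^ s.card * ε) + M * (s.card * M ^ s.card * ε) := by
          have : 0 ≤ M ^ s.card * ε := by positivity
          nlinarith
      _ = ((s.card + 1 : ℕ) : ℝ) * M ^ (s.card + 1) * ε := by
          push_cast
          ring

/-- the exponents after elimination of the distinguished coordinate -/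
def ex {τ : Type} {D : ℕ} (ψ : τ → ℝ) (u : Option τ → Fin D) (j : τ) : ℝ :=
  ((u (some j) : ℕ) : ℝ) + ((u none : ℕ) : ℝ) * ψ j

lemma abs_ex_le {τ : Type} {D : ℕ} (ψ : τ → ℝ) (hψ : ∀ j, |ψ j| ≤ 1) (u : Option τ → Fin D)
    (j : τ) : |ex ψ u j| ≤ 2 * D := by
  unfold ex
  have h1 : ((u (some j) : ℕ) : ℝ) ≤ D := by exact_mod_cast (u (some j)).isLt.le
  have h2 : ((u none : ℕ) : ℝ) ≤ D := by exact_mod_cast (u none).isLt.le
  have h3 : (0 : ℝ) ≤ ((u (some j) : ℕ) : ℝ) := Nat.cast_nonneg _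
  have h4 : (0 : ℝ) ≤ ((u none : ℕ) : ℝ) := Nat.cast_nonneg _
  calc |((u (some j) : ℕ) : ℝ) + ((u none : ℕ) : ℝ) * ψ j|
      ≤ |((u (some j) : ℕ) : ℝ)| + |((u none : ℕ) : ℝ) * ψ j| := abs_add_le _ _
    _ ≤ D + D * 1 := by
        rw [abs_mul, abs_of_nonneg h3, abs_of_nonneg h4]
        exact add_le_add h1 (mul_le_mul h2 (hψ j) (abs_nonneg _) (by positivity))
    _ = 2 * D := by ring

/-- **auxiliary polynomial, archimedean form** -/
theorem exists_aux_arch {τ : Type} [Fintype τ] [DecidableEq τ] (d0 D H N : ℕ) (hD : 1 ≤ D)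
    (hN : 1 ≤ N)
    (hpig : (2 * (D ^ (Fintype.card τ + 1) * H * N) + 1) ^ (d0 ^ Fintype.card τ) <
      (H + 1) ^ (D ^ (Fintype.card τ + 1)))
    (ψ : τ → ℝ) (hψ : ∀ j, |ψ j| ≤ 1) :
    ∃ G : (Option τ → Fin D) → ℤ, G ≠ 0 ∧ (∀ u, |G u| ≤ H) ∧
      ∀ κ : τ → Fin d0,
        |∑ u : Option τ → Fin D, (G u : ℝ) * ∏ j, (ex ψ u j / (2 * D)) ^ (κ j : ℕ)| ≤ 1 / N := by
  classical
  have hcardO : Fintype.card (Option τ → Fin D) = D ^ (Fintype.card τ + 1) := by
    rw [Fintype.card_fun, Fintype.card_fin, Fintype.card_option]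
  set B : ℤ := ((D ^ (Fintype.card τ + 1) * H * N : ℕ) : ℤ) with hB
  have hNpos : (0 : ℝ) < N := by exact_mod_cast hN
  have hw : ∀ (κ : τ → Fin d0) (u : Option τ → Fin D),
      |∏ j, (ex ψ u j / (2 * D)) ^ (κ j : ℕ)| ≤ 1 := by
    intro κ u
    rw [Finset.abs_prod]
    apply Finset.prod_le_one
    · intro j _; exact abs_nonneg _
    · intro j _
      rw [abs_pow, abs_div]
      apply pow_le_one₀ (by positivity)
      have hDpos : (0 : ℝ) < D := by exact_mod_cast hD
      rw [abs_of_pos (by positivity : (0 : ℝ) < 2 * D), div_le_one (by positivity)]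
      exact abs_ex_le ψ hψ u j
  -- the linear forms
  let V : ((Option τ → Fin D) → Fin (H + 1)) → (τ → Fin d0) → ℝ := fun F κ =>
    ∑ u : Option τ → Fin D, ((F u : ℕ) : ℝ) * ∏ j, (ex ψ u j / (2 * D)) ^ (κ j : ℕ)
  have hV : ∀ F κ, |V F κ * N| ≤ (B : ℝ) := by
    intro F κ
    have h1 : |V F κ| ≤ (D ^ (Fintype.card τ + 1) : ℕ) * H := by
      calc |V F κ| ≤ ∑ u : Option τ → Fin D,
            |((F u : ℕ) : ℝ) * ∏ j, (ex ψ u j / (2 * D)) ^ (κ j : ℕ)| :=
            Finset.abs_sum_le_sum_abs _ _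
        _ ≤ ∑ _u : Option τ → Fin D, (H : ℝ) := by
            apply Finset.sum_le_sum
            intro u _
            rw [abs_mul, abs_of_nonneg (Nat.cast_nonneg _)]
            have h2 : ((F u : ℕ) : ℝ) ≤ H := by
              exact_mod_cast (Nat.lt_succ_iff.mp (F u).isLt)
            calc ((F u : ℕ) : ℝ) * |∏ j, (ex ψ u j / (2 * D)) ^ (κ j : ℕ)| ≤ H * 1 :=
                  mul_le_mul h2 (hw κ u) (abs_nonneg _) (Nat.cast_nonneg _)
              _ = H := mul_one _
        _ = _ := by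
            rw [Finset.sum_const, Finset.card_univ, hcardO, nsmul_eq_mul]
    rw [abs_mul, abs_of_pos hNpos, hB]
    push_cast
    push_cast at h1
    exact mul_le_mul_of_nonneg_right h1 hNpos.le
  let Φ : ((Option τ → Fin D) → Fin (H + 1)) → ((τ → Fin d0) → ℤ) := fun F κ =>
    ⌊V F κ * N⌋
  have hmaps : Set.MapsTo Φ (↑(Finset.univ : Finset ((Option τ → Fin D) → Fin (H + 1))))
      (↑(Fintype.piFinset (fun _ : τ → Fin d0 => Finset.Icc (-B) B))) := by
    intro F _
    rw [Finset.mem_coe, Fintype.mem_piFinset]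
    intro κ
    rw [Finset.mem_Icc]
    have h1 := abs_le.mp (hV F κ)
    constructor
    · rw [Int.le_floor]
      push_cast
      exact h1.1
    · have h2 : (⌊V F κ * N⌋ : ℝ) ≤ (B : ℝ) := (Int.floor_le _).trans h1.2
      exact_mod_cast h2
  have hcard : (Fintype.piFinset (fun _ : τ → Fin d0 => Finset.Icc (-B) B)).card <
      (Finset.univ : Finset ((Option τ → Fin D) → Fin (H + 1))).card := by
    rw [Fintype.card_piFinset, Finset.prod_const, Finset.card_univ, Finset.card_univ,
      Fintype.card_fun, Fintype.card_fun, Fintype.card_fin, Fintype.card_fin, hcardO,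
      Int.card_Icc]
    have h1 : (B + 1 - -B).toNat = 2 * (D ^ (Fintype.card τ + 1) * H * N) + 1 := by
      rw [hB]
      omega
    rw [h1]
    exact hpig
  obtain ⟨F, _, F', _, hne, hFF⟩ := Finset.exists_ne_map_eq_of_card_lt_of_maps_to hcard hmaps
  refine ⟨fun u => ((F u : ℕ) : ℤ) - ((F' u : ℕ) : ℤ), ?_, ?_, ?_⟩
  · intro h
    apply hne
    funext u
    have := congrFun h u
    simp only [Pi.zero_apply] at this
    apply Fin.ext
    omega
  · intro u
    have h1 := (F u).isLt
    have h2 := (F' u).isLt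
    show |((F u : ℕ) : ℤ) - ((F' u : ℕ) : ℤ)| ≤ (H : ℤ)
    rw [abs_le]
    constructor <;> omega
  · intro κ
    have h1 := Int.abs_sub_lt_one_of_floor_eq_floor (congrFun hFF κ)
    have h2 : ∑ u : Option τ → Fin D, ((((F u : ℕ) : ℤ) - ((F' u : ℕ) : ℤ) : ℤ) : ℝ) *
        ∏ j, (ex ψ u j / (2 * D)) ^ (κ j : ℕ) = V F κ - V F' κ := by
      simp only [V]
      rw [← Finset.sum_sub_distrib]
      apply Finset.sum_congr rfl
      intro u _
      push_cast
      ring
    rw [h2, le_div_iff₀ hNpos]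
    rw [← sub_mul, abs_mul, abs_of_pos hNpos] at h1
    exact h1.le

/-- error estimate for the truncation -/
lemma exp_error {τ : Type} [Fintype τ] [DecidableEq τ] {d0 D : ℕ} (hd0 : 1 ≤ d0)
    (ψ : τ → ℝ) (hψ : ∀ j, |ψ j| ≤ 1) (A δ2 : ℝ) (hA : 1 ≤ A) (hδ : 2 * D * δ2 ≤ 1)
    (θ : Option τ → ℝ) (hθ : ∀ j, |θ (some j)| * (2 * D * A) ≤ 1)
    (hrel : |θ none - ∑ j, ψ j * θ (some j)| ≤ δ2) (u : Option τ → Fin D) :
    |Real.exp (∑ j, ((u j : ℕ) : ℝ) * θ j) - ∏ j, Td d0 (ex ψ u j * θ (some j))| ≤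
      3 ^ Fintype.card τ * (2 * D * δ2 + 2 * Fintype.card τ * (1 / A) ^ d0) := by
  set δ' := θ none - ∑ j, ψ j * θ (some j) with hδ'
  have hδ0 : 0 ≤ δ2 := (abs_nonneg _).trans hrel
  have hz : ∀ j, |ex ψ u j * θ (some j)| ≤ 1 / A := by
    intro j
    rw [abs_mul, le_div_iff₀ (by linarith)]
    calc |ex ψ u j| * |θ (some j)| * A ≤ (2 * D) * |θ (some j)| * A := by
          have := abs_ex_le ψ hψ u j
          have h1 : 0 ≤ |θ (some j)| := abs_nonneg _
          gcongr
      _ = |θ (some j)| * (2 * D * A) := by ring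
      _ ≤ 1 := hθ j
  have hA1 : 1 / A ≤ 1 := by
    rw [div_le_one (by linarith)]
    exact hA
  have hsum : ∑ j, ((u j : ℕ) : ℝ) * θ j =
      ((u none : ℕ) : ℝ) * δ' + ∑ j, ex ψ u j * θ (some j) := by
    rw [Fintype.sum_option, hδ']
    unfold ex
    rw [mul_sub, Finset.mul_sum]
    have : ∑ j, (((u (some j) : ℕ) : ℝ) + ((u none : ℕ) : ℝ) * ψ j) * θ (some j) =
        ∑ j, ((u (some j) : ℕ) : ℝ) * θ (some j) +
        ∑ j, ((u none : ℕ) : ℝ) * (ψ j * θ (some j)) := by
      rw [← Finset.sum_add_distrib]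
      apply Finset.sum_congr rfl
      intro j _
      ring
    rw [this]
    ring
  have hu : ((u none : ℕ) : ℝ) ≤ D := by exact_mod_cast (u none).isLt.le
  have hu0 : (0 : ℝ) ≤ ((u none : ℕ) : ℝ) := Nat.cast_nonneg _
  have hud : |((u none : ℕ) : ℝ) * δ'| ≤ D * δ2 := by
    rw [abs_mul, abs_of_nonneg hu0]
    exact mul_le_mul hu hrel (abs_nonneg _) (by positivity)
  have hD0 : (0 : ℝ) ≤ D * δ2 := by positivity
  have hprod : |∏ j, Real.exp (ex ψ u j * θ (some j))| ≤ 3 ^ Fintype.card τ := by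
    rw [Finset.abs_prod]
    calc ∏ j, |Real.exp (ex ψ u j * θ (some j))| ≤ ∏ _j : τ, (3 : ℝ) := by
          apply Finset.prod_le_prod
          · intro j _; exact abs_nonneg _
          · intro j _
            rw [abs_of_pos (Real.exp_pos _)]
            exact exp_le_three ((hz j).trans hA1)
      _ = 3 ^ Fintype.card τ := by rw [Finset.prod_const, Finset.card_univ]
  rw [hsum, Real.exp_add, Real.exp_sum]
  have h1 : |Real.exp (((u none : ℕ) : ℝ) * δ') * ∏ j, Real.exp (ex ψ u j * θ (some j)) -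
      ∏ j, Real.exp (ex ψ u j * θ (some j))| ≤ 2 * (D * δ2) * 3 ^ Fintype.card τ := by
    have h2 : Real.exp (((u none : ℕ) : ℝ) * δ') * ∏ j, Real.exp (ex ψ u j * θ (some j)) -
      ∏ j, Real.exp (ex ψ u j * θ (some j)) = (Real.exp (((u none : ℕ) : ℝ) * δ') - 1) *
      ∏ j, Real.exp (ex ψ u j * θ (some j)) := by ring
    rw [h2, abs_mul]
    apply mul_le_mul _ hprod (abs_nonneg _) (by positivity)
    refine (Real.abs_exp_sub_one_le (by linarith)).trans ?_
    linarith
  have h3 := abs_prod_sub_prod_le (Finset.univ : Finset τ)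
    (fun j => Real.exp (ex ψ u j * θ (some j))) (fun j => Td d0 (ex ψ u j * θ (some j))) 3
    (2 * (1 / A) ^ d0) (by norm_num)
    (fun j _ => by
      rw [abs_of_pos (Real.exp_pos _)]
      exact exp_le_three ((hz j).trans hA1))
    (fun j _ => abs_Td_le ((hz j).trans hA1))
    (fun j _ => (abs_exp_sub_Td hd0 ((hz j).trans hA1)).trans (by
      have := pow_le_pow_left₀ (abs_nonneg _) (hz j) d0
      linarith))
    (by positivity)
  rw [Finset.card_univ] at h3
  calc |Real.exp (((u none : ℕ) : ℝ) * δ') * ∏ j, Real.exp (ex ψ u j * θ (some j)) -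
      ∏ j, Td d0 (ex ψ u j * θ (some j))|
      ≤ |Real.exp (((u none : ℕ) : ℝ) * δ') * ∏ j, Real.exp (ex ψ u j * θ (some j)) -
      ∏ j, Real.exp (ex ψ u j * θ (some j))| +
      |∏ j, Real.exp (ex ψ u j * θ (some j)) - ∏ j, Td d0 (ex ψ u j * θ (some j))| :=
        abs_sub_le _ _ _
    _ ≤ 2 * (D * δ2) * 3 ^ Fintype.card τ +
        Fintype.card τ * 3 ^ Fintype.card τ * (2 * (1 / A) ^ d0) := add_le_add h1 h3
    _ = _ := by ring

/-- the auxiliary function is small at the relevant points -/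
lemma aux_small {τ : Type} [Fintype τ] [DecidableEq τ] {d0 D H N : ℕ} (hd0 : 1 ≤ d0)
    (hD : 1 ≤ D) (hN : 1 ≤ N)
    (ψ : τ → ℝ) (hψ : ∀ j, |ψ j| ≤ 1) (A δ2 : ℝ) (hA : 1 ≤ A) (hδ : 2 * D * δ2 ≤ 1)
    (G : (Option τ → Fin D) → ℤ) (hGH : ∀ u, |G u| ≤ H)
    (hG : ∀ κ : τ → Fin d0,
        |∑ u : Option τ → Fin D, (G u : ℝ) * ∏ j, (ex ψ u j / (2 * D)) ^ (κ j : ℕ)| ≤ 1 / N)
    (θ : Option τ → ℝ) (hθ : ∀ j, |θ (some j)| * (2 * D * A) ≤ 1)
    (hrel : |θ none - ∑ j, ψ j * θ (some j)| ≤ δ2) :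
    |∑ u : Option τ → Fin D, (G u : ℝ) * Real.exp (∑ j, ((u j : ℕ) : ℝ) * θ j)| ≤
      (D ^ (Fintype.card τ + 1) : ℕ) * (H * (3 ^ Fintype.card τ *
        (2 * D * δ2 + 2 * Fintype.card τ * (1 / A) ^ d0))) +
      (d0 ^ Fintype.card τ : ℕ) * (1 / N) := by
  classical
  have hDpos : (0 : ℝ) < D := by exact_mod_cast hD
  have hcardO : Fintype.card (Option τ → Fin D) = D ^ (Fintype.card τ + 1) := by
    rw [Fintype.card_fun, Fintype.card_fin, Fintype.card_option]
  set E0 : ℝ := 3 ^ Fintype.card τ * (2 * D * δ2 + 2 * Fintype.card τ * (1 / A) ^ d0) with hE0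
  have herr := exp_error hd0 ψ hψ A δ2 hA hδ θ hθ hrel
  have hsplit : ∑ u : Option τ → Fin D, (G u : ℝ) * Real.exp (∑ j, ((u j : ℕ) : ℝ) * θ j) =
      ∑ u : Option τ → Fin D, (G u : ℝ) * (Real.exp (∑ j, ((u j : ℕ) : ℝ) * θ j) -
        ∏ j, Td d0 (ex ψ u j * θ (some j))) +
      ∑ u : Option τ → Fin D, (G u : ℝ) * ∏ j, Td d0 (ex ψ u j * θ (some j)) := by
    rw [← Finset.sum_add_distrib]
    apply Finset.sum_congr rfl
    intro u _
    ring
  have h1 : |∑ u : Option τ → Fin D, (G u : ℝ) * (Real.exp (∑ j, ((u j : ℕ) : ℝ) * θ j) -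
        ∏ j, Td d0 (ex ψ u j * θ (some j)))| ≤ (D ^ (Fintype.card τ + 1) : ℕ) * (H * E0) := by
    calc _ ≤ ∑ u : Option τ → Fin D, |(G u : ℝ) * (Real.exp (∑ j, ((u j : ℕ) : ℝ) * θ j) -
        ∏ j, Td d0 (ex ψ u j * θ (some j)))| := Finset.abs_sum_le_sum_abs _ _
      _ ≤ ∑ _u : Option τ → Fin D, (H : ℝ) * E0 := by
          apply Finset.sum_le_sum
          intro u _
          rw [abs_mul]
          apply mul_le_mul _ (herr u) (abs_nonneg _) (Nat.cast_nonneg _)
          rw [← Int.cast_abs]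
          exact_mod_cast hGH u
      _ = _ := by
          rw [Finset.sum_const, Finset.card_univ, hcardO, nsmul_eq_mul]
  have hTd : ∀ u : Option τ → Fin D, ∏ j, Td d0 (ex ψ u j * θ (some j)) =
      ∑ κ : τ → Fin d0, (∏ j, (ex ψ u j / (2 * D)) ^ (κ j : ℕ)) *
        ∏ j, ((2 * D * θ (some j)) ^ (κ j : ℕ) / ((κ j : ℕ).factorial : ℝ)) := by
    intro u
    unfold Td
    rw [Finset.prod_univ_sum, Fintype.piFinset_univ]
    apply Finset.sum_congr rfl
    intro κ _
    rw [← Finset.prod_mul_distrib]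
    apply Finset.prod_congr rfl
    intro j _
    rw [← mul_div_assoc, ← mul_pow]
    congr 2
    field_simp
  have hw : ∀ κ : τ → Fin d0,
      |∏ j, ((2 * D * θ (some j)) ^ (κ j : ℕ) / ((κ j : ℕ).factorial : ℝ))| ≤ 1 := by
    intro κ
    rw [Finset.abs_prod]
    apply Finset.prod_le_one
    · intro j _; exact abs_nonneg _
    · intro j _
      rw [abs_div, abs_pow]
      have hf : (1 : ℝ) ≤ (((κ j : ℕ).factorial : ℕ) : ℝ) := by
        exact_mod_cast Nat.factorial_pos _
      rw [abs_of_pos (by linarith : (0 : ℝ) < (((κ j : ℕ).factorial : ℕ) : ℝ)),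
        div_le_one (by linarith)]
      refine le_trans (pow_le_one₀ (abs_nonneg _) ?_) hf
      rw [abs_mul, abs_of_pos (by positivity : (0 : ℝ) < 2 * D)]
      have h2 := hθ j
      have h3 : 0 ≤ |θ (some j)| := abs_nonneg _
      have h4 : |θ (some j)| * (2 * D) ≤ |θ (some j)| * (2 * D * A) := by
        apply mul_le_mul_of_nonneg_left _ h3
        nlinarith
      linarith
  have h2 : |∑ u : Option τ → Fin D, (G u : ℝ) * ∏ j, Td d0 (ex ψ u j * θ (some j))| ≤
      (d0 ^ Fintype.card τ : ℕ) * (1 / N) := by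
    have h3 : ∑ u : Option τ → Fin D, (G u : ℝ) * ∏ j, Td d0 (ex ψ u j * θ (some j)) =
        ∑ κ : τ → Fin d0,
          (∏ j, ((2 * D * θ (some j)) ^ (κ j : ℕ) / ((κ j : ℕ).factorial : ℝ))) *
          ∑ u : Option τ → Fin D, (G u : ℝ) * ∏ j, (ex ψ u j / (2 * D)) ^ (κ j : ℕ) := by
      simp_rw [hTd, Finset.mul_sum]
      rw [Finset.sum_comm]
      apply Finset.sum_congr rfl
      intro κ _
      apply Finset.sum_congr rfl
      intro u _
      ring
    rw [h3]
    calc _ ≤ ∑ κ : τ → Fin d0,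
          |(∏ j, ((2 * D * θ (some j)) ^ (κ j : ℕ) / ((κ j : ℕ).factorial : ℝ))) *
          ∑ u : Option τ → Fin D, (G u : ℝ) * ∏ j, (ex ψ u j / (2 * D)) ^ (κ j : ℕ)| :=
          Finset.abs_sum_le_sum_abs _ _
      _ ≤ ∑ _κ : τ → Fin d0, (1 / N : ℝ) := by
          apply Finset.sum_le_sum
          intro κ _
          rw [abs_mul]
          calc _ ≤ 1 * (1 / N : ℝ) :=
                mul_le_mul (hw κ) (hG κ) (abs_nonneg _) zero_le_one
            _ = _ := one_mul _
      _ = _ := by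
          rw [Finset.sum_const, Finset.card_univ, Fintype.card_fun, Fintype.card_fin,
            nsmul_eq_mul]
  rw [hsplit]
  exact (abs_add_le _ _).trans (add_le_add h1 h2)

/-- **archimedean core bound** -/
theorem card_le_arch {ι τ : Type} [Fintype τ] [DecidableEq τ] (d0 D H N Z : ℕ)
    (hd0 : 1 ≤ d0) (hD : 1 ≤ D) (hN : 1 ≤ N) (hZ : 1 ≤ Z)
    (hpig : (2 * (D ^ (Fintype.card τ + 1) * H * N) + 1) ^ (d0 ^ Fintype.card τ) <
      (H + 1) ^ (D ^ (Fintype.card τ + 1)))
    (A s δ1 : ℝ) (hA : 1 ≤ A) (hδ0 : 0 ≤ δ1) (hs0 : 0 ≤ s)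
    (hδ : 2 * D * ((Fintype.card τ + 1) * δ1) ≤ 1)
    (hs : ((Fintype.card τ + 1) * s) * (2 * D * A) ≤ 1)
    (hsize : ((D ^ (Fintype.card τ + 1) : ℕ) * (H * (3 ^ Fintype.card τ *
        (2 * D * ((Fintype.card τ + 1) * δ1) + 2 * Fintype.card τ * (1 / A) ^ d0))) +
      (d0 ^ Fintype.card τ : ℕ) * (1 / N)) *
      ((((Z : ℝ) ^ (Fintype.card τ + 1)) ^ (D - 1)) ^ (Fintype.card τ + 1)) < 1)
    (ψ : τ → ℝ) (hψ : ∀ j, |ψ j| ≤ 1) (I : Finset ι) (P Q : ι → Option τ → ℕ)
    (hP : ∀ t ∈ I, ∀ j, 1 ≤ P t j ∧ P t j ≤ Z) (hQ : ∀ t ∈ I, ∀ j, 1 ≤ Q t j ∧ Q t j ≤ Z)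
    (hPQ : ∀ t ∈ I, ∀ j, |Real.log (P t (some j)) - Real.log (Q t (some j))| ≤ s)
    (hrel : ∀ t ∈ I, |(Real.log (P t none) - Real.log (Q t none)) -
      ∑ j, ψ j * (Real.log (P t (some j)) - Real.log (Q t (some j)))| ≤ δ1)
    (ℓ : ι → Option τ → ℕ)
    (hℓ : ∀ t ∈ I, ∀ j, (P t j).factorization (ℓ t j) ≠ (Q t j).factorization (ℓ t j))
    (h0 : ∀ t ∈ I, ∀ j, ∀ t' ∈ I, ∀ j', (t' ≠ t ∨ j' ≠ j) →
      (P t' j').factorization (ℓ t j) = 0 ∧ (Q t' j').factorization (ℓ t j) = 0) :
    I.card ≤ 2 ^ ((Fintype.card τ + 1 + 1) * (Fintype.card τ + 1)) *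
      D ^ (Fintype.card τ + 1) := by
  classical
  obtain ⟨G, hG0, hGH, hG⟩ := exists_aux_arch d0 D H N hD hN hpig ψ hψ
  have hcard : Fintype.card (Option τ) = Fintype.card τ + 1 := Fintype.card_option
  have key := card_le_core (σ := Option τ) hD G hG0 I P Q
    (fun t ht j => by have := (hP t ht j).1; omega)
    (fun t ht j => by have := (hQ t ht j).1; omega) ℓ hℓ h0 (by
      intro ts hlen hts
      rw [hcard] at hlen
      set P' : Option τ → ℤ := fun j => (ts.map (fun t => (P t j : ℤ))).prod with hP'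
      set Q' : Option τ → ℤ := fun j => (ts.map (fun t => (Q t j : ℤ))).prod with hQ'
      have hP'b : ∀ j, 1 ≤ P' j ∧ P' j ≤ (Z : ℤ) ^ (Fintype.card τ + 1) := fun j =>
        list_prod_bound _ (Z : ℤ) (by exact_mod_cast hZ) _
          (by rw [List.length_map]; exact hlen) (by
            intro x hx
            rw [List.mem_map] at hx
            obtain ⟨t, ht, rfl⟩ := hx
            have := hP t (hts t ht) j
            exact ⟨by exact_mod_cast this.1, by exact_mod_cast this.2⟩)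
      have hQ'b : ∀ j, 1 ≤ Q' j ∧ Q' j ≤ (Z : ℤ) ^ (Fintype.card τ + 1) := fun j =>
        list_prod_bound _ (Z : ℤ) (by exact_mod_cast hZ) _
          (by rw [List.length_map]; exact hlen) (by
            intro x hx
            rw [List.mem_map] at hx
            obtain ⟨t, ht, rfl⟩ := hx
            have := hQ t (hts t ht) j
            exact ⟨by exact_mod_cast this.1, by exact_mod_cast this.2⟩)
      -- the logarithms
      set θ : Option τ → ℝ := fun j => (ts.map (fun t =>
        (Real.log (P t j) - Real.log (Q t j)))).sum with hθ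
      have hlog : ∀ j, Real.log ((P' j : ℤ) : ℝ) - Real.log ((Q' j : ℤ) : ℝ) = θ j := by
        intro j
        simp only [hP', hQ', hθ]
        clear hlen hP'b hQ'b hP' hQ' hθ P' Q' θ
        induction ts with
        | nil => simp
        | cons t ts ih =>
          have h1 : ∀ R : ι → Option τ → ℕ, (∀ s ∈ t :: ts, R s j ≠ 0) →
              Real.log ((((t :: ts).map (fun t => (R t j : ℤ))).prod : ℤ) : ℝ) =
              Real.log (R t j) + Real.log (((ts.map (fun t => (R t j : ℤ))).prod : ℤ) : ℝ) := by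
            intro R hR
            rw [List.map_cons, List.prod_cons, Int.cast_mul, Real.log_mul, Int.cast_natCast]
            · have := hR t List.mem_cons_self
              exact_mod_cast this
            · rw [Int.cast_ne_zero]
              apply List.prod_ne_zero
              intro h
              rw [List.mem_map] at h
              obtain ⟨s, hs, hs'⟩ := h
              exact hR s (List.mem_cons_of_mem _ hs) (by exact_mod_cast hs')
          rw [h1 P (fun s hs => by have := (hP s (hts s hs) j).1; omega),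
            h1 Q (fun s hs => by have := (hQ s (hts s hs) j).1; omega), List.map_cons,
            List.sum_cons, ← ih (fun s hs => hts s (List.mem_cons_of_mem _ hs))]
          ring
      have hlenr : ((ts.length : ℕ) : ℝ) ≤ (Fintype.card τ : ℝ) + 1 := by exact_mod_cast hlen
      have hθb : ∀ j, |θ (some j)| ≤ (Fintype.card τ + 1) * s := by
        intro j
        have h1 : |θ (some j)| ≤ ts.length * s := by
          simp only [hθ]
          clear hlen hlenr hP'b hQ'b hP' hQ' hlog hθ P' Q' θ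
          induction ts with
          | nil => simp
          | cons t ts ih =>
            rw [List.map_cons, List.sum_cons, List.length_cons]
            have h2 := ih (fun s hs => hts s (List.mem_cons_of_mem _ hs))
            have h3 := hPQ t (hts t List.mem_cons_self) j
            refine (abs_add_le _ _).trans ?_
            push_cast
            linarith
        exact h1.trans (mul_le_mul_of_nonneg_right hlenr hs0)
      have hθrel : |θ none - ∑ j, ψ j * θ (some j)| ≤ (Fintype.card τ + 1) * δ1 := by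
        have h1 : |θ none - ∑ j, ψ j * θ (some j)| ≤ ts.length * δ1 := by
          simp only [hθ]
          clear hlen hlenr hP'b hQ'b hP' hQ' hlog hθb hθ P' Q' θ
          induction ts with
          | nil => simp
          | cons t ts ih =>
            simp only [List.map_cons, List.sum_cons, List.length_cons]
            have h2 := ih (fun s hs => hts s (List.mem_cons_of_mem _ hs))
            have h3 := hrel t (hts t List.mem_cons_self)
            have h4 : ∀ (a b : ℝ) (f g : τ → ℝ), (a + b) - ∑ j, ψ j * (f j + g j) =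
                (a - ∑ j, ψ j * f j) + (b - ∑ j, ψ j * g j) := by
              intro a b f g
              have : ∑ j, ψ j * (f j + g j) = ∑ j, ψ j * f j + ∑ j, ψ j * g j := by
                rw [← Finset.sum_add_distrib]
                apply Finset.sum_congr rfl
                intro j _
                ring
              rw [this]
              ring
            rw [h4]
            refine (abs_add_le _ _).trans ?_
            push_cast
            linarith
        exact h1.trans (mul_le_mul_of_nonneg_right hlenr hδ0)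
      have hsm := aux_small hd0 hD hN ψ hψ A ((Fintype.card τ + 1) * δ1) hA hδ G hGH hG θ (by
        intro j
        refine le_trans ?_ hs
        exact mul_le_mul_of_nonneg_right (hθb j) (by positivity)) hθrel
      -- the value is an integer of absolute value less than one
      set v : ℤ := ∑ u : Option τ → Fin D, G u *
          ∏ j, (P' j ^ (u j : ℕ) * Q' j ^ (D - 1 - (u j : ℕ))) with hv
      have hPpos : ∀ j, (0 : ℝ) < ((P' j : ℤ) : ℝ) := fun j => by
        have := (hP'b j).1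
        exact_mod_cast (by omega : 0 < P' j)
      have hQpos : ∀ j, (0 : ℝ) < ((Q' j : ℤ) : ℝ) := fun j => by
        have := (hQ'b j).1
        exact_mod_cast (by omega : 0 < Q' j)
      have hval : (v : ℝ) = (∏ j, ((Q' j : ℤ) : ℝ) ^ (D - 1)) *
          ∑ u : Option τ → Fin D, (G u : ℝ) * Real.exp (∑ j, ((u j : ℕ) : ℝ) * θ j) := by
        rw [hv]
        push_cast
        rw [Finset.mul_sum]
        apply Finset.sum_congr rfl
        intro u _
        rw [mul_left_comm, Real.exp_sum, ← Finset.prod_mul_distrib]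
        congr 1
        apply Finset.prod_congr rfl
        intro j _
        rw [← hlog j, ← Real.log_div (hPpos j).ne' (hQpos j).ne', mul_comm ((u j : ℕ) : ℝ),
          ← Real.rpow_def_of_pos (div_pos (hPpos j) (hQpos j)), Real.rpow_natCast, div_pow]
        have h5 : (D - 1) = (D - 1 - (u j : ℕ)) + (u j : ℕ) := by
          have := (u j).isLt
          omega
        have h6 := (hQpos j).ne'
        conv_rhs => rw [h5, pow_add]
        field_simp
      have hQprod : |∏ j, ((Q' j : ℤ) : ℝ) ^ (D - 1)| ≤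
          (((Z : ℝ) ^ (Fintype.card τ + 1)) ^ (D - 1)) ^ (Fintype.card τ + 1) := by
        rw [Finset.abs_prod]
        calc ∏ j, |((Q' j : ℤ) : ℝ) ^ (D - 1)|
            ≤ ∏ _j : Option τ, ((Z : ℝ) ^ (Fintype.card τ + 1)) ^ (D - 1) := by
              apply Finset.prod_le_prod
              · intro j _; exact abs_nonneg _
              · intro j _
                rw [abs_pow, abs_of_pos (hQpos j)]
                apply pow_le_pow_left₀ (hQpos j).le
                exact_mod_cast (hQ'b j).2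
          _ = _ := by rw [Finset.prod_const, Finset.card_univ, hcard]
      have hvabs : |(v : ℝ)| < 1 := by
        rw [hval, abs_mul]
        refine lt_of_le_of_lt ?_ hsize
        rw [mul_comm]
        exact mul_le_mul hsm hQprod (abs_nonneg _) ((abs_nonneg _).trans hsm)
      have hv0 : |v| < 1 := by
        rw [← Int.cast_abs] at hvabs
        exact_mod_cast hvabs
      exact Int.abs_lt_one_iff.mp hv0)
  rw [hcard] at key
  exact key

end Pool.Agent.Y913
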