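import Mathlib

/-!
Pigeonhole in disjoint blocks, and the independence of the resulting quotients.
-/

set_option autoImplicit false

namespace Pool.Agent.Y913

open Finset

/-- in each of `m` disjoint blocks there are two different `w`-subsets with the same value of `f` -/
lemma exists_blocks {ι β : Type} [DecidableEq ι] (S : Finset ι) (m N0 w : ℕ)
    (hS : m * N0 ≤ S.card) (f : Finset ι → β) (T : Finset β)
    (hf : ∀ W ⊆ S, W.card = w → f W ∈ T) (hT : T.card < N0.choose w) :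
    ∃ W W' : Fin m → Finset ι, (∀ t, W t ⊆ S ∧ W' t ⊆ S ∧ (W t).card = w ∧ (W' t).card = w ∧
      W t ≠ W' t ∧ f (W t) = f (W' t)) ∧
      ∀ t t', t ≠ t' → Disjoint (W t ∪ W' t) (W t' ∪ W' t') := by
  classical
  have hcard : Fintype.card (Fin m × Fin N0) ≤ Fintype.card {x // x ∈ S} := by
    simpa using hS
  obtain ⟨e⟩ := Function.Embedding.nonempty_of_card_le hcard
  let B : Fin m → Finset ι := fun t => univ.image (fun k : Fin N0 => (e (t, k)).1)
  have hBS : ∀ t, B t ⊆ S := by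
    intro t x hx
    rw [Finset.mem_image] at hx
    obtain ⟨k, _, rfl⟩ := hx
    exact (e (t, k)).2
  have hBc : ∀ t, (B t).card = N0 := by
    intro t
    rw [Finset.card_image_of_injective, Finset.card_univ, Fintype.card_fin]
    intro k k' h
    have := e.injective (Subtype.ext h)
    simpa using this
  have hBd : ∀ t t', t ≠ t' → Disjoint (B t) (B t') := by
    intro t t' htt
    rw [Finset.disjoint_left]
    intro x hx hx'
    rw [Finset.mem_image] at hx hx'
    obtain ⟨k, _, rfl⟩ := hx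
    obtain ⟨k', _, hk'⟩ := hx'
    have := e.injective (Subtype.ext hk')
    simp only [Prod.mk.injEq] at this
    exact htt this.1.symm
  have hpig : ∀ t, ∃ W W' : Finset ι, W ⊆ B t ∧ W' ⊆ B t ∧ W.card = w ∧ W'.card = w ∧
      W ≠ W' ∧ f W = f W' := by
    intro t
    have h1 : T.card < ((B t).powersetCard w).card := by
      rw [Finset.card_powersetCard, hBc]
      exact hT
    obtain ⟨W, hW, W', hW', hne, hfW⟩ := Finset.exists_ne_map_eq_of_card_lt_of_maps_to h1
      (f := f) (by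
        intro W hW
        rw [Finset.mem_coe, Finset.mem_powersetCard] at hW
        exact hf W (hW.1.trans (hBS t)) hW.2)
    rw [Finset.mem_powersetCard] at hW hW'
    exact ⟨W, W', hW.1, hW'.1, hW.2, hW'.2, hne, hfW⟩
  choose W W' h1 h2 h3 h4 h5 h6 using hpig
  refine ⟨W, W', fun t => ⟨(h1 t).trans (hBS t), (h2 t).trans (hBS t), h3 t, h4 t, h5 t, h6 t⟩, ?_⟩
  intro t t' htt
  exact Finset.disjoint_of_subset_left (Finset.union_subset (h1 t) (h2 t))
    (Finset.disjoint_of_subset_right (Finset.union_subset (h1 t') (h2 t')) (hBd t t' htt))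

/-- product of a coordinate over a subset -/
def PP {ι σ : Type} (x : ι → σ → ℕ) (W : Finset ι) (j : σ) : ℕ := ∏ i ∈ W, x i j

lemma PP_ne_zero {ι σ : Type} {x : ι → σ → ℕ} {S : Finset ι}
    (hx : ∀ i ∈ S, ∀ j, (x i j).Prime) {W : Finset ι} (hW : W ⊆ S) (j : σ) : PP x W j ≠ 0 :=
  Finset.prod_ne_zero_iff.mpr (fun i hi => (hx i (hW hi) j).ne_zero)

lemma PP_le {ι σ : Type} {x : ι → σ → ℕ} {S : Finset ι} {Y : ℕ}
    (hx : ∀ i ∈ S, ∀ j, x i j ≤ Y) {W : Finset ι} (hW : W ⊆ S) (j : σ) :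
    PP x W j ≤ Y ^ W.card :=
  Finset.prod_le_pow_card _ _ _ (fun i hi => hx i (hW hi) j)

lemma factorization_PP {ι σ : Type} [DecidableEq ι] {x : ι → σ → ℕ} {S : Finset ι}
    (hx : ∀ i ∈ S, ∀ j, (x i j).Prime)
    (hinj : ∀ i ∈ S, ∀ j, ∀ i' ∈ S, ∀ j', x i j = x i' j' → i = i' ∧ j = j')
    {W : Finset ι} (hW : W ⊆ S) (j j0 : σ) (i0 : ι) (hi0 : i0 ∈ S) [DecidableEq σ] :
    (PP x W j).factorization (x i0 j0) = if i0 ∈ W ∧ j = j0 then 1 else 0 := by
  unfold PP
  rw [Nat.factorization_prod_apply (fun i hi => (hx i (hW hi) j).ne_zero)]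
  split_ifs with h
  · obtain ⟨h1, rfl⟩ := h
    rw [Finset.sum_eq_single i0]
    · rw [(hx i0 hi0 j).factorization, Finsupp.single_eq_same]
    · intro i hi hne
      rw [(hx i (hW hi) j).factorization, Finsupp.single_apply, if_neg]
      intro h
      exact hne (hinj i (hW hi) j i0 hi0 j h).1
    · intro h; exact absurd h1 h
  · apply Finset.sum_eq_zero
    intro i hi
    rw [(hx i (hW hi) j).factorization, Finsupp.single_apply, if_neg]
    intro h'
    have h2 := hinj i (hW hi) j i0 hi0 j0 h'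
    exact h ⟨h2.1 ▸ hi, h2.2⟩

/-- the independence properties of the quotients obtained from the blocks -/
lemma indep_blocks {ι σ : Type} [DecidableEq ι] [DecidableEq σ] {x : ι → σ → ℕ} {S : Finset ι}
    (hx : ∀ i ∈ S, ∀ j, (x i j).Prime)
    (hinj : ∀ i ∈ S, ∀ j, ∀ i' ∈ S, ∀ j', x i j = x i' j' → i = i' ∧ j = j') {m w : ℕ}
    (W W' : Fin m → Finset ι) (hW : ∀ t, W t ⊆ S ∧ W' t ⊆ S ∧ (W t).card = w ∧ (W' t).card = w ∧
      W t ≠ W' t)
    (hdisj : ∀ t t', t ≠ t' → Disjoint (W t ∪ W' t) (W t' ∪ W' t')) :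
    ∃ ℓ : Fin m → σ → ℕ,
      (∀ t, ∀ j, (PP x (W t) j).factorization (ℓ t j) ≠ (PP x (W' t) j).factorization (ℓ t j)) ∧
      (∀ t, ∀ j, ∀ t', ∀ j', (t' ≠ t ∨ j' ≠ j) →
        (PP x (W t') j').factorization (ℓ t j) = 0 ∧
        (PP x (W' t') j').factorization (ℓ t j) = 0) := by
  have hex : ∀ t, ∃ i, i ∈ W t ∧ i ∉ W' t := by
    intro t
    obtain ⟨h1, h2, h3, h4, h5⟩ := hW t
    by_contra hcon
    push Not at hcon
    exact h5 (Finset.eq_of_subset_of_card_le hcon (by omega))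
  choose i hi hi' using hex
  refine ⟨fun t j => x (i t) j, ?_, ?_⟩
  · intro t j
    rw [factorization_PP hx hinj (hW t).1 j j (i t) ((hW t).1 (hi t)),
      factorization_PP hx hinj (hW t).2.1 j j (i t) ((hW t).1 (hi t)),
      if_pos ⟨hi t, rfl⟩, if_neg (fun h => hi' t h.1)]
    exact one_ne_zero
  · intro t j t' j' h
    rw [factorization_PP hx hinj (hW t').1 j' j (i t) ((hW t).1 (hi t)),
      factorization_PP hx hinj (hW t').2.1 j' j (i t) ((hW t).1 (hi t))]
    have hnot : ∀ V : Finset ι, V ⊆ W t' ∪ W' t' → ¬ (i t ∈ V ∧ j' = j) := by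
      rintro V hV ⟨h1, h2⟩
      rcases h with h | h
      · exact Finset.disjoint_left.mp (hdisj t' t h) (hV h1) (Finset.mem_union_left _ (hi t))
      · exact h h2
    rw [if_neg (hnot _ Finset.subset_union_left), if_neg (hnot _ Finset.subset_union_right)]
    exact ⟨rfl, rfl⟩

end Pool.Agent.Y913
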