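import Mathlib

/-!
Auxiliary polynomial (`p`-adic form): truncated binomial expansions and the pigeonhole principle.
-/

set_option autoImplicit false

namespace Pool.Agent.Y913

open Finset

lemma pow_one_add_eq {R : Type} [CommRing R] (a : R) (d0 : ℕ) (ha : a ^ d0 = 0) (e : ℕ) :
    (1 + a) ^ e = ∑ k : Fin d0, (e.choose (k : ℕ) : R) * a ^ (k : ℕ) := by
  have h1 : (1 + a) ^ e = ∑ k ∈ range (max (e + 1) d0), (e.choose k : R) * a ^ k := by
    rw [add_comm, add_pow]
    rw [← Finset.sum_subset (range_mono (le_max_left (e + 1) d0))]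
    · apply Finset.sum_congr rfl
      intro k _
      rw [one_pow, mul_one, mul_comm]
    · intro k _ hk
      rw [mem_range, not_lt] at hk
      rw [Nat.choose_eq_zero_of_lt (by omega)]
      simp
  rw [h1, Fin.sum_univ_eq_sum_range (fun k => (e.choose k : R) * a ^ k) d0]
  symm
  apply Finset.sum_subset (range_mono (le_max_right (e + 1) d0))
  intro k _ hk
  rw [mem_range, not_lt] at hk
  obtain ⟨m, rfl⟩ := Nat.exists_eq_add_of_le hk
  rw [pow_add, ha, zero_mul, mul_zero]

/-- the factorisation of a monomial through truncated binomial expansions -/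
lemma monomial_fac {R : Type} [CommRing R] {τ : Type} [Fintype τ] [DecidableEq τ] (d0 : ℕ)
    (ξ : Option τ → R) (a : τ → R) (ha : ∀ j, a j ^ d0 = 0) (hξ : ∀ j, ξ (some j) = 1 + a j)
    (ψ : τ → ℕ) (hnone : ξ none = ∏ j, ξ (some j) ^ ψ j) (u : Option τ → ℕ) :
    ∏ j, ξ j ^ u j = ∑ κ : τ → Fin d0,
      ((∏ j, ((u (some j) + u none * ψ j).choose (κ j : ℕ)) : ℕ) : R) *
        ∏ j, a j ^ (κ j : ℕ) := by
  rw [Fintype.prod_option, hnone, ← Finset.prod_pow, ← Finset.prod_mul_distrib]
  have h1 : ∀ j : τ, (ξ (some j) ^ ψ j) ^ u none * ξ (some j) ^ u (some j) =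
      ∑ k : Fin d0, ((u (some j) + u none * ψ j).choose (k : ℕ) : R) * a j ^ (k : ℕ) := by
    intro j
    rw [← pow_one_add_eq (a j) d0 (ha j), ← hξ, ← pow_mul, ← pow_add]
    congr 1
    ring
  rw [Finset.prod_congr rfl (fun j _ => h1 j), Finset.prod_univ_sum, Fintype.piFinset_univ]
  apply Finset.sum_congr rfl
  intro κ _
  rw [Finset.prod_mul_distrib]
  push_cast
  rfl

/-- **auxiliary polynomial, `p`-adic form** -/
theorem exists_aux {τ : Type} [Fintype τ] [DecidableEq τ] (q π d0 D H : ℕ) [NeZero q]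
    (hπ : q ∣ π ^ d0)
    (hpig : q ^ (d0 ^ Fintype.card τ) < (H + 1) ^ (D ^ (Fintype.card τ + 1))) (ψ : τ → ℕ) :
    ∃ G : (Option τ → Fin D) → ℤ, G ≠ 0 ∧ (∀ u, |G u| ≤ H) ∧
      ∀ P Q : Option τ → ℤ, (∀ j, IsUnit ((Q j : ℤ) : ZMod q)) →
        (∀ j, (π : ℤ) ∣ P (some j) - Q (some j)) →
        ((P none : ZMod q) * ∏ j, (Q (some j) : ZMod q) ^ ψ j =
          (Q none : ZMod q) * ∏ j, (P (some j) : ZMod q) ^ ψ j) →
        (q : ℤ) ∣ ∑ u : Option τ → Fin D, G u *
          ∏ j, (P j ^ (u j : ℕ) * Q j ^ (D - 1 - (u j : ℕ))) := by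
  classical
  let Φ : ((Option τ → Fin D) → Fin (H + 1)) → ((τ → Fin d0) → ZMod q) := fun F κ =>
    ∑ u : Option τ → Fin D, ((F u : ℕ) : ZMod q) *
      ((∏ j, (((u (some j) : ℕ) + (u none : ℕ) * ψ j).choose (κ j : ℕ)) : ℕ) : ZMod q)
  have hcard : Fintype.card ((τ → Fin d0) → ZMod q) <
      Fintype.card ((Option τ → Fin D) → Fin (H + 1)) := by
    simpa [Fintype.card_fun, ZMod.card] using hpig
  obtain ⟨F, F', hne, hFF⟩ := Fintype.exists_ne_map_eq_of_card_lt Φ hcard
  refine ⟨fun u => ((F u : ℕ) : ℤ) - ((F' u : ℕ) : ℤ), ?_, ?_, ?_⟩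
  · intro h
    apply hne
    funext u
    have := congrFun h u
    simp only [Pi.zero_apply] at this
    apply Fin.ext
    omega
  · intro u
    have h1 := (F u).isLt
    have h2 := (F' u).isLt
    show |((F u : ℕ) : ℤ) - ((F' u : ℕ) : ℤ)| ≤ (H : ℤ)
    rw [abs_le]
    constructor <;> omega
  · intro P Q hQ hPQ hrel
    rw [← ZMod.intCast_zmod_eq_zero_iff_dvd]
    -- the quotients
    have hinv : ∀ j, ∃ v : ZMod q, (Q j : ZMod q) * v = 1 := fun j => by
      obtain ⟨w, hw⟩ := hQ j
      exact ⟨((w⁻¹ : (ZMod q)ˣ) : ZMod q), by rw [← hw]; exact w.mul_inv⟩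
    choose v hv using hinv
    choose s hs using hPQ
    let ξ : Option τ → ZMod q := fun j => (P j : ZMod q) * v j
    let a : τ → ZMod q := fun j => (π : ZMod q) * (s j : ZMod q) * v (some j)
    have hP : ∀ j, (P j : ZMod q) = Q j * ξ j := by
      intro j
      simp only [ξ]
      linear_combination (-(P j : ZMod q)) * hv j
    have ha : ∀ j, a j ^ d0 = 0 := by
      intro j
      simp only [a]
      rw [mul_pow, mul_pow, ← Nat.cast_pow]
      rw [(ZMod.natCast_eq_zero_iff (π ^ d0) q).mpr hπ]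
      ring
    have hξ : ∀ j, ξ (some j) = 1 + a j := by
      intro j
      simp only [ξ, a]
      have h1 : (P (some j) : ZMod q) = Q (some j) + π * s j := by
        have h2 : P (some j) = Q (some j) + π * s j := by linarith [hs j]
        rw [h2]
        push_cast
        ring
      rw [h1]
      linear_combination hv (some j)
    have hnone : ξ none = ∏ j, ξ (some j) ^ ψ j := by
      have h1 : (∏ j, (Q (some j) : ZMod q) ^ ψ j) * ∏ j, v (some j) ^ ψ j = 1 := by
        rw [← Finset.prod_mul_distrib]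
        apply Finset.prod_eq_one
        intro j _
        rw [← mul_pow, hv, one_pow]
      have h2 : ∏ j, ξ (some j) ^ ψ j =
          (∏ j, (P (some j) : ZMod q) ^ ψ j) * ∏ j, v (some j) ^ ψ j := by
        rw [← Finset.prod_mul_distrib]
        apply Finset.prod_congr rfl
        intro j _
        rw [← mul_pow]
      rw [h2]
      simp only [ξ]
      have h3 := hv none
      calc (P none : ZMod q) * v none
          = (P none * ∏ j, (Q (some j) : ZMod q) ^ ψ j) * v none *
              ∏ j, v (some j) ^ ψ j := by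
            linear_combination (-(P none : ZMod q) * v none) * h1
        _ = (Q none * ∏ j, (P (some j) : ZMod q) ^ ψ j) * v none *
              ∏ j, v (some j) ^ ψ j := by rw [hrel]
        _ = _ := by
            linear_combination ((∏ j, (P (some j) : ZMod q) ^ ψ j) *
              ∏ j, v (some j) ^ ψ j) * h3
    -- the main computation
    have hterm : ∀ u : Option τ → Fin D,
        ∏ j, ((P j : ZMod q) ^ (u j : ℕ) * (Q j : ZMod q) ^ (D - 1 - (u j : ℕ))) =
        (∏ j, (Q j : ZMod q) ^ (D - 1)) * ∏ j, ξ j ^ (u j : ℕ) := by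
      intro u
      rw [← Finset.prod_mul_distrib]
      apply Finset.prod_congr rfl
      intro j _
      rw [hP j, mul_pow]
      have : (Q j : ZMod q) ^ (D - 1) =
          (Q j : ZMod q) ^ (u j : ℕ) * (Q j : ZMod q) ^ (D - 1 - (u j : ℕ)) := by
        rw [← pow_add]
        congr 1
        have := (u j).isLt
        omega
      rw [this]
      ring
    have hΦ : ∀ κ : τ → Fin d0, ∑ u : Option τ → Fin D, ((F u : ℕ) : ZMod q) *
      ((∏ j, (((u (some j) : ℕ) + (u none : ℕ) * ψ j).choose (κ j : ℕ)) : ℕ) : ZMod q) =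
      ∑ u : Option τ → Fin D, ((F' u : ℕ) : ZMod q) *
      ((∏ j, (((u (some j) : ℕ) + (u none : ℕ) * ψ j).choose (κ j : ℕ)) : ℕ) : ZMod q) :=
      fun κ => congrFun hFF κ
    push_cast
    calc ∑ u : Option τ → Fin D, (((F u : ℕ) : ZMod q) - ((F' u : ℕ) : ZMod q)) *
          ∏ j, ((P j : ZMod q) ^ (u j : ℕ) * (Q j : ZMod q) ^ (D - 1 - (u j : ℕ)))
        = ∑ u : Option τ → Fin D, (((F u : ℕ) : ZMod q) - ((F' u : ℕ) : ZMod q)) *
          ((∏ j, (Q j : ZMod q) ^ (D - 1)) * ∑ κ : τ → Fin d0,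
      ((∏ j, (((u (some j) : ℕ) + (u none : ℕ) * ψ j).choose (κ j : ℕ)) : ℕ) : ZMod q) *
        ∏ j, a j ^ (κ j : ℕ)) := by
          apply Finset.sum_congr rfl
          intro u _
          rw [hterm u, monomial_fac d0 ξ a ha hξ ψ hnone (fun j => (u j : ℕ))]
      _ = (∏ j, (Q j : ZMod q) ^ (D - 1)) * ∑ κ : τ → Fin d0, (∏ j, a j ^ (κ j : ℕ)) *
            ∑ u : Option τ → Fin D, (((F u : ℕ) : ZMod q) - ((F' u : ℕ) : ZMod q)) *
            ((∏ j, (((u (some j) : ℕ) + (u none : ℕ) * ψ j).choose (κ j : ℕ)) : ℕ) :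
              ZMod q) := by
          rw [Finset.mul_sum]
          simp_rw [Finset.mul_sum]
          rw [Finset.sum_comm]
          apply Finset.sum_congr rfl
          intro κ _
          apply Finset.sum_congr rfl
          intro u _
          ring
      _ = 0 := by
          apply mul_eq_zero_of_right
          apply Finset.sum_eq_zero
          intro κ _
          apply mul_eq_zero_of_right
          simp_rw [sub_mul]
          rw [Finset.sum_sub_distrib, hΦ κ, sub_self]

end Pool.Agent.Y913
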