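import Pool.Agent.Y913.Zero
import Pool.Agent.Y913.Fac

/-!
The core of the `p`-adic argument: there are few rational points with independent coordinates
which are close to `1` and satisfy one common multiplicative relation to high `p`-adic precision.
-/

set_option autoImplicit false

namespace Pool.Agent.Y913

open Finset

lemma indep_of_factorization {σ : Type} [Fintype σ] [DecidableEq σ] (A B : σ → ℕ)
    (hA : ∀ j, A j ≠ 0) (hB : ∀ j, B j ≠ 0) (ℓ : σ → ℕ)
    (hℓ : ∀ j, (A j).factorization (ℓ j) ≠ (B j).factorization (ℓ j))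
    (h0 : ∀ j j', j' ≠ j → (A j').factorization (ℓ j) = (B j').factorization (ℓ j))
    (u u' : σ → ℕ) (h : ∏ j, ((A j : ℂ) / (B j : ℂ)) ^ u j = ∏ j, ((A j : ℂ) / (B j : ℂ)) ^ u' j) :
    u = u' := by
  have h1 : (∏ j, (A j) ^ u j) * ∏ j, (B j) ^ u' j = (∏ j, (A j) ^ u' j) * ∏ j, (B j) ^ u j := by
    have hB' : ∀ j, (B j : ℂ) ≠ 0 := fun j => by exact_mod_cast hB j
    have e1 : ∀ w : σ → ℕ, ∏ j, ((A j : ℂ) / (B j : ℂ)) ^ w j =
        (∏ j, (A j : ℂ) ^ w j) / ∏ j, (B j : ℂ) ^ w j := by
      intro w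
      rw [← Finset.prod_div_distrib]
      apply Finset.prod_congr rfl
      intro j _
      rw [div_pow]
    have e2 : ∀ w : σ → ℕ, ∏ j, (B j : ℂ) ^ w j ≠ 0 := fun w =>
      Finset.prod_ne_zero_iff.mpr (fun j _ => pow_ne_zero _ (hB' j))
    rw [e1, e1, div_eq_div_iff (e2 u) (e2 u')] at h
    exact_mod_cast h
  funext j0
  have hfac : ∀ (C : σ → ℕ) (w : σ → ℕ), (∀ j, C j ≠ 0) →
      (∏ j, (C j) ^ w j).factorization (ℓ j0) = ∑ j, w j * (C j).factorization (ℓ j0) := by
    intro C w hC
    rw [Nat.factorization_prod_apply (fun j _ => pow_ne_zero _ (hC j))]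
    apply Finset.sum_congr rfl
    intro j _
    rw [Nat.factorization_pow]
    simp
  have h2 := congrArg (fun m => m.factorization (ℓ j0)) h1
  have hne : ∀ (C : σ → ℕ) (w : σ → ℕ), (∀ j, C j ≠ 0) → ∏ j, (C j) ^ w j ≠ 0 :=
    fun C w hC => Finset.prod_ne_zero_iff.mpr (fun j _ => pow_ne_zero _ (hC j))
  rw [Nat.factorization_mul (hne A u hA) (hne B u' hB),
    Nat.factorization_mul (hne A u' hA) (hne B u hB), Finsupp.add_apply, Finsupp.add_apply,
    hfac A u hA, hfac B u' hB, hfac A u' hA, hfac B u hB] at h2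
  rw [← Finset.add_sum_erase _ _ (Finset.mem_univ j0), ← Finset.add_sum_erase _
    (fun j => u' j * (B j).factorization (ℓ j0)) (Finset.mem_univ j0),
    ← Finset.add_sum_erase _ (fun j => u' j * (A j).factorization (ℓ j0)) (Finset.mem_univ j0),
    ← Finset.add_sum_erase _ (fun j => u j * (B j).factorization (ℓ j0)) (Finset.mem_univ j0)]
    at h2
  have h3 : ∀ w : σ → ℕ, ∑ j ∈ univ.erase j0, w j * (A j).factorization (ℓ j0) =
      ∑ j ∈ univ.erase j0, w j * (B j).factorization (ℓ j0) := by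
    intro w
    apply Finset.sum_congr rfl
    intro j hj
    rw [h0 j0 j (Finset.ne_of_mem_erase hj)]
  rw [h3 u, h3 u'] at h2
  have h4 : u j0 * (A j0).factorization (ℓ j0) + u' j0 * (B j0).factorization (ℓ j0) =
      u' j0 * (A j0).factorization (ℓ j0) + u j0 * (B j0).factorization (ℓ j0) := by omega
  have h5 : ((u j0 : ℤ) - u' j0) * (((A j0).factorization (ℓ j0) : ℤ) -
      (B j0).factorization (ℓ j0)) = 0 := by
    have h4' : (u j0 : ℤ) * (A j0).factorization (ℓ j0) + u' j0 * (B j0).factorization (ℓ j0) =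
      u' j0 * (A j0).factorization (ℓ j0) + u j0 * (B j0).factorization (ℓ j0) := by
      exact_mod_cast h4
    linear_combination h4'
  rcases mul_eq_zero.mp h5 with h6 | h6
  · omega
  · exact absurd (by omega) (hℓ j0)

/-- the points attached to a family of numerators and denominators -/
noncomputable def pt {ι σ : Type} (P Q : ι → σ → ℕ) (t : ι) : σ → ℂ :=
  fun j => (P t j : ℂ) / (Q t j : ℂ)

/-- **core bound from an auxiliary polynomial** -/
theorem card_le_core {ι σ : Type} [Fintype σ] [DecidableEq σ] [Nonempty σ] {D : ℕ} (hD : 1 ≤ D)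
    (G : (σ → Fin D) → ℤ) (hG : G ≠ 0) (I : Finset ι) (P Q : ι → σ → ℕ)
    (hP : ∀ t ∈ I, ∀ j, P t j ≠ 0) (hQ : ∀ t ∈ I, ∀ j, Q t j ≠ 0) (ℓ : ι → σ → ℕ)
    (hℓ : ∀ t ∈ I, ∀ j, (P t j).factorization (ℓ t j) ≠ (Q t j).factorization (ℓ t j))
    (h0 : ∀ t ∈ I, ∀ j, ∀ t' ∈ I, ∀ j', (t' ≠ t ∨ j' ≠ j) →
      (P t' j').factorization (ℓ t j) = 0 ∧ (Q t' j').factorization (ℓ t j) = 0)
    (hvan : ∀ ts : List ι, ts.length ≤ Fintype.card σ → (∀ t ∈ ts, t ∈ I) →
      ∑ u : σ → Fin D, G u * ∏ j, (((ts.map (fun t => (P t j : ℤ))).prod) ^ (u j : ℕ) *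
        ((ts.map (fun t => (Q t j : ℤ))).prod) ^ (D - 1 - (u j : ℕ))) = 0) :
    I.card ≤ 2 ^ ((Fintype.card σ + 1) * Fintype.card σ) * D ^ Fintype.card σ := by
  classical
  have hquot : ∀ t ∈ I, ∀ t' ∈ I, t ≠ t' → ∀ u u' : σ → ℕ,
      ∏ j, (pt P Q t' j / pt P Q t j) ^ u j = ∏ j, (pt P Q t' j / pt P Q t j) ^ u' j → u = u' := by
    intro t ht t' ht' htt u u' h
    apply indep_of_factorization (fun j => P t' j * Q t j) (fun j => Q t' j * P t j)
      (fun j => mul_ne_zero (hP t' ht' j) (hQ t ht j))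
      (fun j => mul_ne_zero (hQ t' ht' j) (hP t ht j)) (fun j => ℓ t' j)
    · intro j
      have h1 := h0 t' ht' j t ht j (Or.inl htt)
      rw [Nat.factorization_mul (hP t' ht' j) (hQ t ht j),
        Nat.factorization_mul (hQ t' ht' j) (hP t ht j), Finsupp.add_apply, Finsupp.add_apply,
        h1.1, h1.2]
      simpa using hℓ t' ht' j
    · intro j j' hj
      have h1 := h0 t' ht' j t ht j' (Or.inl htt)
      have h2 := h0 t' ht' j t' ht' j' (Or.inr hj)
      rw [Nat.factorization_mul (hP t' ht' j') (hQ t ht j'),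
        Nat.factorization_mul (hQ t' ht' j') (hP t ht j'), Finsupp.add_apply, Finsupp.add_apply,
        h1.1, h1.2, h2.1, h2.2]
    · have e : ∀ j, pt P Q t' j / pt P Q t j =
          ((P t' j * Q t j : ℕ) : ℂ) / ((Q t' j * P t j : ℕ) : ℂ) := by
        intro j
        unfold pt
        push_cast
        rw [div_div_div_eq]
      simpa only [e] using h
  have hinj : Set.InjOn (pt P Q) (I : Set ι) := by
    intro t ht t' ht' h
    by_contra htt
    have hone : ∀ j, pt P Q t' j / pt P Q t j = 1 := by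
      intro j
      rw [h]
      apply div_self
      unfold pt
      exact div_ne_zero (by exact_mod_cast hP t' ht' j) (by exact_mod_cast hQ t' ht' j)
    have := hquot t ht t' ht' htt (fun _ => 0) (fun _ => 1) (by simp [hone])
    have h2 := congrFun this (Classical.arbitrary σ)
    simp at h2
  rw [← Finset.card_image_of_injOn hinj]
  apply card_le_of_vanish hD G hG
  · intro g hg j
    rw [Finset.mem_image] at hg
    obtain ⟨t, ht, rfl⟩ := hg
    exact div_ne_zero (by exact_mod_cast hP t ht j) (by exact_mod_cast hQ t ht j)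
  · intro g hg g' hg' hne
    rw [Finset.mem_image] at hg hg'
    obtain ⟨t, ht, rfl⟩ := hg
    obtain ⟨t', ht', rfl⟩ := hg'
    exact hquot t ht t' ht' (fun h => hne (by rw [h]))
  · intro gs hlen hmem
    -- lift the list
    have hlift : ∃ ts : List ι, ts.map (pt P Q) = gs ∧ ∀ t ∈ ts, t ∈ I := by
      clear hlen
      induction gs with
      | nil => exact ⟨[], rfl, by simp⟩
      | cons g gs ih =>
        obtain ⟨ts, hts, hts'⟩ := ih (fun g' hg' => hmem g' (List.mem_cons_of_mem _ hg'))
        obtain ⟨t, ht, htg⟩ := Finset.mem_image.mp (hmem g List.mem_cons_self)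
        refine ⟨t :: ts, by rw [List.map_cons, htg, hts], ?_⟩
        intro s hs
        rcases List.mem_cons.mp hs with rfl | hs
        · exact ht
        · exact hts' s hs
    obtain ⟨ts, rfl, hts⟩ := hlift
    rw [List.length_map] at hlen
    have h1 := hvan ts hlen hts
    have hprod : ∀ j, ((ts.map (pt P Q)).map (fun g => g j)).prod =
        (((ts.map (fun t => (P t j : ℤ))).prod : ℤ) : ℂ) /
        (((ts.map (fun t => (Q t j : ℤ))).prod : ℤ) : ℂ) := by
      intro j
      clear h1 hlen hts hmem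
      induction ts with
      | nil => simp
      | cons t ts ih =>
        rw [List.map_cons, List.map_cons, List.prod_cons, ih]
        simp only [List.map_cons, List.prod_cons, pt]
        push_cast
        rw [div_mul_div_comm]
    have hQne : ∀ j, ((((ts.map (fun t => (Q t j : ℤ))).prod : ℤ)) : ℂ) ≠ 0 := by
      intro j
      rw [Int.cast_ne_zero]
      apply List.prod_ne_zero
      intro h
      rw [List.mem_map] at h
      obtain ⟨t, ht, ht'⟩ := h
      exact hQ t (hts t ht) j (by exact_mod_cast ht')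
    have h2 : (∏ j, ((((ts.map (fun t => (Q t j : ℤ))).prod : ℤ)) : ℂ) ^ (D - 1)) *
        ∑ u : σ → Fin D, (G u : ℂ) *
          ∏ j, (((ts.map (pt P Q)).map (fun g => g j)).prod) ^ (u j : ℕ) = 0 := by
      have h3 := congrArg (fun z : ℤ => (z : ℂ)) h1
      push_cast at h3
      rw [Finset.mul_sum, ← h3]
      apply Finset.sum_congr rfl
      intro u _
      rw [mul_left_comm, ← Finset.prod_mul_distrib]
      congr 1
      apply Finset.prod_congr rfl
      intro j _
      rw [hprod j, div_pow]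
      have h4 := hQne j
      push_cast at h4 ⊢
      have h5 : (D - 1) = (D - 1 - (u j : ℕ)) + (u j : ℕ) := by
        have := (u j).isLt
        omega
      conv_lhs => rw [h5, pow_add]
      field_simp
    rcases mul_eq_zero.mp h2 with h3 | h3
    · exfalso
      rw [Finset.prod_eq_zero_iff] at h3
      obtain ⟨j, _, hj⟩ := h3
      exact pow_ne_zero _ (hQne j) hj
    · exact h3

end Pool.Agent.Y913
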