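import Mathlib

/-!
From bounds for disjoint families to bounds for all families.
-/

set_option autoImplicit false

namespace Pool.Agent.Y913

open Finset

/-- `x` and `y` have no common value on `J` -/
def DisjOn {σ : Type} (J : Finset σ) (x y : σ → ℕ) : Prop := ∀ j ∈ J, ∀ j' ∈ J, x j ≠ y j'

theorem cover_aux {σ : Type} [Fintype σ] [DecidableEq σ] (X : Finset (σ → ℕ)) (N : ℕ)
    (h : ∀ J : Finset σ, J.Nonempty → ∀ F ⊆ X, (∀ x ∈ F, ∀ y ∈ F, ∀ j ∉ J, x j = y j) →
      (∀ x ∈ F, ∀ y ∈ F, x ≠ y → DisjOn J x y) → F.card ≤ N) :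
    ∀ (k : ℕ) (J : Finset σ), J.card = k → ∀ Y ⊆ X, (∀ x ∈ Y, ∀ y ∈ Y, ∀ j ∉ J, x j = y j) →
      Y.card ≤ (Fintype.card σ ^ 2 * N) ^ k := by
  classical
  intro k
  induction k with
  | zero =>
    intro J hJ Y _ hag
    rw [Finset.card_eq_zero] at hJ
    subst hJ
    rw [pow_zero, Finset.card_le_one]
    intro x hx y hy
    funext j
    exact hag x hx y hy j (Finset.notMem_empty j)
  | succ k ih =>
    intro J hJ Y hYX hag
    have hJne : J.Nonempty := by
      rw [← Finset.card_pos]
      omega
    -- a maximal disjoint subfamily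
    let P : Finset (Finset (σ → ℕ)) := Y.powerset.filter
      (fun F => ∀ x ∈ F, ∀ y ∈ F, x ≠ y → DisjOn J x y)
    have hPne : P.Nonempty := ⟨∅, by simp [P]⟩
    obtain ⟨F, hF, hmax⟩ := Finset.exists_max_image P (fun F => F.card) hPne
    obtain ⟨hF1, hF2⟩ := Finset.mem_filter.mp hF
    rw [Finset.mem_powerset] at hF1
    have hFN := h J hJne F (hF1.trans hYX)
      (fun x hx y hy => hag x (hF1 hx) y (hF1 hy)) hF2
    have hcov : Y ⊆ (F ×ˢ (J ×ˢ J)).biUnion
        (fun t => Y.filter (fun y => y t.2.1 = t.1 t.2.2)) := by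
      intro y hy
      rw [Finset.mem_biUnion]
      by_cases hyF : y ∈ F
      · obtain ⟨j, hj⟩ := hJne
        exact ⟨(y, (j, j)), Finset.mem_product.mpr ⟨hyF, Finset.mem_product.mpr ⟨hj, hj⟩⟩,
          Finset.mem_filter.mpr ⟨hy, rfl⟩⟩
      · by_contra hcon
        have hdis : ∀ x ∈ F, DisjOn J x y ∧ DisjOn J y x := by
          intro x hx
          constructor
          · intro j hj j' hj' heq
            exact hcon ⟨(x, (j', j)), Finset.mem_product.mpr ⟨hx,
              Finset.mem_product.mpr ⟨hj', hj⟩⟩, Finset.mem_filter.mpr ⟨hy, heq.symm⟩⟩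
          · intro j hj j' hj' heq
            exact hcon ⟨(x, (j, j')), Finset.mem_product.mpr ⟨hx,
              Finset.mem_product.mpr ⟨hj, hj'⟩⟩, Finset.mem_filter.mpr ⟨hy, heq⟩⟩
        have hins : insert y F ∈ P := by
          rw [Finset.mem_filter, Finset.mem_powerset]
          refine ⟨Finset.insert_subset hy hF1, ?_⟩
          intro a ha b hb hab
          rw [Finset.mem_insert] at ha hb
          rcases ha with rfl | ha
          · rcases hb with rfl | hb
            · exact absurd rfl hab
            · exact (hdis b hb).2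
          · rcases hb with rfl | hb
            · exact (hdis a ha).1
            · exact hF2 a ha b hb hab
        have := hmax _ hins
        rw [Finset.card_insert_of_notMem hyF] at this
        omega
    have hJn : J.card ≤ Fintype.card σ := Finset.card_le_univ J
    calc Y.card ≤ ((F ×ˢ (J ×ˢ J)).biUnion
          (fun t => Y.filter (fun y => y t.2.1 = t.1 t.2.2))).card := Finset.card_le_card hcov
      _ ≤ ∑ t ∈ F ×ˢ (J ×ˢ J), (Y.filter (fun y => y t.2.1 = t.1 t.2.2)).card :=
          Finset.card_biUnion_le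
      _ ≤ ∑ _t ∈ F ×ˢ (J ×ˢ J), (Fintype.card σ ^ 2 * N) ^ k := by
          apply Finset.sum_le_sum
          intro t ht
          rw [Finset.mem_product, Finset.mem_product] at ht
          apply ih (J.erase t.2.1) (by rw [Finset.card_erase_of_mem ht.2.1]; omega)
            _ ((Finset.filter_subset _ _).trans hYX)
          intro x hx y hy j hj
          rw [Finset.mem_filter] at hx hy
          by_cases hj1 : j = t.2.1
          · rw [hj1, hx.2, hy.2]
          · apply hag x hx.1 y hy.1 j
            intro hjJ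
            exact hj (Finset.mem_erase.mpr ⟨hj1, hjJ⟩)
      _ = (F.card * (J.card * J.card)) * (Fintype.card σ ^ 2 * N) ^ k := by
          rw [Finset.sum_const, Finset.card_product, Finset.card_product, smul_eq_mul]
      _ ≤ (Fintype.card σ ^ 2 * N) * (Fintype.card σ ^ 2 * N) ^ k := by
          apply Nat.mul_le_mul_right
          calc F.card * (J.card * J.card) ≤ N * (Fintype.card σ * Fintype.card σ) :=
                Nat.mul_le_mul hFN (Nat.mul_le_mul hJn hJn)
            _ = _ := by ring
      _ = _ := (pow_succ' _ _).symm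

/-- **from disjoint families to all families** -/
theorem cover {σ : Type} [Fintype σ] [DecidableEq σ] (X : Finset (σ → ℕ)) (N : ℕ)
    (h : ∀ J : Finset σ, J.Nonempty → ∀ F ⊆ X, (∀ x ∈ F, ∀ y ∈ F, ∀ j ∉ J, x j = y j) →
      (∀ x ∈ F, ∀ y ∈ F, x ≠ y → DisjOn J x y) → F.card ≤ N) :
    X.card ≤ (Fintype.card σ ^ 2 * N) ^ Fintype.card σ :=
  cover_aux X N h _ Finset.univ Finset.card_univ X (Finset.Subset.refl _)
    (fun _ _ _ _ j hj => absurd (Finset.mem_univ j) hj)

end Pool.Agent.Y913
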