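import Pool.Agent.Y913.Params
import Pool.Agent.Y913.Cover

/-!
Counting theorems for tuples of primes satisfying a multiplicative relation with fixed exponents
to high precision, at a finite place and at the infinite place.
-/

set_option autoImplicit false

namespace Pool.Agent.Y913

open Finset

lemma BB_mono {n n' : ℕ} (h : n ≤ n') (w : ℕ) : BB n w ≤ BB n' w := by
  unfold BB
  gcongr

lemma DD_mono {n n' : ℕ} (hn : 1 ≤ n) (h : n ≤ n') (w : ℕ) : DD n w ≤ DD n' w := by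
  unfold DD
  have h1 := BB_pos hn w
  have h2 : BB n w ^ n ≤ BB n w ^ n' := Nat.pow_le_pow_right (by omega) h
  have h3 : BB n w ^ n' ≤ BB n' w ^ n' := Nat.pow_le_pow_left (BB_mono h w) _
  omega

lemma KK_mono {n n' : ℕ} (hn : 1 ≤ n) (h : n ≤ n') (w : ℕ) : KK n w ≤ KK n' w :=
  Nat.mul_le_mul (BB_mono h w) (DD_mono hn h w)

lemma mm_mono {n n' : ℕ} (hn : 1 ≤ n) (h : n ≤ n') (w : ℕ) : mm n w ≤ mm n' w := by
  unfold mm
  apply Nat.add_le_add_right
  apply Nat.mul_le_mul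
  · apply Nat.pow_le_pow_right (by norm_num)
    exact Nat.mul_le_mul (by omega) h
  · calc DD n w ^ n ≤ DD n w ^ n' := Nat.pow_le_pow_right (by have := DD_pos hn w; omega) h
      _ ≤ DD n' w ^ n' := Nat.pow_le_pow_left (DD_mono hn h w) _

/-- **counting theorem at a finite place** -/
theorem count_padic {σ T : Type} [Fintype σ] [DecidableEq σ] [Fintype T]
    (p h Y w M b Φ : ℕ) (hp : p.Prime) (hh : 1 ≤ h) (h2 : p = 2 → 2 ≤ h)
    (hY : 1 ≤ Y) (hw : 1 ≤ w) (hYp : Y ≤ p ^ h)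
    (hM : Φ * p ^ (h * KK (Fintype.card σ) w) ≤ p ^ M)
    (φ : σ → ℤ) (hφ : ∀ j, φ j ≠ 0 ∧ (φ j).natAbs ≤ Φ)
    (X : Finset (σ → ℕ)) (hx : ∀ x ∈ X, ∀ j, (x j).Prime ∧ x j ≤ Y ∧ x j ≠ p)
    (hinj : ∀ x ∈ X, Function.Injective x)
    (κ : (σ → ℕ) → (ZMod (p ^ M))ˣ)
    (hrel : ∀ x ∈ X, ∏ j, (ud (p ^ M) (x j)) ^ φ j = κ x)
    (lab : Finset (σ → ℕ) → T)
    (hlab : ∀ W ⊆ X, ∀ W' ⊆ X, W.card = w → W'.card = w → lab W = lab W' →
      ∏ i ∈ W, κ i = ∏ i ∈ W', κ i)
    (hb : (p ^ h) ^ (Fintype.card σ) * Fintype.card T ≤ b ^ w) :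
    X.card ≤ (Fintype.card σ ^ 2 * (mm (Fintype.card σ) w * (w * (b + 1)))) ^
      Fintype.card σ := by
  classical
  apply cover
  intro J hJ F hFX hag hdis
  obtain ⟨j0, hj0, hmin⟩ := Finset.exists_min_image J (fun j => padicValInt p (φ j)) hJ
  haveI : Fact p.Prime := ⟨hp⟩
  let a0 : {j // j ∈ J} := ⟨j0, hj0⟩
  let e : Option {b : {j // j ∈ J} // b ≠ a0} ≃ {j // j ∈ J} := Equiv.optionSubtypeNe a0
  have hcardJ : Fintype.card {b : {j // j ∈ J} // b ≠ a0} + 1 = J.card := by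
    rw [← Fintype.card_option, Fintype.card_congr e, Fintype.card_coe]
  have hnone : e none = a0 := by simp [e]
  have hJn : J.card ≤ Fintype.card σ := Finset.card_le_univ J
  have hJ1 : 1 ≤ J.card := by omega
  set ν := padicValInt p (φ j0) with hν
  have hν1 : p ^ ν ≤ Φ := by
    have h1 : (p : ℤ) ^ ν ∣ φ j0 := (padicValInt_dvd_iff ν (φ j0)).mpr (Or.inr le_rfl)
    have h3 : p ^ ν ∣ (φ j0).natAbs := by
      rw [← Int.natCast_dvd_natCast]
      push_cast
      rwa [dvd_abs]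
    exact (Nat.le_of_dvd (Int.natAbs_pos.mpr (hφ j0).1) h3).trans (hφ j0).2
  have hνM : ν + h * KK J.card w ≤ M := by
    have h1 : p ^ (ν + h * KK J.card w) ≤ p ^ M := by
      calc p ^ (ν + h * KK J.card w) = p ^ ν * p ^ (h * KK J.card w) := pow_add _ _ _
        _ ≤ Φ * p ^ (h * KK (Fintype.card σ) w) := by
            apply Nat.mul_le_mul hν1
            exact Nat.pow_le_pow_right hp.pos (Nat.mul_le_mul_left _ (KK_mono hJ1 hJn w))
        _ ≤ p ^ M := hM
    exact (Nat.pow_le_pow_iff_right hp.one_lt).mp h1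
  -- the constant contribution of the coordinates outside `J`
  have hconst : ∃ c : (ZMod (p ^ M))ˣ, ∀ x ∈ F, ∏ j ∈ univ \ J, (ud (p ^ M) (x j)) ^ φ j = c := by
    rcases F.eq_empty_or_nonempty with rfl | ⟨y, hy⟩
    · exact ⟨1, by simp⟩
    · refine ⟨∏ j ∈ univ \ J, (ud (p ^ M) (y j)) ^ φ j, ?_⟩
      intro x hx
      apply Finset.prod_congr rfl
      intro j hj
      rw [hag x hx y hy j (Finset.mem_sdiff.mp hj).2]
  obtain ⟨c, hc⟩ := hconst
  have hlt := key_padic' (τ := {b : {j // j ∈ J} // b ≠ a0}) J.card hcardJ.symm p h Y w M ν b hp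
    hh h2 hY hw hYp hνM (fun j => φ (e j).1)
    (by
      intro j
      rw [padicValInt_dvd_iff]
      exact Or.inr (hmin _ (e j).2))
    (by
      rw [hnone]
      rw [padicValInt_dvd_iff]
      rintro (h3 | h3)
      · exact (hφ j0).1 h3
      · change padicValInt p (φ j0) + 1 ≤ padicValInt p (φ j0) at h3
        omega)
    F (fun x j => x (e j).1) (fun x hxF j => (hx x (hFX hxF) _).1)
    (fun x hxF j => (hx x (hFX hxF) _).2.1) (fun x hxF j => (hx x (hFX hxF) _).2.2)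
    (by
      intro x hxF j y hyF j' heq
      by_cases hxy : x = y
      · subst hxy
        have h3 := hinj x (hFX hxF) heq
        exact ⟨rfl, e.injective (Subtype.ext h3)⟩
      · exact absurd heq (hdis x hxF y hyF hxy _ (e j).2 _ (e j').2))
    (fun x => κ x * c⁻¹)
    (by
      intro x hxF
      have h3 : ∏ j, (ud (p ^ M) (x (e j).1)) ^ φ (e j).1 =
          ∏ j ∈ J, (ud (p ^ M) (x j)) ^ φ j := by
        rw [Fintype.prod_equiv e (fun j => (ud (p ^ M) (x (e j).1)) ^ φ (e j).1)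
          (fun j : {j // j ∈ J} => (ud (p ^ M) (x j.1)) ^ φ j.1) (fun _ => rfl)]
        exact (Finset.prod_coe_sort J (fun j => (ud (p ^ M) (x j)) ^ φ j))
      rw [h3, ← hrel x (hFX hxF), ← hc x hxF, eq_mul_inv_iff_mul_eq,
        mul_comm, Finset.prod_sdiff (Finset.subset_univ J)])
    lab
    (by
      intro W hW W' hW' hWc hWc' hl
      rw [Finset.prod_mul_distrib, Finset.prod_mul_distrib, Finset.prod_const,
        Finset.prod_const, hWc, hWc', hlab W (hW.trans hFX) W' (hW'.trans hFX) hWc hWc' hl])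
    (by
      refine le_trans (Nat.mul_le_mul_right _ ?_) hb
      exact Nat.pow_le_pow_right (Nat.pos_of_ne_zero (pow_ne_zero _ hp.ne_zero)) hJn)
  exact hlt.le.trans (Nat.mul_le_mul_right _ (mm_mono hJ1 hJn w))

/-- **counting theorem at the infinite place** -/
theorem count_arch {σ T : Type} [Fintype σ] [DecidableEq σ] [Fintype T]
    (A Y w b : ℕ) (hY : 1 ≤ Y) (hw : 1 ≤ w) (hA2 : 2 ≤ A) (hYA : Y ≤ A)
    (η : ℝ) (hη0 : 0 ≤ η) (hη : η * (A : ℝ) ^ (KK (Fintype.card σ) w) ≤ 1)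
    (φ : σ → ℤ) (hφ : ∀ j, φ j ≠ 0)
    (X : Finset (σ → ℕ)) (hx : ∀ x ∈ X, ∀ j, (x j).Prime ∧ x j ≤ Y)
    (hinj : ∀ x ∈ X, Function.Injective x)
    (κ : (σ → ℕ) → ℝ)
    (hrel : ∀ x ∈ X, |∑ j, (φ j : ℝ) * Real.log (x j) - κ x| ≤ η)
    (lab : Finset (σ → ℕ) → T)
    (hlab : ∀ W ⊆ X, ∀ W' ⊆ X, W.card = w → W'.card = w → lab W = lab W' →
      ∑ i ∈ W, κ i = ∑ i ∈ W', κ i)
    (hb : (4 * Fintype.card σ * w * DD (Fintype.card σ) w * A ^ 2) ^ (Fintype.card σ) *
      Fintype.card T ≤ b ^ w) :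
    X.card ≤ (Fintype.card σ ^ 2 * (mm (Fintype.card σ) w * (w * (b + 1)))) ^
      Fintype.card σ := by
  classical
  apply cover
  intro J hJ F hFX hag hdis
  obtain ⟨j0, hj0, hmax⟩ := Finset.exists_max_image J (fun j => |φ j|) hJ
  let a0 : {j // j ∈ J} := ⟨j0, hj0⟩
  let e : Option {b : {j // j ∈ J} // b ≠ a0} ≃ {j // j ∈ J} := Equiv.optionSubtypeNe a0
  have hcardJ : Fintype.card {b : {j // j ∈ J} // b ≠ a0} + 1 = J.card := by
    rw [← Fintype.card_option, Fintype.card_congr e, Fintype.card_coe]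
  have hnone : e none = a0 := by simp [e]
  have hJn : J.card ≤ Fintype.card σ := Finset.card_le_univ J
  have hJ1 : 1 ≤ J.card := by omega
  have hconst : ∃ c : ℝ, ∀ x ∈ F, ∑ j ∈ univ \ J, (φ j : ℝ) * Real.log (x j) = c := by
    rcases F.eq_empty_or_nonempty with rfl | ⟨y, hy⟩
    · exact ⟨1, by simp⟩
    · refine ⟨∑ j ∈ univ \ J, (φ j : ℝ) * Real.log (y j), ?_⟩
      intro x hx
      apply Finset.sum_congr rfl
      intro j hj
      rw [hag x hx y hy j (Finset.mem_sdiff.mp hj).2]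
  obtain ⟨c, hc⟩ := hconst
  have hlt := key_arch' (τ := {b : {j // j ∈ J} // b ≠ a0}) J.card hcardJ.symm A Y w b hY hw hA2
    hYA η hη0 (by
      refine le_trans ?_ hη
      apply mul_le_mul_of_nonneg_left _ hη0
      exact pow_le_pow_right₀ (by exact_mod_cast (by omega : 1 ≤ A)) (KK_mono hJ1 hJn w))
    (fun j => φ (e j).1) (hφ _)
    (by
      intro j
      rw [hnone]
      exact hmax _ (e j).2)
    F (fun x j => x (e j).1) (fun x hxF j => (hx x (hFX hxF) _).1)
    (fun x hxF j => (hx x (hFX hxF) _).2)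
    (by
      intro x hxF j y hyF j' heq
      by_cases hxy : x = y
      · subst hxy
        have h3 := hinj x (hFX hxF) heq
        exact ⟨rfl, e.injective (Subtype.ext h3)⟩
      · exact absurd heq (hdis x hxF y hyF hxy _ (e j).2 _ (e j').2))
    (fun x => κ x - c)
    (by
      intro x hxF
      have h3 : ∑ j, (φ (e j).1 : ℝ) * Real.log (x (e j).1) =
          ∑ j ∈ J, (φ j : ℝ) * Real.log (x j) := by
        rw [Fintype.sum_equiv e (fun j => (φ (e j).1 : ℝ) * Real.log (x (e j).1))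
          (fun j : {j // j ∈ J} => (φ j.1 : ℝ) * Real.log (x j.1)) (fun _ => rfl)]
        exact (Finset.sum_coe_sort J (fun j => (φ j : ℝ) * Real.log (x j)))
      have h4 := hrel x (hFX hxF)
      rw [← Finset.sum_sdiff (Finset.subset_univ J), hc x hxF] at h4
      rw [h3]
      have h5 : ∑ j ∈ J, (φ j : ℝ) * Real.log (x j) - (κ x - c) =
          c + ∑ j ∈ J, (φ j : ℝ) * Real.log (x j) - κ x := by ring
      rw [h5]
      exact h4)
    lab
    (by
      intro W hW W' hW' hWc hWc' hl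
      rw [Finset.sum_sub_distrib, Finset.sum_sub_distrib, Finset.sum_const,
        Finset.sum_const, hWc, hWc', hlab W (hW.trans hFX) W' (hW'.trans hFX) hWc hWc' hl])
    (by
      refine le_trans (Nat.mul_le_mul_right _ ?_) hb
      have hD1 := DD_pos hJ1 w
      have hApos : 1 ≤ A := by omega
      have h5 : 4 * J.card * w * DD J.card w * A ^ 2 ≤
          4 * Fintype.card σ * w * DD (Fintype.card σ) w * A ^ 2 := by
        have := DD_mono hJ1 hJn w
        gcongr
      refine (Nat.pow_le_pow_left h5 _).trans (Nat.pow_le_pow_right ?_ hJn)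
      have hD2 := DD_pos (hJ1.trans hJn) w
      have : 0 < 4 * Fintype.card σ * w * DD (Fintype.card σ) w * A ^ 2 := by
        have h6 : 0 < Fintype.card σ := by omega
        positivity
      exact this)
  exact hlt.le.trans (Nat.mul_le_mul_right _ (mm_mono hJ1 hJn w))

end Pool.Agent.Y913
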