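import Pool.Agent.Y913.Pairs

/-!
Asymptotic forms of the counting theorems for pairs.
-/

set_option autoImplicit false

namespace Pool.Agent.Y913

open Finset

/-- choice of `w` and `b` -/
theorem exists_b (n : ℕ) (ε : ℝ) (hε : 0 < ε) : ∃ w : ℕ, 1 ≤ w ∧ ∃ C : ℝ, 0 < C ∧
    ∀ A : ℕ, 1 ≤ A → ∃ b : ℕ, (4 * n * w * DD n w * A ^ 2) ^ n ≤ b ^ w ∧
      (((n ^ 2 * (mm n w * (w * (b + 1)))) ^ n : ℕ) : ℝ) ≤ C * (A : ℝ) ^ ε := by
  obtain ⟨w, hw⟩ : ∃ w : ℕ, w = n + 1 + ⌈2 * (n : ℝ) ^ 2 / ε⌉₊ := ⟨_, rfl⟩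
  have hw1 : 1 ≤ w := by omega
  have hwn : n ≤ w := by omega
  have hwε : 2 * (n : ℝ) ^ 2 / w ≤ ε := by
    have h1 : 2 * (n : ℝ) ^ 2 / ε ≤ w := by
      refine (Nat.le_ceil _).trans ?_
      have : ⌈2 * (n : ℝ) ^ 2 / ε⌉₊ ≤ w := by omega
      exact_mod_cast this
    have hw0 : (0 : ℝ) < w := by exact_mod_cast hw1
    rw [div_le_iff₀ hw0]
    rw [div_le_iff₀ hε] at h1
    linarith
  obtain ⟨c1, hc1⟩ : ∃ c1 : ℕ, c1 = 4 * n * w * DD n w + 1 := ⟨_, rfl⟩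
  have hc1' : 1 ≤ c1 := by omega
  refine ⟨w, hw1, ((n : ℝ) ^ 2 * (mm n w * (w * (3 * c1)))) ^ n + 1, by positivity, ?_⟩
  intro A hA
  have hA1 : (1 : ℝ) ≤ A := by exact_mod_cast hA
  have hA0 : (0 : ℝ) < A := by linarith
  have hw0 : (0 : ℝ) < w := by exact_mod_cast hw1
  obtain ⟨y, hy⟩ : ∃ y : ℝ, y = (A : ℝ) ^ (2 * (n : ℝ) / w) := ⟨_, rfl⟩
  have hy1 : 1 ≤ y := by rw [hy]; exact Real.one_le_rpow hA1 (by positivity)
  have hyw : y ^ w = (A : ℝ) ^ (2 * n) := by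
    rw [hy, ← Real.rpow_natCast, ← Real.rpow_mul hA0.le, ← Real.rpow_natCast]
    congr 1
    push_cast
    field_simp
  have hyn : y ^ n ≤ (A : ℝ) ^ ε := by
    rw [hy, ← Real.rpow_natCast, ← Real.rpow_mul hA0.le]
    apply Real.rpow_le_rpow_of_exponent_le hA1
    refine le_trans (le_of_eq ?_) hwε
    ring
  refine ⟨⌈(c1 : ℝ) * y⌉₊, ?_, ?_⟩
  · have h1 : ((4 * n * w * DD n w * A ^ 2 : ℕ) : ℝ) ^ n ≤ (⌈(c1 : ℝ) * y⌉₊ : ℝ) ^ w := by
      have h2 : ((4 * n * w * DD n w : ℕ) : ℝ) ≤ c1 := by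
        rw [hc1]; push_cast; linarith
      have h3 : (1 : ℝ) ≤ c1 := by exact_mod_cast hc1'
      calc ((4 * n * w * DD n w * A ^ 2 : ℕ) : ℝ) ^ n
          = ((4 * n * w * DD n w : ℕ) : ℝ) ^ n * (A : ℝ) ^ (2 * n) := by
            push_cast
            rw [mul_pow, ← pow_mul]
        _ ≤ (c1 : ℝ) ^ n * (A : ℝ) ^ (2 * n) := by gcongr
        _ ≤ (c1 : ℝ) ^ w * (A : ℝ) ^ (2 * n) := by gcongr
        _ = ((c1 : ℝ) * y) ^ w := by rw [mul_pow, hyw]
        _ ≤ (⌈(c1 : ℝ) * y⌉₊ : ℝ) ^ w := by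
            apply pow_le_pow_left₀ (by positivity)
            exact Nat.le_ceil _
    exact_mod_cast h1
  · have h3 : (1 : ℝ) ≤ c1 := by exact_mod_cast hc1'
    have hcy : 1 ≤ (c1 : ℝ) * y := by nlinarith
    have hb : (⌈(c1 : ℝ) * y⌉₊ : ℝ) + 1 ≤ 3 * c1 * y := by
      have := Nat.ceil_lt_add_one (by positivity : (0 : ℝ) ≤ (c1 : ℝ) * y)
      linarith
    push_cast
    calc ((n : ℝ) ^ 2 * (mm n w * (w * ((⌈(c1 : ℝ) * y⌉₊ : ℝ) + 1)))) ^ n
        ≤ ((n : ℝ) ^ 2 * (mm n w * (w * (3 * c1 * y)))) ^ n := by gcongr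
      _ = ((n : ℝ) ^ 2 * (mm n w * (w * (3 * c1)))) ^ n * y ^ n := by
          rw [← mul_pow]
          congr 1
          ring
      _ ≤ ((n : ℝ) ^ 2 * (mm n w * (w * (3 * c1)))) ^ n * (A : ℝ) ^ ε := by gcongr
      _ ≤ (((n : ℝ) ^ 2 * (mm n w * (w * (3 * c1)))) ^ n + 1) * (A : ℝ) ^ ε := by
          have : 0 < (A : ℝ) ^ ε := by positivity
          nlinarith

/-- bound for the logarithmic height -/
lemma lt_two_pow_of_log {m : ℕ} {H : ℝ} (hm : 0 < m) (h : Real.log m ≤ H) :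
    m < 2 ^ (⌊H / Real.log 2⌋₊ + 1) := by
  have hl2 : 0 < Real.log 2 := Real.log_pos (by norm_num)
  have h1 : Real.log m < (⌊H / Real.log 2⌋₊ + 1 : ℝ) * Real.log 2 := by
    have := Nat.lt_floor_add_one (H / Real.log 2)
    rw [div_lt_iff₀ hl2] at this
    linarith
  have h2 : Real.log m < Real.log ((2 : ℝ) ^ (⌊H / Real.log 2⌋₊ + 1)) := by
    rw [Real.log_pow]
    push_cast
    exact h1
  have hm0 : (0 : ℝ) < m := by exact_mod_cast hm
  have h3 := (Real.log_lt_log_iff hm0 (by positivity)).mp h2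
  exact_mod_cast h3

lemma two_E_le {H : ℝ} (hH : 1 ≤ H) : ((2 * ⌊H / Real.log 2⌋₊ + 1 : ℕ) : ℝ) ≤ 4 * H := by
  have hl2 : 0.6931471803 < Real.log 2 := Real.log_two_gt_d9
  have h1 : (⌊H / Real.log 2⌋₊ : ℝ) ≤ H / Real.log 2 := Nat.floor_le (by positivity)
  have h2 : H / Real.log 2 ≤ 3 / 2 * H := by
    rw [div_le_iff₀ (by linarith)]
    nlinarith
  push_cast
  linarith

lemma log_diff {u v : ℕ} (hu : 0 < u) (huv : u < v) {x : ℝ} (hx : x ≤ 1 / 2)
    (h : (v : ℝ) - u ≤ x * v) : |Real.log v - Real.log u| ≤ 2 * x := by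
  have hu0 : (0 : ℝ) < u := by exact_mod_cast hu
  have huv' : (u : ℝ) < v := by exact_mod_cast huv
  have hv0 : (0 : ℝ) < v := by linarith
  have h1 : Real.log u ≤ Real.log v := Real.log_le_log hu0 huv'.le
  rw [abs_of_nonneg (by linarith)]
  have hx0 : 0 ≤ x := by
    by_contra hcon
    push Not at hcon
    nlinarith
  have h2 : Real.log v - Real.log u = -Real.log (u / v) := by
    rw [Real.log_div hu0.ne' hv0.ne']
    ring
  rw [h2]
  have h3 : 1 - x ≤ (u : ℝ) / v := by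
    rw [le_div_iff₀ hv0]
    linarith
  have h4 : 1 - (u / v : ℝ)⁻¹ ≤ Real.log (u / v) := Real.one_sub_inv_le_log_of_pos (by positivity)
  have h5 : (u / v : ℝ)⁻¹ ≤ 1 + 2 * x := by
    rw [inv_le_comm₀ (by positivity) (by positivity)]
    refine le_trans ?_ h3
    rw [inv_le_iff_one_le_mul₀ (by positivity)]
    nlinarith
  linarith

/-- the pairs whose members are close to each other -/
def Near (n : ℕ) (δ K Y H : ℝ) (q : ℕ × ℕ) : Prop :=
  0 < q.1 ∧ q.1 < q.2 ∧ Nat.Coprime q.1 q.2 ∧ (prs q).card ≤ n ∧ (∀ l ∈ prs q, (l : ℝ) ≤ Y) ∧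
    Y ^ K ≤ (q.2 : ℝ) ∧ ((q.2 - q.1 : ℕ) : ℝ) ≤ (q.2 : ℝ) ^ (1 - δ) ∧ Real.log q.2 ≤ H

lemma prs_nonempty {q : ℕ × ℕ} (h0 : 0 < q.1) (h1 : q.1 < q.2) : (prs q).Nonempty := by
  unfold prs
  rw [Nat.nonempty_primeFactors]
  nlinarith

/-- **near pairs, all `n`** -/
theorem near_count (n : ℕ) (δ ε : ℝ) (hδ : 0 < δ) (hε : 0 < ε) : ∃ K C : ℝ, 0 < K ∧ 0 < C ∧
    ∀ Y H : ℝ, 1 ≤ Y → 1 ≤ H → ∀ Q : Finset (ℕ × ℕ), (∀ q ∈ Q, Near n δ K Y H q) →
      (Q.card : ℝ) ≤ C * H ^ n * Y ^ ε := by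
  classical
  choose w hw C hC hb using fun m => exists_b m (ε / 2) (by positivity)
  obtain ⟨K0, hK0⟩ : ∃ K0 : ℕ, K0 = ∑ m ∈ Finset.range (n + 1), KK m (w m) := ⟨_, rfl⟩
  have hKm : ∀ m ≤ n, KK m (w m) ≤ K0 := by
    intro m hm
    rw [hK0]
    exact Finset.single_le_sum (f := fun m => KK m (w m)) (fun _ _ => Nat.zero_le _)
      (Finset.mem_range.mpr (by omega))
  refine ⟨(1 + 2 * K0) / δ, (∑ m ∈ Finset.range (n + 1), C m) * 4 ^ n + 1, by positivity,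
    by have := Finset.sum_nonneg (fun m (_ : m ∈ Finset.range (n + 1)) => (hC m).le); positivity,
    ?_⟩
  intro Y H hY hH Q hQ
  have hCs : 0 ≤ ∑ m ∈ Finset.range (n + 1), C m :=
    Finset.sum_nonneg (fun m _ => (hC m).le)
  rcases lt_or_ge Y 2 with hY2 | hY2
  · -- no primes
    have hQe : Q = ∅ := by
      rw [Finset.eq_empty_iff_forall_notMem]
      intro q hq
      obtain ⟨h1, h2, h3, h4, h5, h6, h7, h8⟩ := hQ q hq
      obtain ⟨l, hl⟩ := prs_nonempty h1 h2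
      have h9 := h5 l hl
      have h10 : 2 ≤ l := (Nat.prime_of_mem_primeFactors hl).two_le
      have h11 : (2 : ℝ) ≤ l := by exact_mod_cast h10
      linarith
    rw [hQe, Finset.card_empty]
    push_cast
    positivity
  obtain ⟨A, hA⟩ : ∃ A : ℕ, A = ⌊Y⌋₊ + 1 := ⟨_, rfl⟩
  have hA2 : 2 ≤ A := by
    have : 1 ≤ ⌊Y⌋₊ := Nat.le_floor (by push_cast; linarith)
    omega
  have hAY : (A : ℝ) ≤ Y ^ 2 := by
    have h1 : (⌊Y⌋₊ : ℝ) ≤ Y := Nat.floor_le (by linarith)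
    rw [hA]; push_cast
    nlinarith
  have hA0 : (0 : ℝ) < A := by exact_mod_cast (by omega : 0 < A)
  obtain ⟨η, hη⟩ : ∃ η : ℝ, η = 2 * (Y ^ (1 + 2 * (K0 : ℝ)))⁻¹ := ⟨_, rfl⟩
  have hY0 : 0 < Y := by linarith
  have hη0 : 0 ≤ η := by rw [hη]; positivity
  have hYK : (2 : ℝ) ≤ Y ^ (1 + 2 * (K0 : ℝ)) := by
    calc (2 : ℝ) ≤ Y := hY2
      _ = Y ^ (1 : ℝ) := (Real.rpow_one Y).symm
      _ ≤ _ := Real.rpow_le_rpow_of_exponent_le hY (by
        have : (0 : ℝ) ≤ K0 := Nat.cast_nonneg _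
        linarith)
  have hηA : ∀ m ≤ n, η * (A : ℝ) ^ KK m (w m) ≤ 1 := by
    intro m hm
    have h1 : (A : ℝ) ^ KK m (w m) ≤ Y ^ (2 * (K0 : ℝ)) := by
      calc (A : ℝ) ^ KK m (w m) ≤ (A : ℝ) ^ K0 :=
            pow_le_pow_right₀ (by exact_mod_cast (by omega : 1 ≤ A)) (hKm m hm)
        _ ≤ (Y ^ 2) ^ K0 := pow_le_pow_left₀ hA0.le hAY _
        _ = Y ^ (2 * (K0 : ℝ)) := by
            rw [← pow_mul, ← Real.rpow_natCast]
            push_cast
            rfl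
    rw [hη, mul_assoc, mul_comm, mul_assoc, Real.rpow_add hY0, Real.rpow_one, mul_inv]
    have h2 : 0 < Y ^ (2 * (K0 : ℝ)) := by positivity
    calc Y⁻¹ * (Y ^ (2 * (K0 : ℝ)))⁻¹ * ((A : ℝ) ^ KK m (w m) * 2)
        ≤ Y⁻¹ * (Y ^ (2 * (K0 : ℝ)))⁻¹ * (Y ^ (2 * (K0 : ℝ)) * 2) := by gcongr
      _ = Y⁻¹ * 2 := by field_simp
      _ ≤ 1 := by
          rw [inv_mul_le_iff₀ hY0]
          linarith
  obtain ⟨E, hE⟩ : ∃ E : ℕ, E = ⌊H / Real.log 2⌋₊ := ⟨_, rfl⟩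
  -- split according to the number of primes
  have hmaps : Set.MapsTo (fun q => (prs q).card) (Q : Set (ℕ × ℕ))
      (Finset.range (n + 1) : Set ℕ) := by
    intro q hq
    rw [Finset.mem_coe, Finset.mem_range]
    have := (hQ q hq).2.2.2.1
    show (prs q).card < n + 1
    omega
  have hsum := Finset.card_eq_sum_card_fiberwise hmaps
  have hm : ∀ m ∈ Finset.range (n + 1), ((Q.filter (fun q => (prs q).card = m)).card : ℝ) ≤
      C m * (4 ^ n * H ^ n * Y ^ ε) := by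
    intro m hm
    rw [Finset.mem_range] at hm
    obtain ⟨b, hb1, hb2⟩ := hb m A (by omega)
    have key := pairs_arch (n := m) (E := E) (A := A) (Y := A) (w := w m) (b := b) (by omega)
      (hw m) hA2 le_rfl η hη0 (hηA m (by omega)) hb1
      (Q.filter (fun q => (prs q).card = m))
      (by
        intro q hq
        rw [Finset.mem_filter] at hq
        obtain ⟨h1, h2, h3, h4, h5, h6, h7, h8⟩ := hQ q hq.1
        exact ⟨h1, by omega, h3, hq.2⟩)
      (by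
        intro q hq
        rw [Finset.mem_filter] at hq
        obtain ⟨h1, h2, h3, h4, h5, h6, h7, h8⟩ := hQ q hq.1
        have h9 := lt_two_pow_of_log (by omega : 0 < q.2) h8
        rw [← hE] at h9
        exact ⟨h2.trans h9, h9⟩)
      (by
        intro q hq l hl
        rw [Finset.mem_filter] at hq
        obtain ⟨h1, h2, h3, h4, h5, h6, h7, h8⟩ := hQ q hq.1
        have h9 : l ≤ ⌊Y⌋₊ := Nat.le_floor (h5 l hl)
        omega)
      (by
        intro q hq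
        rw [Finset.mem_filter] at hq
        obtain ⟨h1, h2, h3, h4, h5, h6, h7, h8⟩ := hQ q hq.1
        rw [hη]
        apply log_diff h1 h2
        · rw [inv_le_comm₀ (by positivity) (by norm_num)]
          rw [one_div, inv_inv]
          exact hYK
        · rw [Nat.cast_sub h2.le] at h7
          have hq0 : (0 : ℝ) < q.2 := by
            have : 0 < q.2 := by omega
            exact_mod_cast this
          have h9 : Y ^ (1 + 2 * (K0 : ℝ)) ≤ (q.2 : ℝ) ^ δ := by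
            calc Y ^ (1 + 2 * (K0 : ℝ)) = (Y ^ ((1 + 2 * (K0 : ℝ)) / δ)) ^ δ := by
                  rw [← Real.rpow_mul hY0.le]
                  congr 1
                  field_simp
              _ ≤ (q.2 : ℝ) ^ δ := Real.rpow_le_rpow (by positivity) h6 hδ.le
          refine h7.trans ?_
          rw [Real.rpow_sub hq0, Real.rpow_one, div_eq_inv_mul]
          apply mul_le_mul_of_nonneg_right _ hq0.le
          exact inv_anti₀ (by positivity) h9)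
    have h4H : ((2 * E + 1 : ℕ) : ℝ) ≤ 4 * H := by rw [hE]; exact two_E_le hH
    have h1 : ((Q.filter (fun q => (prs q).card = m)).card : ℝ) ≤
        ((2 * E + 1 : ℕ) : ℝ) ^ m * (((m ^ 2 * (mm m (w m) * (w m * (b + 1)))) ^ m : ℕ) : ℝ) := by
      exact_mod_cast key
    calc ((Q.filter (fun q => (prs q).card = m)).card : ℝ)
        ≤ ((2 * E + 1 : ℕ) : ℝ) ^ m *
          (((m ^ 2 * (mm m (w m) * (w m * (b + 1)))) ^ m : ℕ) : ℝ) := h1
      _ ≤ (4 * H) ^ n * (C m * (A : ℝ) ^ (ε / 2)) := by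
          apply mul_le_mul _ hb2 (Nat.cast_nonneg _) (by positivity)
          calc ((2 * E + 1 : ℕ) : ℝ) ^ m ≤ (4 * H) ^ m := by gcongr
            _ ≤ (4 * H) ^ n := pow_le_pow_right₀ (by linarith) (by omega)
      _ ≤ (4 * H) ^ n * (C m * Y ^ ε) := by
          have h2 : (A : ℝ) ^ (ε / 2) ≤ Y ^ ε := by
            calc (A : ℝ) ^ (ε / 2) ≤ (Y ^ 2) ^ (ε / 2) :=
                  Real.rpow_le_rpow hA0.le hAY (by positivity)
              _ = Y ^ ε := by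
                  rw [← Real.rpow_natCast, ← Real.rpow_mul hY0.le]
                  congr 1
                  push_cast
                  ring
          have h3 := (hC m).le
          gcongr
      _ = C m * (4 ^ n * H ^ n * Y ^ ε) := by rw [mul_pow]; ring
  have hfin : (Q.card : ℝ) ≤ ∑ m ∈ Finset.range (n + 1), C m * (4 ^ n * H ^ n * Y ^ ε) := by
    rw [hsum]
    push_cast
    exact Finset.sum_le_sum hm
  refine hfin.trans ?_
  rw [← Finset.sum_mul]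
  have h5 : 0 < H ^ n * Y ^ ε := by positivity
  calc (∑ m ∈ Finset.range (n + 1), C m) * (4 ^ n * H ^ n * Y ^ ε)
      = ((∑ m ∈ Finset.range (n + 1), C m) * 4 ^ n) * (H ^ n * Y ^ ε) := by ring
    _ ≤ ((∑ m ∈ Finset.range (n + 1), C m) * 4 ^ n + 1) * (H ^ n * Y ^ ε) := by
        apply mul_le_mul_of_nonneg_right _ h5.le
        linarith
    _ = _ := by ring

end Pool.Agent.Y913
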