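import Pool.Agent.Y913.Bk.Weak
import Pool.Agent.Y913.Real
import Pool.Agent.TH888.W2.Weak2

/-!
Height bounds for pairs with few primes whose difference is small, or whose sum or difference is
divisible by a large power of a small prime (from the weak lower bounds for linear forms in
logarithms).
-/

set_option autoImplicit false

namespace Pool.Agent.Y913

open Finset

lemma log_pow_le (κ : ℕ) (c : ℝ) (hc : 0 < c) : ∃ D : ℝ, 0 < D ∧ ∀ G : ℝ, 0 ≤ G →
    (2 * Real.log (1 + G)) ^ κ ≤ D + c / 2 * G := by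
  obtain ⟨B, hB⟩ : ∃ B : ℝ, B = 4 ^ κ * (κ.factorial : ℝ) := ⟨_, rfl⟩
  have hB0 : 0 < B := by rw [hB]; positivity
  refine ⟨c / 2 + B ^ 2 / (2 * c), by positivity, ?_⟩
  intro G hG
  have hl : 0 ≤ Real.log (1 + G) := Real.log_nonneg (by linarith)
  obtain ⟨s, hs⟩ : ∃ s : ℝ, s = Real.exp (Real.log (1 + G) / 2) := ⟨_, rfl⟩
  have hs2 : s ^ 2 = 1 + G := by
    rw [hs, ← Real.exp_nat_mul]
    push_cast
    rw [mul_div_cancel₀ _ (by norm_num : (2 : ℝ) ≠ 0), Real.exp_log (by linarith)]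
  have hs0 : 0 < s := by rw [hs]; exact Real.exp_pos _
  have h1 : (2 * Real.log (1 + G)) ^ κ ≤ B * s := by
    have h2 := Bk.pow_div_factorial_le (Real.log (1 + G) / 2) (by positivity) κ
    rw [← hs, div_le_iff₀ (by positivity)] at h2
    have h3 : (2 * Real.log (1 + G)) ^ κ = 4 ^ κ * (Real.log (1 + G) / 2) ^ κ := by
      rw [← mul_pow]
      congr 1
      ring
    rw [h3, hB]
    calc (4 : ℝ) ^ κ * (Real.log (1 + G) / 2) ^ κ ≤ 4 ^ κ * (s * (κ.factorial : ℝ)) := by gcongr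
      _ = _ := by ring
  refine h1.trans ?_
  have h4 : 0 ≤ (c * s - B) ^ 2 / (2 * c) := by positivity
  have h5 : (c * s - B) ^ 2 / (2 * c) = c / 2 * s ^ 2 - B * s + B ^ 2 / (2 * c) := by
    field_simp
    ring
  rw [h5, hs2] at h4
  linarith

/-- solving for the height -/
lemma solve_height (κ : ℕ) (c : ℝ) (hc : 0 < c) : ∃ C : ℝ, 0 < C ∧ ∀ T G : ℝ, 1 ≤ T → 0 ≤ G →
    c * G ≤ (T + Real.log (1 + G)) ^ κ → G ≤ C * T ^ κ := by
  obtain ⟨D, hD, hDG⟩ := log_pow_le κ c hc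
  refine ⟨2 / c * (2 ^ κ + D), by positivity, ?_⟩
  intro T G hT hG h
  have hl : 0 ≤ Real.log (1 + G) := Real.log_nonneg (by linarith)
  have h1 : (T + Real.log (1 + G)) ^ κ ≤ (2 * T) ^ κ + (2 * Real.log (1 + G)) ^ κ := by
    rcases le_total T (Real.log (1 + G)) with h2 | h2
    · have : (T + Real.log (1 + G)) ^ κ ≤ (2 * Real.log (1 + G)) ^ κ :=
        pow_le_pow_left₀ (by linarith) (by linarith) _
      have h3 : 0 ≤ (2 * T) ^ κ := by positivity
      linarith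
    · have : (T + Real.log (1 + G)) ^ κ ≤ (2 * T) ^ κ :=
        pow_le_pow_left₀ (by linarith) (by linarith) _
      have h3 : 0 ≤ (2 * Real.log (1 + G)) ^ κ := by positivity
      linarith
  have h2 := hDG G hG
  have hTk : 1 ≤ T ^ κ := one_le_pow₀ hT
  have h3 : c / 2 * G ≤ (2 ^ κ + D) * T ^ κ := by
    rw [mul_pow] at h1
    nlinarith
  calc G = 2 / c * (c / 2 * G) := by field_simp
    _ ≤ 2 / c * ((2 ^ κ + D) * T ^ κ) := by gcongr
    _ = _ := by ring

/-- powers of the logarithm -/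
lemma log_pow_le_rpow (κ : ℕ) (η : ℝ) (hη : 0 < η) : ∃ C : ℝ, 0 < C ∧ ∀ Y : ℝ, 1 ≤ Y →
    (1 + Real.log Y) ^ κ ≤ C * Y ^ η := by
  rcases Nat.eq_zero_or_pos κ with rfl | hκ
  · refine ⟨1, one_pos, fun Y hY => ?_⟩
    rw [pow_zero, one_mul]
    exact Real.one_le_rpow hY hη.le
  obtain ⟨θ, hθ⟩ : ∃ θ : ℝ, θ = η / κ := ⟨_, rfl⟩
  have hκ0 : (0 : ℝ) < κ := by exact_mod_cast hκ
  have hθ0 : 0 < θ := by rw [hθ]; positivity
  refine ⟨(1 + 1 / θ) ^ κ, by positivity, fun Y hY => ?_⟩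
  have hY0 : 0 < Y := by linarith
  have h1 : Real.log Y ≤ Y ^ θ / θ := Real.log_le_rpow_div hY0.le hθ0
  have h2 : 1 ≤ Y ^ θ := Real.one_le_rpow hY hθ0.le
  have h3 : 1 + Real.log Y ≤ (1 + 1 / θ) * Y ^ θ := by
    have : Y ^ θ / θ = 1 / θ * Y ^ θ := by ring
    rw [this] at h1
    linarith
  have hl : 0 ≤ Real.log Y := Real.log_nonneg hY
  calc (1 + Real.log Y) ^ κ ≤ ((1 + 1 / θ) * Y ^ θ) ^ κ := pow_le_pow_left₀ (by linarith) h3 _
    _ = (1 + 1 / θ) ^ κ * Y ^ η := by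
        rw [mul_pow, ← Real.rpow_natCast (Y ^ θ), ← Real.rpow_mul hY0.le]
        congr 2
        rw [hθ]
        field_simp

lemma log_two_mul_clog (t : ℝ) (ht : 1 ≤ t) : ∃ g : ℕ, t ≤ 2 ^ g ∧ (g : ℝ) ≤ 2 * Real.log t + 1 := by
  refine ⟨⌈Real.log t / Real.log 2⌉₊, ?_, ?_⟩
  · have hl2 : 0 < Real.log 2 := Real.log_pos (by norm_num)
    have h1 : Real.log t ≤ ⌈Real.log t / Real.log 2⌉₊ * Real.log 2 := by
      have := Nat.le_ceil (Real.log t / Real.log 2)
      rwa [div_le_iff₀ hl2] at this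
    have h2 : Real.log t ≤ Real.log ((2 : ℝ) ^ ⌈Real.log t / Real.log 2⌉₊) := by
      rw [Real.log_pow]; exact h1
    exact (Real.log_le_log_iff (by linarith) (by positivity)).mp h2
  · have hl2 : 0.6931471803 < Real.log 2 := Real.log_two_gt_d9
    have hl : 0 ≤ Real.log t := Real.log_nonneg ht
    have h1 := Nat.ceil_lt_add_one (by positivity : 0 ≤ Real.log t / Real.log 2)
    have h2 : Real.log t / Real.log 2 ≤ 2 * Real.log t := by
      rw [div_le_iff₀ (by linarith)]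
      nlinarith
    linarith

/-- distinct primes are multiplicatively independent -/
lemma prime_indep {n : ℕ} (x : Fin n → ℕ) (hx : ∀ j, (x j).Prime) (hinj : Function.Injective x)
    (s : Fin n → ℤ) (hs : ∏ j, ((x j : ℝ) / ((1 : ℕ) : ℝ)) ^ (s j) = 1) : s = 0 := by
  have h0 : ∀ j, (x j : ℝ) ≠ 0 := fun j => by exact_mod_cast (hx j).ne_zero
  have h1 : (∏ j, (x j : ℝ) ^ ((s j).toNat)) = ∏ j, (x j : ℝ) ^ ((-s j).toNat) := by
    have h2 : ∏ j, ((x j : ℝ) / ((1 : ℕ) : ℝ)) ^ (s j) =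
        (∏ j, (x j : ℝ) ^ ((s j).toNat)) / ∏ j, (x j : ℝ) ^ ((-s j).toNat) := by
      rw [← Finset.prod_div_distrib]
      apply Finset.prod_congr rfl
      intro j _
      rw [Nat.cast_one, div_one, ← zpow_natCast, ← zpow_natCast, ← zpow_sub₀ (h0 j)]
      congr 1
      omega
    rw [h2, div_eq_one_iff_eq] at hs
    · exact hs
    · exact Finset.prod_ne_zero_iff.mpr (fun j _ => pow_ne_zero _ (h0 j))
  have h2 : (∏ j, (x j) ^ ((s j).toNat)) = ∏ j, (x j) ^ ((-s j).toNat) := by exact_mod_cast h1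
  funext j0
  have hfac : ∀ f : Fin n → ℕ, (∏ j, (x j) ^ (f j)).factorization (x j0) = f j0 := by
    intro f
    rw [Nat.factorization_prod_apply (fun j _ => pow_ne_zero _ (hx j).ne_zero),
      Finset.sum_eq_single j0]
    · rw [(hx j0).factorization_pow, Finsupp.single_eq_same]
    · intro j _ hj
      rw [(hx j).factorization_pow, Finsupp.single_apply, if_neg]
      intro h
      exact hj (hinj h)
    · intro h; exact absurd (Finset.mem_univ j0) h
  have h3 := congrArg (fun m => m.factorization (x j0)) h2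
  simp only [hfac] at h3
  show s j0 = 0
  omega

/-- **height bound, infinite place** -/
theorem arch_height (n : ℕ) (δ : ℝ) (hδ : 0 < δ) : ∃ C : ℝ, ∃ κ : ℕ, 0 < C ∧
    ∀ Y : ℝ, 1 ≤ Y → ∀ q : ℕ × ℕ, 0 < q.1 → q.1 < q.2 → Nat.Coprime q.1 q.2 → (prs q).card = n →
      (∀ l ∈ prs q, (l : ℝ) ≤ Y) → ((q.2 - q.1 : ℕ) : ℝ) ≤ (q.2 : ℝ) ^ (1 - δ) →
      Real.log q.2 ≤ C * (1 + Real.log Y) ^ κ := by
  obtain ⟨κ, g0, hWB⟩ := Bk.WB_all n
  -- constants
  obtain ⟨c1, hc1⟩ : ∃ c1 : ℝ, c1 = (g0 : ℝ) + 8 := ⟨_, rfl⟩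
  have hc1pos : 0 < c1 := by rw [hc1]; positivity
  obtain ⟨C, hC, hsolve⟩ := solve_height κ (δ / (2 * c1 ^ κ)) (by positivity)
  refine ⟨C + 2 / δ * 2, κ, by positivity, ?_⟩
  intro Y hY q h0 h1 hcop hcard hYl hnear
  have hq : Good n q := ⟨h0, h0.trans h1, hcop, hcard⟩
  have hq2 : (1 : ℝ) < q.2 := by exact_mod_cast (by omega : 1 < q.2)
  have hq20 : (0 : ℝ) < q.2 := by linarith
  obtain ⟨G, hG⟩ : ∃ G : ℝ, G = Real.log q.2 := ⟨_, rfl⟩
  have hG0 : 0 < G := by rw [hG]; exact Real.log_pos hq2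
  have hlY : 0 ≤ Real.log Y := Real.log_nonneg hY
  have hTk : 1 ≤ (1 + Real.log Y) ^ κ := one_le_pow₀ (by linarith)
  rw [← hG]
  by_cases hsmall : G ≤ 2 / δ * 2
  · have : 0 ≤ C * (1 + Real.log Y) ^ κ := by positivity
    have h3 : 0 < 2 / δ * 2 := by positivity
    nlinarith
  rw [not_le] at hsmall
  -- the linear form is small
  have hx : Real.exp (-(δ * G)) ≤ 1 / 2 := by
    have h2 : 2 * 2 < δ * G := by
      have := mul_lt_mul_of_pos_left hsmall hδ
      have e : δ * (2 / δ * 2) = 2 * 2 := by field_simp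
      linarith
    have h3 : Real.exp (-(δ * G)) ≤ Real.exp (-1) := Real.exp_le_exp.mpr (by linarith)
    have h4 : Real.exp (-1) ≤ 1 / 2 := by
      rw [Real.exp_neg, one_div]
      apply inv_anti₀ (by norm_num)
      have := Real.add_one_le_exp (1 : ℝ)
      linarith
    linarith
  have hrp : (q.2 : ℝ) ^ (1 - δ) = Real.exp (-(δ * G)) * q.2 := by
    have : (1 - δ) = -δ + 1 := by ring
    rw [this, Real.rpow_add hq20, Real.rpow_one, Real.rpow_def_of_pos hq20, ← hG]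
    congr 2
    ring
  have hlog := log_diff h0 h1 hx (by
    rw [← hrp]
    rwa [Nat.cast_sub h1.le] at hnear)
  have hLam : Bk.Lam (enc n q) (fun _ => 1) (expo n q) = Real.log q.2 - Real.log q.1 := by
    rw [← log_rel hq]
    unfold Bk.Lam
    apply Finset.sum_congr rfl
    intro j _
    simp
  -- choice of g
  obtain ⟨g1, hg1, hg1'⟩ := log_two_mul_clog Y hY
  obtain ⟨g2, hg2, hg2'⟩ := log_two_mul_clog (1 + G) (by linarith)
  obtain ⟨g, hg⟩ : ∃ g, g = g0 + g1 + g2 + 2 := ⟨_, rfl⟩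
  have h2g : ∀ a : ℕ, a ≤ g → (2 : ℝ) ^ a ≤ 2 ^ g := fun a ha =>
    pow_le_pow_right₀ (by norm_num) ha
  have hmain := hWB g (by omega) (enc n q) (fun _ => 1) (expo n q)
    (by
      intro j
      have hm := enc_mem hcard j
      refine ⟨(Nat.prime_of_mem_primeFactors hm).one_lt.le, ?_⟩
      have h3 := (hYl _ hm).trans (hg1.trans (h2g g1 (by omega)))
      exact_mod_cast h3)
    (fun _ => ⟨le_rfl, Nat.one_le_two_pow⟩)
    (by
      intro j
      have hE1 : q.1 < 2 ^ (⌊G / Real.log 2⌋₊ + 1) := lt_two_pow_of_log h0 (by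
        rw [hG]
        exact Real.log_le_log (by exact_mod_cast h0) (by exact_mod_cast h1.le))
      have hE2 : q.2 < 2 ^ (⌊G / Real.log 2⌋₊ + 1) := lt_two_pow_of_log (h0.trans h1) hG.ge
      have h3 := natAbs_expo_le hq hE1 hE2 j
      have h4 : (⌊G / Real.log 2⌋₊ : ℝ) ≤ 2 ^ g := by
        have hl2 : 0.6931471803 < Real.log 2 := Real.log_two_gt_d9
        calc (⌊G / Real.log 2⌋₊ : ℝ) ≤ G / Real.log 2 := Nat.floor_le (by positivity)
          _ ≤ 2 * (1 + G) := by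
              rw [div_le_iff₀ (by linarith)]
              nlinarith
          _ ≤ 2 ^ 1 * 2 ^ g2 := by rw [pow_one]; linarith
          _ = 2 ^ (1 + g2) := by rw [← pow_add]
          _ ≤ 2 ^ g := h2g _ (by omega)
      have h5 : ⌊G / Real.log 2⌋₊ ≤ 2 ^ g := by exact_mod_cast h4
      have h6 : (((expo n q j).natAbs : ℕ) : ℤ) ≤ ((2 ^ g : ℕ) : ℤ) := by
        exact_mod_cast h3.trans h5
      rw [Int.natCast_natAbs] at h6
      push_cast at h6
      exact h6)
    (by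
      intro h
      have hn : n ≠ 0 := by
        rintro rfl
        have h3 := Finset.card_eq_zero.mp hcard
        have h4 := prs_nonempty h0 h1
        rw [h3] at h4
        exact Finset.not_nonempty_empty h4
      have h3 := expo_ne_zero hq ⟨0, Nat.pos_of_ne_zero hn⟩
      rw [h] at h3
      exact h3 rfl)
    (fun s hs => prime_indep (enc n q) (fun j => Nat.prime_of_mem_primeFactors (enc_mem hcard j))
      (enc_inj hcard) s hs)
  rw [hLam] at hmain
  have h3 : (1 / 2 : ℝ) ^ (g ^ κ) ≤ 2 * Real.exp (-(δ * G)) := hmain.trans hlog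
  -- take logarithms
  have h4 : δ * G ≤ (g : ℝ) ^ κ + 1 := by
    have h5 := Real.log_le_log (by positivity) h3
    rw [Real.log_pow, Real.log_mul (by norm_num) (Real.exp_pos _).ne', Real.log_exp,
      one_div, Real.log_inv] at h5
    push_cast at h5
    have hl2 : Real.log 2 ≤ 1 := by
      have := Real.log_two_lt_d9
      linarith
    have hl2' : 0 ≤ Real.log 2 := Real.log_nonneg (by norm_num)
    have h6 : (0 : ℝ) ≤ (g : ℝ) ^ κ := by positivity
    nlinarith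
  have h5 : δ / 2 * G ≤ (g : ℝ) ^ κ := by
    have h6 : 1 ≤ δ / 2 * G := by
      have := mul_lt_mul_of_pos_left hsmall (by positivity : 0 < δ / 2)
      have e : δ / 2 * (2 / δ * 2) = 2 := by field_simp
      linarith
    linarith
  have h6 : (g : ℝ) ≤ c1 * ((1 + Real.log Y) + Real.log (1 + G)) := by
    have hlG : 0 ≤ Real.log (1 + G) := Real.log_nonneg (by linarith)
    rw [hg, hc1]
    push_cast
    have hg0 : (0 : ℝ) ≤ g0 := Nat.cast_nonneg _
    nlinarith [mul_nonneg hg0 hlY, mul_nonneg hg0 hlG]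
  have h7 : δ / (2 * c1 ^ κ) * G ≤ ((1 + Real.log Y) + Real.log (1 + G)) ^ κ := by
    have h8 : (g : ℝ) ^ κ ≤ c1 ^ κ * ((1 + Real.log Y) + Real.log (1 + G)) ^ κ := by
      rw [← mul_pow]
      exact pow_le_pow_left₀ (Nat.cast_nonneg _) h6 _
    have h9 : δ / (2 * c1 ^ κ) * G = (δ / 2 * G) / c1 ^ κ := by
      field_simp
    rw [h9, div_le_iff₀ (by positivity)]
    linarith
  have h8 := hsolve (1 + Real.log Y) G (by linarith) hG0.le h7
  have h9 : 0 ≤ 2 / δ * 2 * (1 + Real.log Y) ^ κ := by positivity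
  linarith

end Pool.Agent.Y913
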