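import Pool.Agent.Y913.Arch
import Pool.Agent.Y913.Blocks

/-!
The key lemma, archimedean form.
-/

set_option autoImplicit false

namespace Pool.Agent.Y913

open Finset

lemma log_PP {ι σ : Type} {x : ι → σ → ℕ} {S : Finset ι}
    (hx : ∀ i ∈ S, ∀ j, (x i j).Prime) {W : Finset ι} (hW : W ⊆ S) (j : σ) :
    Real.log (PP x W j) = ∑ i ∈ W, Real.log (x i j) := by
  unfold PP
  push_cast
  rw [Real.log_prod]
  intro i hi
  have := (hx i (hW hi) j).ne_zero
  exact_mod_cast this

/-- **Key Lemma, archimedean form** -/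
theorem key_arch {ι τ T : Type} [Fintype τ] [DecidableEq τ] [Fintype T]
    (d0 D H N Y w R N0 : ℕ) (hd0 : 1 ≤ d0) (hD : 1 ≤ D) (hN : 1 ≤ N) (hY : 1 ≤ Y) (hR : 1 ≤ R)
    (hpig : (2 * (D ^ (Fintype.card τ + 1) * H * N) + 1) ^ (d0 ^ Fintype.card τ) <
      (H + 1) ^ (D ^ (Fintype.card τ + 1)))
    (A η : ℝ) (hA : 1 ≤ A) (hη0 : 0 ≤ η)
    (hδ : 2 * D * ((Fintype.card τ + 1) * (2 * w * η)) ≤ 1)
    (hs : ((Fintype.card τ + 1) * (1 / (R : ℝ))) * (2 * D * A) ≤ 1)
    (hsize : ((D ^ (Fintype.card τ + 1) : ℕ) * (H * (3 ^ Fintype.card τ *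
        (2 * D * ((Fintype.card τ + 1) * (2 * w * η)) + 2 * Fintype.card τ * (1 / A) ^ d0))) +
      (d0 ^ Fintype.card τ : ℕ) * (1 / N)) *
      (((((Y ^ w : ℕ) : ℝ) ^ (Fintype.card τ + 1)) ^ (D - 1)) ^ (Fintype.card τ + 1)) < 1)
    (φ : Option τ → ℤ) (hφ0 : φ none ≠ 0) (hφ : ∀ j, |φ j| ≤ |φ none|)
    (S : Finset ι) (x : ι → Option τ → ℕ) (hx : ∀ i ∈ S, ∀ j, (x i j).Prime)
    (hxY : ∀ i ∈ S, ∀ j, x i j ≤ Y)
    (hinj : ∀ i ∈ S, ∀ j, ∀ i' ∈ S, ∀ j', x i j = x i' j' → i = i' ∧ j = j')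
    (κ : ι → ℝ)
    (hrel : ∀ i ∈ S, |∑ j, (φ j : ℝ) * Real.log (x i j) - κ i| ≤ η)
    (lab : Finset ι → T)
    (hlab : ∀ W ⊆ S, ∀ W' ⊆ S, W.card = w → W'.card = w → lab W = lab W' →
      ∑ i ∈ W, κ i = ∑ i ∈ W', κ i)
    (hN0 : (w * Y * R + 1) ^ (Fintype.card τ + 1) * Fintype.card T < N0.choose w) :
    S.card < (2 ^ ((Fintype.card τ + 1 + 1) * (Fintype.card τ + 1)) *
      D ^ (Fintype.card τ + 1) + 1) * N0 := by
  classical
  by_contra hcon
  rw [not_lt] at hcon
  set m1 := 2 ^ ((Fintype.card τ + 1 + 1) * (Fintype.card τ + 1)) *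
      D ^ (Fintype.card τ + 1) + 1 with hm1
  have hcard : Fintype.card (Option τ) = Fintype.card τ + 1 := Fintype.card_option
  have hRpos : (0 : ℝ) < R := by exact_mod_cast hR
  have hlogb : ∀ V ⊆ S, V.card = w → ∀ j, 0 ≤ Real.log (PP x V j) * R ∧
      Real.log (PP x V j) * R ≤ w * Y * R := by
    intro V hV hVc j
    have h1 : 1 ≤ PP x V j := Nat.pos_of_ne_zero (PP_ne_zero hx hV j)
    have h2 : PP x V j ≤ Y ^ w := by
      have := PP_le hxY hV j
      rwa [hVc] at this
    have h3 : 0 ≤ Real.log (PP x V j) := Real.log_nonneg (by exact_mod_cast h1)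
    have h4 : Real.log (PP x V j) ≤ w * Y := by
      calc Real.log (PP x V j) ≤ Real.log ((Y : ℝ) ^ w) :=
            Real.log_le_log (by exact_mod_cast h1) (by exact_mod_cast h2)
        _ = w * Real.log Y := by rw [Real.log_pow]
        _ ≤ w * Y := by
            apply mul_le_mul_of_nonneg_left _ (Nat.cast_nonneg _)
            have h5 : (1 : ℝ) ≤ Y := by exact_mod_cast hY
            have := Real.log_le_sub_one_of_pos (by linarith : (0 : ℝ) < Y)
            linarith
    exact ⟨mul_nonneg h3 hRpos.le, mul_le_mul_of_nonneg_right h4 hRpos.le⟩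
  obtain ⟨W, W', hW, hdisj⟩ := exists_blocks S m1 N0 w hcon
    (fun V => ((fun j : Option τ => ⌊Real.log (PP x V j) * R⌋₊), lab V))
    ((Fintype.piFinset (fun _ : Option τ => Finset.range (w * Y * R + 1))) ×ˢ
      (Finset.univ : Finset T)) (by
      intro V hV hVc
      rw [Finset.mem_product]
      refine ⟨?_, Finset.mem_univ _⟩
      rw [Fintype.mem_piFinset]
      intro j
      rw [Finset.mem_range, Nat.lt_succ_iff]
      apply Nat.floor_le_of_le
      push_cast
      exact (hlogb V hV hVc j).2) (by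
      rw [Finset.card_product, Fintype.card_piFinset, Finset.prod_const, Finset.card_univ,
        Finset.card_univ, Finset.card_range, hcard]
      exact hN0)
  obtain ⟨ℓ, hℓ1, hℓ2⟩ := indep_blocks hx hinj W W'
    (fun t => ⟨(hW t).1, (hW t).2.1, (hW t).2.2.1, (hW t).2.2.2.1, (hW t).2.2.2.2.1⟩) hdisj
  have hφr : (0 : ℝ) < |(φ none : ℝ)| := by
    rw [abs_pos]
    exact_mod_cast hφ0
  have hφ1 : (1 : ℝ) ≤ |(φ none : ℝ)| := by
    rw [← Int.cast_abs]
    exact_mod_cast Int.one_le_abs hφ0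
  have hφne : (φ none : ℝ) ≠ 0 := by exact_mod_cast hφ0
  have key := card_le_arch (ι := Fin m1) (τ := τ) d0 D H N (Y ^ w) hd0 hD hN
    (Nat.one_le_pow _ _ hY) hpig A (1 / (R : ℝ)) (2 * w * η) hA (by positivity) (by positivity)
    hδ hs hsize (fun j => -(φ (some j) : ℝ) / (φ none : ℝ)) (by
      intro j
      rw [abs_div, abs_neg, div_le_one hφr, ← Int.cast_abs, ← Int.cast_abs]
      exact_mod_cast hφ (some j)) Finset.univ
    (fun t j => PP x (W t) j) (fun t j => PP x (W' t) j)
    (fun t _ j => ⟨Nat.pos_of_ne_zero (PP_ne_zero hx (hW t).1 j), by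
      have := PP_le hxY (hW t).1 j
      rwa [(hW t).2.2.1] at this⟩)
    (fun t _ j => ⟨Nat.pos_of_ne_zero (PP_ne_zero hx (hW t).2.1 j), by
      have := PP_le hxY (hW t).2.1 j
      rwa [(hW t).2.2.2.1] at this⟩)
    (by
      intro t _ j
      have h3 := (hW t).2.2.2.2.2
      simp only [Prod.mk.injEq] at h3
      have h4 := congrFun h3.1 (some j)
      have h5 := (hlogb _ (hW t).1 (hW t).2.2.1 (some j)).1
      have h6 := (hlogb _ (hW t).2.1 (hW t).2.2.2.1 (some j)).1
      have h7 := Nat.floor_le h5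
      have h8 := Nat.lt_floor_add_one (Real.log (PP x (W t) (some j)) * R)
      have h9 := Nat.floor_le h6
      have h10 := Nat.lt_floor_add_one (Real.log (PP x (W' t) (some j)) * R)
      rw [h4] at h7 h8
      rw [le_div_iff₀ hRpos]
      have h11 : |Real.log (PP x (W t) (some j)) - Real.log (PP x (W' t) (some j))| * R =
          |Real.log (PP x (W t) (some j)) * R - Real.log (PP x (W' t) (some j)) * R| := by
        rw [← sub_mul, abs_mul, abs_of_pos hRpos]
      rw [h11, abs_le]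
      constructor <;> linarith)
    (by
      intro t _
      have h3 := (hW t).2.2.2.2.2
      simp only [Prod.mk.injEq] at h3
      have hlabt := hlab _ (hW t).1 _ (hW t).2.1 (hW t).2.2.1 (hW t).2.2.2.1 h3.2
      have hsumV : ∀ V ⊆ S, V.card = w →
          |∑ j, (φ j : ℝ) * Real.log (PP x V j) - ∑ i ∈ V, κ i| ≤ w * η := by
        intro V hV hVc
        have h5 : ∑ j, (φ j : ℝ) * Real.log (PP x V j) - ∑ i ∈ V, κ i =
            ∑ i ∈ V, (∑ j, (φ j : ℝ) * Real.log (x i j) - κ i) := by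
          rw [Finset.sum_sub_distrib, Finset.sum_comm]
          congr 1
          apply Finset.sum_congr rfl
          intro j _
          rw [log_PP hx hV j, Finset.mul_sum]
        rw [h5]
        calc _ ≤ ∑ i ∈ V, |∑ j, (φ j : ℝ) * Real.log (x i j) - κ i| :=
              Finset.abs_sum_le_sum_abs _ _
          _ ≤ ∑ _i ∈ V, η := Finset.sum_le_sum (fun i hi => hrel i (hV hi))
          _ = w * η := by rw [Finset.sum_const, hVc, nsmul_eq_mul]
      have h6 := hsumV _ (hW t).1 (hW t).2.2.1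
      have h7 := hsumV _ (hW t).2.1 (hW t).2.2.2.1
      rw [hlabt] at h6
      have h8 : |∑ j, (φ j : ℝ) * (Real.log (PP x (W t) j) - Real.log (PP x (W' t) j))| ≤
          2 * w * η := by
        have h9 : ∑ j, (φ j : ℝ) * (Real.log (PP x (W t) j) - Real.log (PP x (W' t) j)) =
            (∑ j, (φ j : ℝ) * Real.log (PP x (W t) j) - ∑ i ∈ W' t, κ i) -
            (∑ j, (φ j : ℝ) * Real.log (PP x (W' t) j) - ∑ i ∈ W' t, κ i) := by
          rw [sub_sub_sub_cancel_right, ← Finset.sum_sub_distrib]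
          apply Finset.sum_congr rfl
          intro j _
          ring
        rw [h9]
        refine (abs_sub _ _).trans ?_
        linarith
      rw [Fintype.sum_option] at h8
      have h10 : (Real.log (PP x (W t) none) - Real.log (PP x (W' t) none)) -
          ∑ j, (-(φ (some j) : ℝ) / (φ none : ℝ)) *
            (Real.log (PP x (W t) (some j)) - Real.log (PP x (W' t) (some j))) =
          ((φ none : ℝ) * (Real.log (PP x (W t) none) - Real.log (PP x (W' t) none)) +
          ∑ j, (φ (some j) : ℝ) *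
            (Real.log (PP x (W t) (some j)) - Real.log (PP x (W' t) (some j)))) /
            (φ none : ℝ) := by
        rw [add_div, mul_div_cancel_left₀ _ hφne, Finset.sum_div, sub_eq_add_neg,
          ← Finset.sum_neg_distrib]
        congr 1
        apply Finset.sum_congr rfl
        intro j _
        ring
      rw [h10, abs_div, div_le_iff₀ hφr]
      refine h8.trans ?_
      have h11 : 0 ≤ 2 * (w : ℝ) * η := by positivity
      nlinarith)
    ℓ (fun t _ j => hℓ1 t j) (fun t _ j t' _ j' h => hℓ2 t j t' j' h)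
  rw [Finset.card_univ, Fintype.card_fin, hm1] at key
  omega

end Pool.Agent.Y913
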