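import Mathlib

/-!
Units modulo prime powers: lifting the exponent, and solving a multiplicative relation for one
of the coordinates.
-/

set_option autoImplicit false

namespace Pool.Agent.Y913

open Finset

/-- reduction of units from `p^M` to `p^m` -/
noncomputable def red (p : ℕ) {m M : ℕ} (h : m ≤ M) : (ZMod (p ^ M))ˣ →* (ZMod (p ^ m))ˣ :=
  ZMod.unitsMap (pow_dvd_pow p h)

lemma red_eq_one_iff {p m M : ℕ} (h : m ≤ M) [NeZero (p ^ M)] (x : (ZMod (p ^ M))ˣ) :
    red p h x = 1 ↔ ((p ^ m : ℕ) : ℤ) ∣ (((x : ZMod (p ^ M)).val : ℤ) - 1) := by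
  rw [← Units.val_inj]
  unfold red
  rw [ZMod.unitsMap_val, Units.val_one, ZMod.cast_eq_val, ← ZMod.intCast_zmod_eq_zero_iff_dvd]
  push_cast
  rw [sub_eq_zero]

lemma unit_pow_eq_one_iff {p M : ℕ} [NeZero (p ^ M)] (x : (ZMod (p ^ M))ˣ) (k : ℕ) :
    x ^ k = 1 ↔ ((p ^ M : ℕ) : ℤ) ∣ (((x : ZMod (p ^ M)).val : ℤ) ^ k - 1) := by
  rw [← Units.val_inj, ← ZMod.intCast_zmod_eq_zero_iff_dvd]
  push_cast
  rw [ZMod.natCast_zmod_val, sub_eq_zero]

/-- lifting the exponent in unit groups -/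
lemma red_eq_one_of_pow {p h m M ν : ℕ} (hp : p.Prime) (hh : 1 ≤ h) (h2 : p = 2 → 2 ≤ h)
    (hhM : h ≤ M) (hmM : ν + m ≤ M) (x : (ZMod (p ^ M))ˣ) (hx : red p hhM x = 1)
    (hpow : x ^ (p ^ ν) = 1) : red p (le_trans (Nat.le_add_left m ν) hmM) x = 1 := by
  haveI : NeZero (p ^ M) := ⟨pow_ne_zero _ hp.ne_zero⟩
  rw [red_eq_one_iff] at hx ⊢
  rw [unit_pow_eq_one_iff] at hpow
  set X : ℤ := ((x : ZMod (p ^ M)).val : ℤ) with hX
  have hpX : (p : ℤ) ∣ X - 1 := by
    refine dvd_trans ?_ hx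
    push_cast
    exact dvd_pow_self _ (by omega)
  have hpX' : ¬ (p : ℤ) ∣ X := by
    intro h
    have h1 : (p : ℤ) ∣ 1 := by
      have := dvd_sub h hpX
      simpa using this
    have h3 : p ∣ 1 := by exact_mod_cast h1
    exact hp.one_lt.ne' (Nat.dvd_one.mp h3)
  have hlte : emultiplicity (p : ℤ) (X ^ (p ^ ν) - 1 ^ (p ^ ν)) =
      emultiplicity (p : ℤ) (X - 1) + ν := by
    rcases hp.eq_two_or_odd' with rfl | hodd
    · have h4 : (4 : ℤ) ∣ X - 1 := by
        refine dvd_trans ?_ hx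
        have : (2 : ℤ) ^ 2 ∣ 2 ^ h := pow_dvd_pow 2 (h2 rfl)
        push_cast
        norm_num at this ⊢
        exact this
      have := Int.two_pow_sub_pow' (2 ^ ν) h4 (by exact_mod_cast hpX')
      push_cast at this ⊢
      rw [this]
      congr 1
      exact emultiplicity_pow_self_of_prime Int.prime_two ν
    · have := Int.emultiplicity_pow_sub_pow hp hodd hpX hpX' (p ^ ν)
      rw [this, hp.emultiplicity_pow_self]
  rw [one_pow] at hlte
  have h5 : (p : ℤ) ^ M ∣ X ^ (p ^ ν) - 1 := by exact_mod_cast hpow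
  rw [pow_dvd_iff_le_emultiplicity, hlte] at h5
  push_cast
  rw [pow_dvd_iff_le_emultiplicity]
  have h6 : ((m : ℕ∞)) + (ν : ℕ∞) ≤ emultiplicity (p : ℤ) (X - 1) + ν := by
    refine le_trans ?_ h5
    exact_mod_cast (by omega : m + ν ≤ M)
  exact (ENat.add_le_add_iff_right (ENat.natCast_ne_top ν)).mp h6

/-- units congruent to one modulo `p` have `p`-power order -/
lemma pow_eq_one_of_dvd {p m : ℕ} (hp : p.Prime) (y : (ZMod (p ^ m))ˣ)
    (hy : ((p : ℕ) : ZMod (p ^ m)) ∣ (y : ZMod (p ^ m)) - 1) : y ^ (p ^ m) = 1 := by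
  have h1 := dvd_sub_pow_of_dvd_sub hy m
  rw [pow_succ, ← Nat.cast_pow, ZMod.natCast_self, zero_mul, zero_dvd_iff, one_pow,
    sub_eq_zero] at h1
  rw [← Units.val_inj]
  simpa using h1

lemma red_red {p k m M : ℕ} (h1 : k ≤ m) (h2 : m ≤ M) (x : (ZMod (p ^ M))ˣ) :
    red p h1 (red p h2 x) = red p (h1.trans h2) x := by
  unfold red
  rw [← MonoidHom.comp_apply, ZMod.unitsMap_comp]

lemma zpow_eq_pow_toNat {G : Type} [Group G] (y : G) (N : ℕ) (hN : 0 < N) (hy : y ^ N = 1)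
    (z : ℤ) : y ^ z = y ^ (z % N).toNat := by
  have h1 : y ^ z = y ^ (z % N) := by
    conv_lhs => rw [← Int.mul_ediv_add_emod z N]
    rw [zpow_add, zpow_mul, zpow_natCast, hy, one_zpow, one_mul]
  rw [h1]
  conv_lhs => rw [← Int.toNat_of_nonneg (Int.emod_nonneg z (by exact_mod_cast hN.ne'))]
  rw [zpow_natCast]

/-- **solving a multiplicative relation for the coordinate of smallest valuation** -/
theorem exists_psi {τ : Type} [Fintype τ] [DecidableEq τ] {p h m M ν : ℕ} (hp : p.Prime)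
    (hh : 1 ≤ h) (h2 : p = 2 → 2 ≤ h) (hhm : h ≤ m) (hmM : ν + m ≤ M) (φ : Option τ → ℤ)
    (hφ : ∀ j, (p : ℤ) ^ ν ∣ φ j) (hφ0 : ¬ (p : ℤ) ^ (ν + 1) ∣ φ none) :
    ∃ ψ : τ → ℕ, ∀ x : Option τ → (ZMod (p ^ M))ˣ,
      (∀ j, red p (hhm.trans (le_trans (Nat.le_add_left m ν) hmM)) (x j) = 1) →
      ∏ j, x j ^ φ j = 1 →
      red p (le_trans (Nat.le_add_left m ν) hmM) (x none) =
        ∏ j, (red p (le_trans (Nat.le_add_left m ν) hmM) (x (some j))) ^ ψ j := by
  choose φ' hφ' using hφ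
  have hcop : IsCoprime (φ' none) ((p : ℤ) ^ m) := by
    apply IsCoprime.pow_right
    rw [isCoprime_comm]
    rw [(Nat.prime_iff_prime_int.mp hp).coprime_iff_not_dvd]
    rintro ⟨c, hc⟩
    apply hφ0
    rw [hφ' none, hc]
    exact ⟨c, by ring⟩
  obtain ⟨a, b, hab⟩ := hcop
  refine ⟨fun j => ((-a * φ' (some j)) % ((p ^ m : ℕ) : ℤ)).toNat, ?_⟩
  intro x hx hrel
  set r := red p (le_trans (Nat.le_add_left m ν) hmM) with hr
  set y : Option τ → (ZMod (p ^ m))ˣ := fun j => r (x j) with hy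
  have hM : m ≤ M := le_trans (Nat.le_add_left m ν) hmM
  have hη : r (∏ j, x j ^ φ' j) = 1 := by
    apply red_eq_one_of_pow hp hh h2 (hhm.trans hM) hmM
    · rw [map_prod]
      apply Finset.prod_eq_one
      intro j _
      rw [map_zpow, hx j, one_zpow]
    · rw [← Finset.prod_pow, ← hrel]
      apply Finset.prod_congr rfl
      intro j _
      rw [← zpow_natCast, ← zpow_mul, hφ' j]
      congr 1
      push_cast
      ring
  have hηy : ∏ j, y j ^ φ' j = 1 := by
    rw [map_prod] at hη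
    rw [← hη]
    apply Finset.prod_congr rfl
    intro j _
    rw [map_zpow]
  haveI : NeZero (p ^ M) := ⟨pow_ne_zero _ hp.ne_zero⟩
  haveI : NeZero (p ^ m) := ⟨pow_ne_zero _ hp.ne_zero⟩
  have hypow : ∀ j, y j ^ (p ^ m) = 1 := by
    intro j
    apply pow_eq_one_of_dvd hp
    have h1 : red p hhm (y j) = 1 := by
      rw [hy, hr]
      simp only
      rw [red_red]
      exact hx j
    rw [red_eq_one_iff] at h1
    have h3 : (p : ℤ) ∣ (((y j : ZMod (p ^ m)).val : ℤ) - 1) := by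
      refine dvd_trans ?_ h1
      push_cast
      exact dvd_pow_self _ (by omega)
    obtain ⟨c, hc⟩ := h3
    refine ⟨(c : ZMod (p ^ m)), ?_⟩
    have h4 := congrArg (fun z : ℤ => (z : ZMod (p ^ m))) hc
    push_cast at h4
    rw [ZMod.natCast_zmod_val] at h4
    exact h4
  show y none = ∏ j, y (some j) ^ _
  have h7 : y none ^ φ' none = (∏ j, y (some j) ^ φ' (some j))⁻¹ := by
    rw [Fintype.prod_option] at hηy
    exact eq_inv_of_mul_eq_one_left hηy
  calc y none = y none ^ (a * φ' none + b * (p : ℤ) ^ m) := by rw [hab, zpow_one]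
    _ = (y none ^ φ' none) ^ a := by
        rw [zpow_add, mul_comm b, zpow_mul (y none) ((p : ℤ) ^ m) b]
        have h8 : y none ^ ((p : ℤ) ^ m) = 1 := by
          rw [← Nat.cast_pow, zpow_natCast]
          exact hypow none
        rw [h8, one_zpow, mul_one, mul_comm a, zpow_mul]
    _ = ∏ j, y (some j) ^ (-a * φ' (some j)) := by
        rw [h7, inv_zpow, ← zpow_neg, ← Finset.prod_zpow]
        apply Finset.prod_congr rfl
        intro j _
        rw [← zpow_mul]
        congr 1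
        ring
    _ = _ := by
        apply Finset.prod_congr rfl
        intro j _
        exact zpow_eq_pow_toNat _ _ (pow_pos hp.pos _) (hypow (some j)) _

end Pool.Agent.Y913
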