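import Pool.Agent.Y913.Padic
import Pool.Agent.Y913.Lte
import Pool.Agent.Y913.Blocks

/-!
The key lemma, `p`-adic form: a family of pairwise disjoint tuples of primes satisfying
multiplicative relations with fixed exponents modulo a high power of `p` is small.
-/

set_option autoImplicit false

namespace Pool.Agent.Y913

open Finset

/-- the unit of `ZMod N` given by `a` -/
noncomputable def ud (N a : ℕ) : (ZMod N)ˣ :=
  if h : a.Coprime N then ZMod.unitOfCoprime a h else 1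

lemma ud_coe {N a : ℕ} (h : a.Coprime N) : ((ud N a : (ZMod N)ˣ) : ZMod N) = (a : ZMod N) := by
  unfold ud
  rw [dif_pos h, ZMod.coe_unitOfCoprime]

lemma ud_prod {N : ℕ} {ι : Type} (W : Finset ι) (x : ι → ℕ) (hx : ∀ i ∈ W, (x i).Coprime N) :
    ud N (∏ i ∈ W, x i) = ∏ i ∈ W, ud N (x i) := by
  rw [← Units.val_inj, ud_coe (Nat.Coprime.prod_left hx), Units.coe_prod]
  push_cast
  apply Finset.prod_congr rfl
  intro i hi
  rw [ud_coe (hx i hi)]

lemma red_ud {p m M a : ℕ} (h : m ≤ M) (ha : a.Coprime p) :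
    red p h (ud (p ^ M) a) = ud (p ^ m) a := by
  rw [← Units.val_inj, ud_coe (Nat.Coprime.pow_right _ ha)]
  unfold red
  rw [ZMod.unitsMap_val, ud_coe (Nat.Coprime.pow_right _ ha), ZMod.cast_natCast (pow_dvd_pow p h)]

/-- **Key Lemma, `p`-adic form** -/
theorem key_padic {ι τ T : Type} [Fintype τ] [DecidableEq τ] [Fintype T]
    (p h d0 D H Y w M ν N0 : ℕ) (hp : p.Prime) (hh : 1 ≤ h) (h2 : p = 2 → 2 ≤ h)
    (hd0 : 1 ≤ d0) (hD : 1 ≤ D) (hY : 1 ≤ Y) (hmM : ν + h * d0 ≤ M)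
    (hpig : (p ^ (h * d0)) ^ (d0 ^ Fintype.card τ) < (H + 1) ^ (D ^ (Fintype.card τ + 1)))
    (hsize : D ^ (Fintype.card τ + 1) *
      (H * (((Y ^ w) ^ (Fintype.card τ + 1)) ^ (D - 1)) ^ (Fintype.card τ + 1)) < p ^ (h * d0))
    (φ : Option τ → ℤ)
    (hφ : ∀ j, (p : ℤ) ^ ν ∣ φ j) (hφ0 : ¬ (p : ℤ) ^ (ν + 1) ∣ φ none)
    (S : Finset ι) (x : ι → Option τ → ℕ) (hx : ∀ i ∈ S, ∀ j, (x i j).Prime)
    (hxY : ∀ i ∈ S, ∀ j, x i j ≤ Y) (hxp : ∀ i ∈ S, ∀ j, x i j ≠ p)
    (hinj : ∀ i ∈ S, ∀ j, ∀ i' ∈ S, ∀ j', x i j = x i' j' → i = i' ∧ j = j')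
    (κ : ι → (ZMod (p ^ M))ˣ)
    (hrel : ∀ i ∈ S, ∏ j, (ud (p ^ M) (x i j)) ^ φ j = κ i)
    (lab : Finset ι → T)
    (hlab : ∀ W ⊆ S, ∀ W' ⊆ S, W.card = w → W'.card = w → lab W = lab W' →
      ∏ i ∈ W, κ i = ∏ i ∈ W', κ i)
    (hN0 : (p ^ h) ^ (Fintype.card τ + 1) * Fintype.card T < N0.choose w) :
    S.card < (2 ^ ((Fintype.card τ + 1 + 1) * (Fintype.card τ + 1)) *
      D ^ (Fintype.card τ + 1) + 1) * N0 := by
  classical
  by_contra hcon
  rw [not_lt] at hcon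
  haveI : NeZero (p ^ (h * d0)) := ⟨pow_ne_zero _ hp.ne_zero⟩
  haveI : NeZero (p ^ h) := ⟨pow_ne_zero _ hp.ne_zero⟩
  set m1 := 2 ^ ((Fintype.card τ + 1 + 1) * (Fintype.card τ + 1)) *
      D ^ (Fintype.card τ + 1) + 1 with hm1
  have hcard : Fintype.card (Option τ) = Fintype.card τ + 1 := Fintype.card_option
  obtain ⟨W, W', hW, hdisj⟩ := exists_blocks S m1 N0 w hcon
    (fun V => ((fun j : Option τ => ((PP x V j : ℕ) : ZMod (p ^ h))), lab V))
    (Finset.univ : Finset ((Option τ → ZMod (p ^ h)) × T)) (fun _ _ _ => Finset.mem_univ _) (by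
      rw [Finset.card_univ, Fintype.card_prod, Fintype.card_fun, ZMod.card, hcard]
      exact hN0)
  obtain ⟨ℓ, hℓ1, hℓ2⟩ := indep_blocks hx hinj W W'
    (fun t => ⟨(hW t).1, (hW t).2.1, (hW t).2.2.1, (hW t).2.2.2.1, (hW t).2.2.2.2.1⟩) hdisj
  have hcop : ∀ i ∈ S, ∀ j, (x i j).Coprime p := fun i hi j =>
    (Nat.coprime_primes (hx i hi j) hp).mpr (hxp i hi j)
  have hhm : h ≤ h * d0 := Nat.le_mul_of_pos_right _ hd0
  obtain ⟨ψ, hψ⟩ := exists_psi hp hh h2 hhm hmM φ hφ hφ0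
  have hPcop : ∀ V ⊆ S, ∀ j, (PP x V j).Coprime p := fun V hV j =>
    Nat.Coprime.prod_left (fun i hi => hcop i (hV hi) j)
  have hmM' : h * d0 ≤ M := le_trans (Nat.le_add_left (h * d0) ν) hmM
  have key := card_le_padic (ι := Fin m1) (τ := τ) (p ^ (h * d0)) (p ^ h) d0 D H (Y ^ w) hD
    (Nat.one_le_pow _ _ hY) (by rw [← pow_mul]) hpig hsize ψ Finset.univ
    (fun t j => PP x (W t) j) (fun t j => PP x (W' t) j)
    (fun t _ j => ⟨Nat.pos_of_ne_zero (PP_ne_zero hx (hW t).1 j), by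
      have := PP_le hxY (hW t).1 j
      rwa [(hW t).2.2.1] at this⟩)
    (fun t _ j => ⟨Nat.pos_of_ne_zero (PP_ne_zero hx (hW t).2.1 j), by
      have := PP_le hxY (hW t).2.1 j
      rwa [(hW t).2.2.2.1] at this⟩)
    (fun t _ j => by
      rw [ZMod.isUnit_iff_coprime]
      exact Nat.Coprime.pow_right _ (hPcop _ (hW t).2.1 j))
    (fun t _ j => by
      have h3 := (hW t).2.2.2.2.2
      simp only [Prod.mk.injEq] at h3
      exact (ZMod.natCast_eq_natCast_iff _ _ _).mp (congrFun h3.1 (some j)))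
    (by
      intro t _
      have h3 := (hW t).2.2.2.2.2
      simp only [Prod.mk.injEq] at h3
      have hlabt := hlab _ (hW t).1 _ (hW t).2.1 (hW t).2.2.1 (hW t).2.2.2.1 h3.2
      set z : Option τ → (ZMod (p ^ M))ˣ := fun j =>
        ud (p ^ M) (PP x (W t) j) * (ud (p ^ M) (PP x (W' t) j))⁻¹ with hz
      have hprodV : ∀ V ⊆ S, ∏ j, (ud (p ^ M) (PP x V j)) ^ φ j = ∏ i ∈ V, κ i := by
        intro V hV
        have h5 : ∀ j, ud (p ^ M) (PP x V j) = ∏ i ∈ V, ud (p ^ M) (x i j) := fun j =>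
          ud_prod V (fun i => x i j) (fun i hi => Nat.Coprime.pow_right _ (hcop i (hV hi) j))
        simp_rw [h5, ← Finset.prod_zpow]
        rw [Finset.prod_comm]
        apply Finset.prod_congr rfl
        intro i hi
        exact hrel i (hV hi)
      have h6 := hψ z (by
        intro j
        simp only [hz]
        rw [map_mul, map_inv, red_ud _ (hPcop _ (hW t).1 j), red_ud _ (hPcop _ (hW t).2.1 j),
          mul_inv_eq_one, ← Units.val_inj,
          ud_coe (Nat.Coprime.pow_right _ (hPcop _ (hW t).1 j)),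
          ud_coe (Nat.Coprime.pow_right _ (hPcop _ (hW t).2.1 j))]
        exact congrFun h3.1 j) (by
        simp only [hz]
        simp_rw [mul_zpow, inv_zpow]
        rw [Finset.prod_mul_distrib, Finset.prod_inv_distrib, hprodV _ (hW t).1,
          hprodV _ (hW t).2.1, hlabt, mul_inv_cancel])
      have h7 : ∀ j, red p hmM' (z j) =
          ud (p ^ (h * d0)) (PP x (W t) j) * (ud (p ^ (h * d0)) (PP x (W' t) j))⁻¹ := by
        intro j
        simp only [hz]
        rw [map_mul, map_inv, red_ud _ (hPcop _ (hW t).1 j), red_ud _ (hPcop _ (hW t).2.1 j)]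
      have h8 : ud (p ^ (h * d0)) (PP x (W t) none) *
          ∏ j, (ud (p ^ (h * d0)) (PP x (W' t) (some j))) ^ ψ j =
          ud (p ^ (h * d0)) (PP x (W' t) none) *
          ∏ j, (ud (p ^ (h * d0)) (PP x (W t) (some j))) ^ ψ j := by
        have h9 : red p hmM' (z none) = ∏ j, (red p hmM' (z (some j))) ^ ψ j := h6
        simp_rw [h7, mul_pow, inv_pow] at h9
        rw [Finset.prod_mul_distrib, Finset.prod_inv_distrib, mul_inv_eq_iff_eq_mul] at h9
        rw [h9, mul_right_comm, inv_mul_cancel_right]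
        exact mul_comm _ _
      have h10 := congrArg (fun u : (ZMod (p ^ (h * d0)))ˣ => (u : ZMod (p ^ (h * d0)))) h8
      simp only [Units.val_mul, Units.coe_prod, Units.val_pow_eq_pow_val] at h10
      rw [ud_coe (Nat.Coprime.pow_right _ (hPcop _ (hW t).1 _)),
        ud_coe (Nat.Coprime.pow_right _ (hPcop _ (hW t).2.1 _))] at h10
      have h11 : ∀ V ⊆ S, ∏ j : τ, ((ud (p ^ (h * d0)) (PP x V (some j)) :
          (ZMod (p ^ (h * d0)))ˣ) : ZMod (p ^ (h * d0))) ^ ψ j =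
          ∏ j : τ, ((PP x V (some j) : ℕ) : ZMod (p ^ (h * d0))) ^ ψ j := by
        intro V hV
        apply Finset.prod_congr rfl
        intro j _
        rw [ud_coe (Nat.Coprime.pow_right _ (hPcop _ hV _))]
      rw [h11 _ (hW t).1, h11 _ (hW t).2.1] at h10
      exact h10)
    ℓ (fun t _ j => hℓ1 t j) (fun t _ j t' _ j' h => hℓ2 t j t' j' h)
  rw [Finset.card_univ, Fintype.card_fin, hm1] at key
  omega

end Pool.Agent.Y913
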