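import Pool.Agent.Y913.Real

/-!
Near coincidences among products of prime powers with a fixed exponent vector.
-/

set_option autoImplicit false

namespace Pool.Agent.Y913

open Finset

lemma abs_log_le_two {x δ : ℝ} (hδ : δ ≤ 1 / 2) (h : |x - 1| ≤ δ) : |Real.log x| ≤ 2 * δ := by
  obtain ⟨h1, h2⟩ := abs_le.1 h
  have hx : 1 / 2 ≤ x := by linarith
  have hxp : 0 < x := by linarith
  have h3 := Real.log_le_sub_one_of_pos hxp
  have h4 := Real.one_sub_inv_le_log_of_pos hxp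
  have hδ0 : 0 ≤ δ := (abs_nonneg _).trans h
  have h5 : -(2 * δ) ≤ 1 - x⁻¹ := by
    have h6 : x⁻¹ ≤ 1 + 2 * δ := by
      rw [inv_le_iff_one_le_mul₀ hxp]
      nlinarith
    linarith
  rw [abs_le]
  constructor <;> linarith

/-- **uniform bound in the exponent vector** -/
theorem lw_count (n : ℕ) (ε : ℝ) (hε : 0 < ε) : ∃ K C : ℝ, 0 < K ∧ 0 < C ∧
    ∀ Y : ℝ, 1 ≤ Y → ∀ b : Fin n → ℤ, (∀ j, b j ≠ 0) → ∀ S : Finset (Fin n → ℕ),
      (∀ a ∈ S, Function.Injective a ∧ (∀ j, (a j).Prime ∧ (a j : ℝ) ≤ Y) ∧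
        |∏ j, (a j : ℝ) ^ (b j) - 1| ≤ Y ^ (-K)) →
      (S.card : ℝ) ≤ C * Y ^ ε := by
  classical
  obtain ⟨w, hw, C, hC, hb⟩ := exists_b n (ε / 2) (by positivity)
  obtain ⟨K0, hK0⟩ : ∃ K0 : ℕ, K0 = KK n w := ⟨_, rfl⟩
  refine ⟨1 + 2 * K0, C + 1, by positivity, by positivity, ?_⟩
  intro Y hY b hb0 S hS
  have hY0 : 0 < Y := by linarith
  rcases Nat.eq_zero_or_pos n with hn | hn
  · -- the empty tuple
    subst hn
    have h1 : S.card ≤ 1 := Finset.card_le_one.mpr (fun a _ a' _ => Subsingleton.elim a a')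
    have h2 : (S.card : ℝ) ≤ 1 := by exact_mod_cast h1
    have h3 : (1 : ℝ) ≤ Y ^ ε := Real.one_le_rpow hY hε.le
    nlinarith
  rcases lt_or_ge Y 2 with hY2 | hY2
  · have hSe : S = ∅ := by
      rw [Finset.eq_empty_iff_forall_notMem]
      intro a ha
      obtain ⟨_, h2, _⟩ := hS a ha
      have h3 := h2 ⟨0, hn⟩
      have h4 : (2 : ℝ) ≤ a ⟨0, hn⟩ := by exact_mod_cast h3.1.two_le
      linarith [h3.2]
    rw [hSe, Finset.card_empty]
    push_cast
    positivity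
  obtain ⟨A, hA⟩ : ∃ A : ℕ, A = ⌊Y⌋₊ + 1 := ⟨_, rfl⟩
  have hA2 : 2 ≤ A := by
    have : 1 ≤ ⌊Y⌋₊ := Nat.le_floor (by push_cast; linarith)
    omega
  have hAY : (A : ℝ) ≤ Y ^ 2 := by
    have h1 : (⌊Y⌋₊ : ℝ) ≤ Y := Nat.floor_le (by linarith)
    rw [hA]; push_cast
    nlinarith
  have hA0 : (0 : ℝ) < A := by exact_mod_cast (by omega : 0 < A)
  obtain ⟨η, hη⟩ : ∃ η : ℝ, η = 2 * Y ^ (-(1 + 2 * (K0 : ℝ))) := ⟨_, rfl⟩
  have hη0 : 0 ≤ η := by rw [hη]; positivity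
  have hYK : Y ^ (-(1 + 2 * (K0 : ℝ))) ≤ 1 / 2 := by
    have h1 : (2 : ℝ) ≤ Y ^ (1 + 2 * (K0 : ℝ)) := by
      calc (2 : ℝ) ≤ Y := hY2
        _ = Y ^ (1 : ℝ) := (Real.rpow_one Y).symm
        _ ≤ _ := Real.rpow_le_rpow_of_exponent_le hY (by
          have : (0 : ℝ) ≤ K0 := Nat.cast_nonneg _
          linarith)
    rw [Real.rpow_neg hY0.le, one_div]
    exact inv_anti₀ (by norm_num) h1
  have hηA : η * (A : ℝ) ^ KK n w ≤ 1 := by
    have h1 : (A : ℝ) ^ KK n w ≤ Y ^ (2 * (K0 : ℝ)) := by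
      calc (A : ℝ) ^ KK n w = (A : ℝ) ^ K0 := by rw [hK0]
        _ ≤ (Y ^ 2) ^ K0 := pow_le_pow_left₀ hA0.le hAY _
        _ = Y ^ (2 * (K0 : ℝ)) := by
            rw [← pow_mul, ← Real.rpow_natCast]
            push_cast
            rfl
    have h2 : 0 < Y ^ (2 * (K0 : ℝ)) := by positivity
    rw [hη, Real.rpow_neg hY0.le, Real.rpow_add hY0, Real.rpow_one, mul_inv]
    calc 2 * (Y⁻¹ * (Y ^ (2 * (K0 : ℝ)))⁻¹) * (A : ℝ) ^ KK n w
        ≤ 2 * (Y⁻¹ * (Y ^ (2 * (K0 : ℝ)))⁻¹) * Y ^ (2 * (K0 : ℝ)) := by gcongr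
      _ = Y⁻¹ * 2 := by field_simp
      _ ≤ 1 := by
          rw [inv_mul_le_iff₀ hY0]
          linarith
  obtain ⟨bb, hb1, hb2⟩ := hb A (by omega)
  have key := count_arch (σ := Fin n) (T := Unit) A A w bb (by omega) hw hA2 le_rfl η hη0
    (by rw [Fintype.card_fin]; exact hηA) b hb0 S
    (by
      intro a ha j
      obtain ⟨h1, h2, h3⟩ := hS a ha
      have h4 : a j ≤ ⌊Y⌋₊ := Nat.le_floor (h2 j).2
      exact ⟨(h2 j).1, by omega⟩)
    (by
      intro a ha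
      exact (hS a ha).1)
    (fun _ => 0)
    (by
      intro a ha
      obtain ⟨h1, h2, h3⟩ := hS a ha
      have h4 := abs_log_le_two hYK h3
      rw [sub_zero]
      have h5 : Real.log (∏ j, (a j : ℝ) ^ (b j)) = ∑ j, (b j : ℝ) * Real.log (a j) := by
        rw [Real.log_prod]
        · apply Finset.sum_congr rfl
          intro j _
          rw [Real.log_zpow]
        · intro j _
          apply zpow_ne_zero
          exact_mod_cast (h2 j).1.ne_zero
      rw [← h5, hη]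
      exact h4)
    (fun _ => ()) (by
      intro W _ W' _ _ _ _
      simp)
    (by rw [Fintype.card_fin, Fintype.card_unit, mul_one]; exact hb1)
  rw [Fintype.card_fin] at key
  calc (S.card : ℝ) ≤ (((n ^ 2 * (mm n w * (w * (bb + 1)))) ^ n : ℕ) : ℝ) := by exact_mod_cast key
    _ ≤ C * (A : ℝ) ^ (ε / 2) := hb2
    _ ≤ C * Y ^ ε := by
        have h2 : (A : ℝ) ^ (ε / 2) ≤ Y ^ ε := by
          calc (A : ℝ) ^ (ε / 2) ≤ (Y ^ 2) ^ (ε / 2) :=
                Real.rpow_le_rpow hA0.le hAY (by positivity)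
            _ = Y ^ ε := by
                rw [← Real.rpow_natCast, ← Real.rpow_mul hY0.le]
                congr 1
                push_cast
                ring
        gcongr
    _ ≤ (C + 1) * Y ^ ε := by
        have : 0 < Y ^ ε := by positivity
        nlinarith

end Pool.Agent.Y913
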