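import Pool.Agent.Y913.Height
import Pool.Agent.Y913.Tall

/-!
Pairs with few primes which are close to each other at the infinite place or at a small prime,
all heights.
-/

set_option autoImplicit false

namespace Pool.Agent.Y913

open Finset

/-- **height bound, finite place** -/
theorem padic_height (n : ℕ) (δ : ℝ) (hδ : 0 < δ) : ∃ C : ℝ, ∃ κ : ℕ, 0 < C ∧
    ∀ Y : ℝ, 1 ≤ Y → ∀ p k : ℕ, p.Prime → ∀ s : ℤ, (s = 1 ∨ s = -1) →
      ∀ q : ℕ × ℕ, 0 < q.1 → q.1 < q.2 → Nat.Coprime q.1 q.2 → (prs q).card = n →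
      (∀ l ∈ prs q, (l : ℝ) ≤ Y) → ((p ^ k : ℕ) : ℤ) ∣ (q.2 : ℤ) - s * q.1 →
      (q.2 : ℝ) ^ δ ≤ (p : ℝ) ^ k → Real.log q.2 ≤ C * (p + (1 + Real.log Y)) ^ κ := by
  obtain ⟨C0, κ0, hWB⟩ := Pool.Agent.TH888.W2.weakBaker_all n
  obtain ⟨B, hB⟩ : ∃ B : ℝ, B = ((C0 : ℝ) + 1) * 8 ^ (κ0 + 1) := ⟨_, rfl⟩
  have hBpos : 0 < B := by rw [hB]; positivity
  obtain ⟨C, hC, hsolve⟩ := solve_height (κ0 + 1) (δ / B) (by positivity)
  refine ⟨C, κ0 + 1, hC, ?_⟩
  intro Y hY p k hp s hs q h0 h1 hcop hcard hYl hdvd hpk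
  have hq : Good n q := ⟨h0, h0.trans h1, hcop, hcard⟩
  have hq2 : (1 : ℝ) < q.2 := by exact_mod_cast (by omega : 1 < q.2)
  have hq20 : (0 : ℝ) < q.2 := by linarith
  obtain ⟨G, hG⟩ : ∃ G : ℝ, G = Real.log q.2 := ⟨_, rfl⟩
  have hG0 : 0 < G := by rw [hG]; exact Real.log_pos hq2
  have hlY : 0 ≤ Real.log Y := Real.log_nonneg hY
  rw [← hG]
  have hk : k ≠ 0 := by
    rintro rfl
    rw [pow_zero] at hpk
    have := Real.one_lt_rpow hq2 hδ
    linarith
  haveI : Fact p.Prime := ⟨hp⟩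
  have hs2 : s * s = 1 := by rcases hs with rfl | rfl <;> norm_num
  -- `p` does not divide the members
  have hpd : (p : ℤ) ∣ (q.2 : ℤ) - s * q.1 := by
    refine dvd_trans ?_ hdvd
    push_cast
    exact dvd_pow_self _ hk
  have hp1 : ¬ p ∣ q.1 := by
    intro h
    have h2 : (p : ℤ) ∣ (q.2 : ℤ) := by
      have h3 : (p : ℤ) ∣ s * q.1 := Dvd.dvd.mul_left (Int.natCast_dvd_natCast.mpr h) s
      have := dvd_add hpd h3
      rwa [sub_add_cancel] at this
    have h3 : p ∣ q.2 := Int.natCast_dvd_natCast.mp h2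
    have := Nat.dvd_gcd h h3
    rw [hcop] at this
    exact hp.one_lt.ne' (Nat.dvd_one.mp this)
  have hp2 : ¬ p ∣ q.2 := by
    intro h
    have h2 : (p : ℤ) ∣ s * q.1 := by
      have := dvd_sub (Int.natCast_dvd_natCast.mpr h : (p : ℤ) ∣ (q.2 : ℤ)) hpd
      rwa [sub_sub_cancel] at this
    have h3 : (p : ℤ) ∣ (q.1 : ℤ) := by
      have h4 := Dvd.dvd.mul_left h2 s
      rwa [← mul_assoc, hs2, one_mul] at h4
    exact hp1 (Int.natCast_dvd_natCast.mp h3)
  have hc1 : q.1.Coprime (p ^ k) :=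
    Nat.Coprime.pow_right _ ((Nat.coprime_comm.mp ((hp.coprime_iff_not_dvd).mpr hp1)))
  have hc2 : q.2.Coprime (p ^ k) :=
    Nat.Coprime.pow_right _ ((Nat.coprime_comm.mp ((hp.coprime_iff_not_dvd).mpr hp2)))
  have hcj : ∀ j, (enc n q j).Coprime (p ^ k) := by
    intro j
    have hm := enc_mem hcard j
    unfold prs at hm
    have hd := Nat.dvd_of_mem_primeFactors hm
    exact Nat.Coprime.coprime_dvd_left hd (Nat.Coprime.mul_left hc1 hc2)
  -- choice of `S`
  obtain ⟨g1, hg1, hg1'⟩ := log_two_mul_clog Y hY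
  obtain ⟨g2, hg2, hg2'⟩ := log_two_mul_clog (1 + G) (by linarith)
  obtain ⟨S, hS⟩ : ∃ S, S = p + g1 + g2 + 3 := ⟨_, rfl⟩
  have h2g : ∀ a : ℕ, a ≤ S → (2 : ℝ) ^ a ≤ 2 ^ S := fun a ha =>
    pow_le_pow_right₀ (by norm_num) ha
  have hn : n ≠ 0 := by
    rintro rfl
    have h3 := Finset.card_eq_zero.mp hcard
    have h4 := prs_nonempty h0 h1
    rw [h3] at h4
    exact Finset.not_nonempty_empty h4
  have hkS := hWB p S (by omega) (enc n q) (fun j => 2 * expo n q j) k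
    (fun j => ud (p ^ k) (enc n q j)) (fun j => ud_coe (hcj j))
    (fun j => Nat.pos_of_mem_primeFactors (enc_mem hcard j))
    (by
      intro j
      have hm := enc_mem hcard j
      have h3 := (hYl _ hm).trans (hg1.trans (h2g g1 (by omega)))
      exact_mod_cast h3)
    (by
      intro j
      have hE1 : q.1 < 2 ^ (⌊G / Real.log 2⌋₊ + 1) := lt_two_pow_of_log h0 (by
        rw [hG]
        exact Real.log_le_log (by exact_mod_cast h0) (by exact_mod_cast h1.le))
      have hE2 : q.2 < 2 ^ (⌊G / Real.log 2⌋₊ + 1) := lt_two_pow_of_log (h0.trans h1) hG.ge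
      have h3 := natAbs_expo_le hq hE1 hE2 j
      have h4 : (2 * ⌊G / Real.log 2⌋₊ : ℝ) ≤ 2 ^ S := by
        have hl2 : 0.6931471803 < Real.log 2 := Real.log_two_gt_d9
        calc (2 * ⌊G / Real.log 2⌋₊ : ℝ) ≤ 2 * (G / Real.log 2) := by
              gcongr
              exact Nat.floor_le (by positivity)
          _ ≤ 2 * (2 * (1 + G)) := by
              have : G / Real.log 2 ≤ 2 * (1 + G) := by
                rw [div_le_iff₀ (by linarith)]
                nlinarith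
              linarith
          _ ≤ 2 ^ 2 * 2 ^ g2 := by linarith
          _ = 2 ^ (2 + g2) := by rw [← pow_add]
          _ ≤ 2 ^ S := h2g _ (by omega)
      have h5 : 2 * ⌊G / Real.log 2⌋₊ ≤ 2 ^ S := by exact_mod_cast h4
      have h6 : (((2 * (expo n q j).natAbs : ℕ)) : ℤ) ≤ ((2 ^ S : ℕ) : ℤ) := by
        exact_mod_cast (by omega : 2 * (expo n q j).natAbs ≤ 2 ^ S)
      push_cast at h6
      rw [abs_mul]
      simpa using h6)
    (by
      intro h
      have h3 := prime_indep (enc n q)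
        (fun j => Nat.prime_of_mem_primeFactors (enc_mem hcard j)) (enc_inj hcard)
        (fun j => 2 * expo n q j) (by
          have h4 := congrArg (fun z : ℚ => (z : ℝ)) h
          push_cast at h4
          rw [← h4]
          apply Finset.prod_congr rfl
          intro j _
          rw [Nat.cast_one, div_one])
      have h4 := congrFun h3 ⟨0, Nat.pos_of_ne_zero hn⟩
      have h5 := expo_ne_zero hq ⟨0, Nat.pos_of_ne_zero hn⟩
      simp only [Pi.zero_apply] at h4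
      omega)
    (by
      have h3 : ∏ j, (ud (p ^ k) (enc n q j)) ^ (2 * expo n q j) =
          (∏ j, (ud (p ^ k) (enc n q j)) ^ (expo n q j)) ^ 2 := by
        rw [← Finset.prod_pow]
        apply Finset.prod_congr rfl
        intro j _
        rw [mul_comm, zpow_mul, zpow_ofNat]
      rw [h3, ud_rel hq hc1 hc2, mul_pow, inv_pow, mul_inv_eq_one, ← Units.val_inj,
        Units.val_pow_eq_pow_val, Units.val_pow_eq_pow_val, ud_coe hc1, ud_coe hc2]
      have h4 : ((q.2 : ℤ) : ZMod (p ^ k)) = ((s * q.1 : ℤ) : ZMod (p ^ k)) := by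
        rw [← sub_eq_zero, ← Int.cast_sub, ZMod.intCast_zmod_eq_zero_iff_dvd]
        exact_mod_cast hdvd
      push_cast at h4
      rw [h4, mul_pow]
      have h5 : ((s : ZMod (p ^ k)) ^ 2) = 1 := by
        rw [pow_two]
        exact_mod_cast congrArg (fun z : ℤ => (z : ZMod (p ^ k))) hs2
      rw [h5, one_mul])
  -- conclusion
  have hS1 : (p : ℝ) ≤ S := by exact_mod_cast (by omega : p ≤ S)
  have hp0 : (1 : ℝ) ≤ p := by exact_mod_cast hp.one_lt.le
  have h4 : δ * G ≤ ((C0 : ℝ) + 1) * (S : ℝ) ^ (κ0 + 1) := by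
    have h5 := Real.log_le_log (by positivity) hpk
    rw [Real.log_rpow hq20, Real.log_pow, ← hG] at h5
    have h6 : Real.log p ≤ S := by
      have := Real.log_le_sub_one_of_pos (by linarith : (0 : ℝ) < p)
      linarith
    have h7 : (k : ℝ) ≤ C0 * (S : ℝ) ^ κ0 := by exact_mod_cast hkS
    have h8 : 0 ≤ Real.log p := Real.log_nonneg hp0
    have h9 : (0 : ℝ) ≤ (S : ℝ) := by linarith
    calc δ * G ≤ k * Real.log p := h5
      _ ≤ (C0 * (S : ℝ) ^ κ0) * S := mul_le_mul h7 h6 h8 (by positivity)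
      _ = C0 * (S : ℝ) ^ (κ0 + 1) := by rw [pow_succ]; ring
      _ ≤ _ := by
          have : 0 ≤ (S : ℝ) ^ (κ0 + 1) := by positivity
          linarith
  have hlG : 0 ≤ Real.log (1 + G) := Real.log_nonneg (by linarith)
  have h6 : (S : ℝ) ≤ 8 * ((p + (1 + Real.log Y)) + Real.log (1 + G)) := by
    rw [hS]
    push_cast
    linarith
  have h7 : δ / B * G ≤ ((p + (1 + Real.log Y)) + Real.log (1 + G)) ^ (κ0 + 1) := by
    have h8 : (S : ℝ) ^ (κ0 + 1) ≤
        8 ^ (κ0 + 1) * ((p + (1 + Real.log Y)) + Real.log (1 + G)) ^ (κ0 + 1) := by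
      rw [← mul_pow]
      exact pow_le_pow_left₀ (Nat.cast_nonneg _) h6 _
    have h9 : δ / B * G = (δ * G) / B := by ring
    rw [h9, div_le_iff₀ hBpos, hB]
    have h10 : (0 : ℝ) ≤ (C0 : ℝ) + 1 := by positivity
    calc δ * G ≤ ((C0 : ℝ) + 1) * (S : ℝ) ^ (κ0 + 1) := h4
      _ ≤ ((C0 : ℝ) + 1) * (8 ^ (κ0 + 1) *
          ((p + (1 + Real.log Y)) + Real.log (1 + G)) ^ (κ0 + 1)) := by gcongr
      _ = _ := by ring
  exact hsolve (p + (1 + Real.log Y)) G (by linarith) hG0.le h7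

/-- close at the infinite place -/
def Near0 (n : ℕ) (δ K Y : ℝ) (q : ℕ × ℕ) : Prop :=
  0 < q.1 ∧ q.1 < q.2 ∧ Nat.Coprime q.1 q.2 ∧ (prs q).card ≤ n ∧ (∀ l ∈ prs q, (l : ℝ) ≤ Y) ∧
    Y ^ K ≤ (q.2 : ℝ) ∧ ((q.2 - q.1 : ℕ) : ℝ) ≤ (q.2 : ℝ) ^ (1 - δ)

/-- **few pairs are close at the infinite place** -/
theorem near_all (n : ℕ) (δ ε : ℝ) (hδ : 0 < δ) (hε : 0 < ε) : ∃ K C : ℝ, 0 < K ∧ 0 < C ∧
    ∀ Y : ℝ, 1 ≤ Y → ∀ Q : Finset (ℕ × ℕ), (∀ q ∈ Q, Near0 n δ K Y q) →
      (Q.card : ℝ) ≤ C * Y ^ ε := by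
  classical
  obtain ⟨K, C, hK, hC, hcount⟩ := near_count n δ (ε / 2) hδ (by positivity)
  choose Ch κ hCh hh using fun m => arch_height m δ hδ
  obtain ⟨η, hη⟩ : ∃ η : ℝ, η = ε / (2 * (n + 1)) := ⟨_, rfl⟩
  have hη0 : 0 < η := by rw [hη]; positivity
  choose D hD hlog using fun m => log_pow_le_rpow (κ m) η hη0
  obtain ⟨B, hB⟩ : ∃ B : ℝ, B = ∑ m ∈ Finset.range (n + 1), Ch m * D m + 1 := ⟨_, rfl⟩
  have hsum0 : 0 ≤ ∑ m ∈ Finset.range (n + 1), Ch m * D m :=
    Finset.sum_nonneg (fun m _ => by have := hCh m; have := hD m; positivity)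
  have hB1 : 1 ≤ B := by rw [hB]; linarith
  refine ⟨K, C * B ^ n, hK, by positivity, ?_⟩
  intro Y hY Q hQ
  have hY0 : 0 < Y := by linarith
  have hYη : 1 ≤ Y ^ η := Real.one_le_rpow hY hη0.le
  have key := hcount Y (B * Y ^ η) hY (by nlinarith) Q (by
    intro q hq
    obtain ⟨h1, h2, h3, h4, h5, h6, h7⟩ := hQ q hq
    refine ⟨h1, h2, h3, h4, h5, h6, h7, ?_⟩
    have h8 := hh (prs q).card Y hY q h1 h2 h3 rfl h5 h7
    have h9 := hlog (prs q).card Y hY
    have h10 : Ch (prs q).card * D (prs q).card ≤ B := by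
      rw [hB]
      have := Finset.single_le_sum (f := fun m => Ch m * D m)
        (fun m _ => by have := hCh m; have := hD m; positivity)
        (Finset.mem_range.mpr (by omega : (prs q).card < n + 1))
      linarith
    calc Real.log q.2 ≤ Ch (prs q).card * (1 + Real.log Y) ^ κ (prs q).card := h8
      _ ≤ Ch (prs q).card * (D (prs q).card * Y ^ η) := by
          apply mul_le_mul_of_nonneg_left h9 (hCh _).le
      _ = (Ch (prs q).card * D (prs q).card) * Y ^ η := by ring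
      _ ≤ B * Y ^ η := mul_le_mul_of_nonneg_right h10 (by positivity))
  refine key.trans ?_
  rw [mul_pow]
  have h1 : (Y ^ η) ^ n * Y ^ (ε / 2) ≤ Y ^ ε := by
    rw [← Real.rpow_natCast, ← Real.rpow_mul hY0.le, ← Real.rpow_add hY0]
    apply Real.rpow_le_rpow_of_exponent_le hY
    have hn0 : (0 : ℝ) ≤ n := Nat.cast_nonneg _
    have : η * n ≤ ε / 2 := by
      rw [hη, div_mul_eq_mul_div, div_le_div_iff₀ (by positivity) (by norm_num)]
      nlinarith
    linarith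
  calc C * (B ^ n * (Y ^ η) ^ n) * Y ^ (ε / 2) = C * B ^ n * ((Y ^ η) ^ n * Y ^ (ε / 2)) := by ring
    _ ≤ C * B ^ n * Y ^ ε := mul_le_mul_of_nonneg_left h1 (by positivity)

/-- close at the prime `p` -/
def PadClose (n : ℕ) (δ K Y : ℝ) (p : ℕ) (s : ℤ) (q : ℕ × ℕ) : Prop :=
  0 < q.1 ∧ q.1 < q.2 ∧ Nat.Coprime q.1 q.2 ∧ (prs q).card ≤ n ∧ (∀ l ∈ prs q, (l : ℝ) ≤ Y) ∧
    Y ^ K ≤ (q.2 : ℝ) ∧ ∃ k : ℕ, ((p ^ k : ℕ) : ℤ) ∣ (q.2 : ℤ) - s * q.1 ∧
      (q.2 : ℝ) ^ δ ≤ (p : ℝ) ^ k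

/-- **few pairs are close at a small prime** -/
theorem padic_all (n : ℕ) (δ ε : ℝ) (hδ : 0 < δ) (hε : 0 < ε) : ∃ K C η : ℝ, 0 < K ∧ 0 < C ∧
    0 < η ∧ η ≤ 1 ∧ ∀ Y : ℝ, 1 ≤ Y → ∀ p : ℕ, p.Prime → (p : ℝ) ≤ Y ^ η → ∀ s : ℤ,
      (s = 1 ∨ s = -1) → ∀ Q : Finset (ℕ × ℕ), (∀ q ∈ Q, PadClose n δ K Y p s q) →
      (Q.card : ℝ) ≤ C * Y ^ ε := by
  classical
  obtain ⟨K0, C, hC, hcount⟩ := padic_count n (ε / 2) (by positivity)
  choose Ch κ hCh hh using fun m => padic_height m δ hδ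
  obtain ⟨κs, hκs⟩ : ∃ κs : ℕ, κs = ∑ m ∈ Finset.range (n + 1), κ m := ⟨_, rfl⟩
  have hκm : ∀ m ≤ n, κ m ≤ κs := by
    intro m hm
    rw [hκs]
    exact Finset.single_le_sum (f := κ) (fun _ _ => Nat.zero_le _)
      (Finset.mem_range.mpr (by omega))
  obtain ⟨η, hη⟩ : ∃ η : ℝ, η = min 1 (ε / (2 * (n + 1) * (κs + 1))) := ⟨_, rfl⟩
  have hη0 : 0 < η := by rw [hη]; positivity
  have hη1 : η ≤ 1 := by rw [hη]; exact min_le_left _ _
  have hη2 : η ≤ ε / (2 * (n + 1) * (κs + 1)) := by rw [hη]; exact min_le_right _ _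
  obtain ⟨D, hD, hlog⟩ := log_pow_le_rpow 1 η hη0
  obtain ⟨B, hB⟩ : ∃ B : ℝ, B = (∑ m ∈ Finset.range (n + 1), Ch m + 1) * (1 + D) ^ κs := ⟨_, rfl⟩
  have hsum0 : 0 ≤ ∑ m ∈ Finset.range (n + 1), Ch m := Finset.sum_nonneg (fun m _ => (hCh m).le)
  have hB1 : 1 ≤ B := by
    rw [hB]
    have h1 : 1 ≤ (1 + D) ^ κs := one_le_pow₀ (by linarith)
    nlinarith
  -- the tallness constant
  obtain ⟨K, hKdef⟩ : ∃ K : ℝ, K = (κs + 3 + 3 * K0 + Real.log (2 * B) / Real.log 2) / δ :=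
    ⟨_, rfl⟩
  have hl2 : 0 < Real.log 2 := Real.log_pos (by norm_num)
  have hlB : 0 ≤ Real.log (2 * B) := Real.log_nonneg (by linarith)
  have hK : 0 < K := by rw [hKdef]; positivity
  refine ⟨K, C * (4 * B) ^ n, η, hK, by positivity, hη0, hη1, ?_⟩
  intro Y hY p hp hpY s hs Q hQ
  have hY0 : 0 < Y := by linarith
  rcases lt_or_ge Y 2 with hY2 | hY2
  · have hQe : Q = ∅ := by
      rw [Finset.eq_empty_iff_forall_notMem]
      intro q hq
      obtain ⟨h1, h2, h3, h4, h5, h6, h7⟩ := hQ q hq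
      obtain ⟨l, hl⟩ := prs_nonempty h1 h2
      have h9 := h5 l hl
      have h10 : 2 ≤ l := (Nat.prime_of_mem_primeFactors hl).two_le
      have h11 : (2 : ℝ) ≤ l := by exact_mod_cast h10
      linarith
    rw [hQe, Finset.card_empty]
    push_cast
    positivity
  obtain ⟨A, hA⟩ : ∃ A : ℕ, A = ⌊Y⌋₊ := ⟨_, rfl⟩
  have hA2 : 2 ≤ A := by rw [hA]; exact Nat.le_floor (by push_cast; linarith)
  have hAY : (A : ℝ) ≤ Y := by rw [hA]; exact Nat.floor_le (by linarith)
  have hpA : p ≤ A := by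
    rw [hA]
    apply Nat.le_floor
    calc (p : ℝ) ≤ Y ^ η := hpY
      _ ≤ Y ^ (1 : ℝ) := Real.rpow_le_rpow_of_exponent_le hY hη1
      _ = Y := Real.rpow_one Y
  have hYη : 1 ≤ Y ^ η := Real.one_le_rpow hY hη0.le
  -- the height bound
  obtain ⟨H, hH⟩ : ∃ H : ℝ, H = B * (Y ^ η) ^ κs := ⟨_, rfl⟩
  have hH1 : 1 ≤ H := by
    rw [hH]
    have : 1 ≤ (Y ^ η) ^ κs := one_le_pow₀ hYη
    nlinarith
  have hheight : ∀ q ∈ Q, Real.log q.2 ≤ H := by
    intro q hq
    obtain ⟨h1, h2, h3, h4, h5, h6, k, h7, h8⟩ := hQ q hq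
    have h9 := hh (prs q).card Y hY p k hp s hs q h1 h2 h3 rfl h5 h7 h8
    have h10 : p + (1 + Real.log Y) ≤ (1 + D) * Y ^ η := by
      have := hlog Y hY
      rw [pow_one] at this
      linarith
    have h11 : 1 ≤ (1 + D) * Y ^ η := by nlinarith
    have h12 : 0 ≤ p + (1 + Real.log Y) := by
      have := Real.log_nonneg hY
      positivity
    have h13 : Ch (prs q).card ≤ ∑ m ∈ Finset.range (n + 1), Ch m + 1 := by
      have := Finset.single_le_sum (f := Ch) (fun m _ => (hCh m).le)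
        (Finset.mem_range.mpr (by omega : (prs q).card < n + 1))
      linarith
    calc Real.log q.2 ≤ Ch (prs q).card * (p + (1 + Real.log Y)) ^ κ (prs q).card := h9
      _ ≤ Ch (prs q).card * ((1 + D) * Y ^ η) ^ κ (prs q).card := by
          have := hCh (prs q).card
          gcongr
      _ ≤ Ch (prs q).card * ((1 + D) * Y ^ η) ^ κs := by
          have := hCh (prs q).card
          have h14 := pow_le_pow_right₀ h11 (hκm _ h4)
          gcongr
      _ ≤ (∑ m ∈ Finset.range (n + 1), Ch m + 1) * ((1 + D) * Y ^ η) ^ κs := by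
          gcongr
      _ = H := by rw [hH, hB, mul_pow]; ring
  obtain ⟨E, hE⟩ : ∃ E : ℕ, E = ⌊H / Real.log 2⌋₊ := ⟨_, rfl⟩
  have hE4 : ((2 * E + 1 : ℕ) : ℝ) ≤ 4 * H := by rw [hE]; exact two_E_le hH1
  have hE2 : (E : ℝ) ≤ 2 * H := by
    push_cast at hE4
    linarith
  -- the exponent `M`
  have hp2 : (2 : ℝ) ≤ p := by exact_mod_cast hp.two_le
  have hp0 : (0 : ℝ) < p := by linarith
  have hlp : 0 < Real.log p := Real.log_pos (by linarith)
  obtain ⟨M, hM⟩ : ∃ M : ℕ, M = ⌊K * δ * Real.log Y / Real.log p⌋₊ := ⟨_, rfl⟩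
  have hlY : 0 ≤ Real.log Y := Real.log_nonneg hY
  have hM1 : (p : ℝ) ^ M ≤ Y ^ (K * δ) := by
    have h1 : (M : ℝ) * Real.log p ≤ K * δ * Real.log Y := by
      rw [hM]
      have := Nat.floor_le (by positivity : 0 ≤ K * δ * Real.log Y / Real.log p)
      rwa [le_div_iff₀ hlp] at this
    have h2 : Real.log ((p : ℝ) ^ M) ≤ Real.log (Y ^ (K * δ)) := by
      rw [Real.log_pow, Real.log_rpow hY0]
      exact h1
    exact (Real.log_le_log_iff (by positivity) (by positivity)).mp h2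
  have hM2 : Y ^ (K * δ) ≤ (p : ℝ) ^ (M + 1) := by
    have h1 : K * δ * Real.log Y ≤ ((M : ℝ) + 1) * Real.log p := by
      rw [hM]
      have := (Nat.lt_floor_add_one (K * δ * Real.log Y / Real.log p)).le
      rwa [div_le_iff₀ hlp] at this
    have h2 : Real.log (Y ^ (K * δ)) ≤ Real.log ((p : ℝ) ^ (M + 1)) := by
      rw [Real.log_pow, Real.log_rpow hY0]
      push_cast
      exact h1
    exact (Real.log_le_log_iff (by positivity) (by positivity)).mp h2
  have hEM : E * A ^ (3 * K0) ≤ p ^ M := by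
    have h1 : (E : ℝ) * (A : ℝ) ^ (3 * K0) ≤ (p : ℝ) ^ M := by
      have h2 : (p : ℝ) * ((E : ℝ) * (A : ℝ) ^ (3 * K0)) ≤ (p : ℝ) ^ (M + 1) := by
        refine le_trans ?_ hM2
        have h3 : (A : ℝ) ^ (3 * K0) ≤ Y ^ (3 * K0) := pow_le_pow_left₀ (by positivity) hAY _
        have h4 : (Y ^ η) ^ κs ≤ Y ^ κs := by
          apply pow_le_pow_left₀ (by positivity)
          calc Y ^ η ≤ Y ^ (1 : ℝ) := Real.rpow_le_rpow_of_exponent_le hY hη1
            _ = Y := Real.rpow_one Y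
        have h5 : (p : ℝ) ≤ Y := by
          have : (p : ℝ) ≤ A := by exact_mod_cast hpA
          linarith
        have h6 : 2 * B ≤ Y ^ (Real.log (2 * B) / Real.log 2) := by
          calc 2 * B = Real.exp (Real.log (2 * B)) := (Real.exp_log (by linarith)).symm
            _ = (2 : ℝ) ^ (Real.log (2 * B) / Real.log 2) := by
                rw [Real.rpow_def_of_pos (by norm_num)]
                congr 1
                field_simp
            _ ≤ Y ^ (Real.log (2 * B) / Real.log 2) :=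
                Real.rpow_le_rpow (by norm_num) hY2 (by positivity)
        have hKδ : K * δ = κs + 3 + 3 * K0 + Real.log (2 * B) / Real.log 2 := by
          rw [hKdef]
          field_simp
        calc (p : ℝ) * ((E : ℝ) * (A : ℝ) ^ (3 * K0))
            ≤ Y * ((2 * (B * Y ^ κs)) * Y ^ (3 * K0)) := by
              have h7 : (E : ℝ) ≤ 2 * (B * Y ^ κs) := by
                refine hE2.trans ?_
                rw [hH]
                gcongr
              gcongr
          _ = (2 * B) * Y ^ (κs + 1 + 3 * K0) := by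
              rw [pow_add, pow_add, pow_one]
              ring
          _ ≤ Y ^ (Real.log (2 * B) / Real.log 2) * Y ^ (κs + 1 + 3 * K0) := by gcongr
          _ = Y ^ (Real.log (2 * B) / Real.log 2 + ((κs + 1 + 3 * K0 : ℕ) : ℝ)) := by
              rw [Real.rpow_add hY0, Real.rpow_natCast]
          _ ≤ Y ^ (K * δ) := by
              apply Real.rpow_le_rpow_of_exponent_le hY
              rw [hKδ]
              push_cast
              linarith
      rw [pow_succ'] at h2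
      exact le_of_mul_le_mul_left h2 hp0
    exact_mod_cast h1
  -- the unit
  have hsu : IsUnit ((s : ℤ) : ZMod (p ^ M)) := by
    rcases hs with rfl | rfl
    · simp
    · simp
  obtain ⟨κu, hκu⟩ := hsu
  have key := hcount A p E M hA2 hp hpA hEM κu Q (by
    intro q hq
    obtain ⟨h1, h2, h3, h4, h5, h6, k, h7, h8⟩ := hQ q hq
    have h9 := hheight q hq
    have hE2' : q.2 < 2 ^ (E + 1) := by rw [hE]; exact lt_two_pow_of_log (h1.trans h2) h9
    have hMk : M ≤ k := by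
      have h10 : (p : ℝ) ^ M ≤ (p : ℝ) ^ k := by
        calc (p : ℝ) ^ M ≤ Y ^ (K * δ) := hM1
          _ = (Y ^ K) ^ δ := by rw [Real.rpow_mul hY0.le]
          _ ≤ (q.2 : ℝ) ^ δ := Real.rpow_le_rpow (by positivity) h6 hδ.le
          _ ≤ (p : ℝ) ^ k := h8
      exact (pow_le_pow_iff_right₀ (by linarith : (1 : ℝ) < p)).mp h10
    refine ⟨h1, h1.trans h2, h3, h4, h2.trans hE2', hE2', ?_, ?_⟩
    · intro l hl
      refine ⟨by rw [hA]; exact Nat.le_floor (h5 l hl), ?_⟩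
      rintro rfl
      -- `p` would divide a member
      have hq2 : (1 : ℝ) < q.2 := by exact_mod_cast (by omega : 1 < q.2)
      have hk : k ≠ 0 := by
        rintro rfl
        rw [pow_zero] at h8
        have := Real.one_lt_rpow hq2 hδ
        linarith
      have hpd : (l : ℤ) ∣ (q.2 : ℤ) - s * q.1 := by
        refine dvd_trans ?_ h7
        push_cast
        exact dvd_pow_self _ hk
      have hs2 : s * s = 1 := by rcases hs with rfl | rfl <;> norm_num
      unfold prs at hl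
      have hd := Nat.dvd_of_mem_primeFactors hl
      have hboth : l ∣ q.1 ∧ l ∣ q.2 := by
        rcases (Nat.Prime.dvd_mul hp).mp hd with h | h
        · refine ⟨h, ?_⟩
          have h3 : (l : ℤ) ∣ s * q.1 := Dvd.dvd.mul_left (Int.natCast_dvd_natCast.mpr h) s
          have := dvd_add hpd h3
          rw [sub_add_cancel] at this
          exact Int.natCast_dvd_natCast.mp this
        · refine ⟨?_, h⟩
          have h2 : (l : ℤ) ∣ s * q.1 := by
            have := dvd_sub (Int.natCast_dvd_natCast.mpr h : (l : ℤ) ∣ (q.2 : ℤ)) hpd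
            rwa [sub_sub_cancel] at this
          have h3 : (l : ℤ) ∣ (q.1 : ℤ) := by
            have h4 := Dvd.dvd.mul_left h2 s
            rwa [← mul_assoc, hs2, one_mul] at h4
          exact Int.natCast_dvd_natCast.mp h3
      have := Nat.dvd_gcd hboth.1 hboth.2
      rw [h3] at this
      exact hp.one_lt.ne' (Nat.dvd_one.mp this)
    · rw [hκu]
      have h10 : ((q.2 : ℤ) : ZMod (p ^ M)) = ((s * q.1 : ℤ) : ZMod (p ^ M)) := by
        rw [← sub_eq_zero, ← Int.cast_sub, ZMod.intCast_zmod_eq_zero_iff_dvd]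
        refine dvd_trans ?_ h7
        push_cast
        exact pow_dvd_pow _ hMk
      push_cast at h10
      exact h10)
  refine key.trans ?_
  have hE1 : (2 * (E : ℝ) + 1) ^ n ≤ (4 * H) ^ n := by
    push_cast at hE4
    gcongr
  have hAε : (A : ℝ) ^ (ε / 2) ≤ Y ^ (ε / 2) :=
    Real.rpow_le_rpow (by positivity) hAY (by positivity)
  have h1 : ((Y ^ η) ^ κs) ^ n * Y ^ (ε / 2) ≤ Y ^ ε := by
    rw [← pow_mul, ← Real.rpow_natCast, ← Real.rpow_mul hY0.le, ← Real.rpow_add hY0]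
    apply Real.rpow_le_rpow_of_exponent_le hY
    have hn0 : (0 : ℝ) ≤ n := Nat.cast_nonneg _
    have hk0 : (0 : ℝ) ≤ κs := Nat.cast_nonneg _
    have h2 : η * ((κs * n : ℕ) : ℝ) ≤ ε / 2 := by
      push_cast
      calc η * (κs * n) ≤ ε / (2 * (n + 1) * (κs + 1)) * (κs * n) := by gcongr
        _ ≤ ε / 2 := by
            rw [div_mul_eq_mul_div, div_le_div_iff₀ (by positivity) (by norm_num)]
            nlinarith [mul_nonneg hn0 hk0, mul_nonneg hε.le (mul_nonneg hn0 hk0),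
              mul_nonneg hε.le hn0, mul_nonneg hε.le hk0]
    linarith
  calc C * (2 * (E : ℝ) + 1) ^ n * (A : ℝ) ^ (ε / 2) ≤ C * (4 * H) ^ n * Y ^ (ε / 2) := by gcongr
    _ = C * (4 * B) ^ n * (((Y ^ η) ^ κs) ^ n * Y ^ (ε / 2)) := by
        rw [hH, show 4 * (B * (Y ^ η) ^ κs) = (4 * B) * (Y ^ η) ^ κs by ring, mul_pow]
        ring
    _ ≤ C * (4 * B) ^ n * Y ^ ε := mul_le_mul_of_nonneg_left h1 (by positivity)

end Pool.Agent.Y913
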