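import Pool.Agent.Y913.KeyA
import Pool.Agent.Y913.KeyP

/-!
Choice of parameters in the two key lemmas.
-/

set_option autoImplicit false

namespace Pool.Agent.Y913

open Finset

/-- parameters -/
def BB (n w : ℕ) : ℕ := 14 * n + 2 * w * n ^ 2

def DD (n w : ℕ) : ℕ := 2 * BB n w ^ n

def KK (n w : ℕ) : ℕ := BB n w * DD n w

def mm (n w : ℕ) : ℕ := 2 ^ ((n + 1) * n) * DD n w ^ n + 1

lemma BB_pos {n : ℕ} (hn : 1 ≤ n) (w : ℕ) : 14 ≤ BB n w := by
  unfold BB
  have : 0 ≤ 2 * w * n ^ 2 := Nat.zero_le _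
  omega

lemma DD_pos {n : ℕ} (hn : 1 ≤ n) (w : ℕ) : 28 ≤ DD n w := by
  unfold DD
  have h1 := BB_pos hn w
  have h2 : BB n w ^ 1 ≤ BB n w ^ n := Nat.pow_le_pow_right (by omega) hn
  rw [pow_one] at h2
  omega

lemma BB_le_DD {n : ℕ} (hn : 1 ≤ n) (w : ℕ) : BB n w ≤ DD n w := by
  unfold DD
  have h1 := BB_pos hn w
  have h2 : BB n w ^ 1 ≤ BB n w ^ n := Nat.pow_le_pow_right (by omega) hn
  rw [pow_one] at h2
  omega

lemma choose_gt {w b : ℕ} (hw : 1 ≤ w) : b ^ w < (w * (b + 1)).choose w := by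
  have h1 : ((w * (b + 1) + 1 - w : ℕ) : ℚ) ^ w ≤
      (w.factorial : ℚ) * ((w * (b + 1)).choose w : ℚ) := by
    have h := Nat.pow_le_choose (α := ℚ) w (w * (b + 1))
    rw [div_le_iff₀ (by positivity)] at h
    linarith
  have h2 : w * (b + 1) + 1 - w = w * b + 1 := by
    have : w * (b + 1) = w * b + w := by ring
    omega
  rw [h2] at h1
  have h3 : (w * b + 1) ^ w ≤ w.factorial * (w * (b + 1)).choose w := by exact_mod_cast h1
  have h4 : (w * b) ^ w < (w * b + 1) ^ w := Nat.pow_lt_pow_left (by omega) (by omega)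
  have h5 : w.factorial * b ^ w ≤ (w * b) ^ w := by
    rw [mul_pow]
    exact Nat.mul_le_mul_right _ (Nat.factorial_le_pow w)
  have h6 : w.factorial * b ^ w < w.factorial * (w * (b + 1)).choose w := by omega
  exact lt_of_mul_lt_mul_left h6 (Nat.zero_le _)

/-- **Key Lemma, `p`-adic form, with parameters chosen** -/
theorem key_padic' {ι τ T : Type} [Fintype τ] [DecidableEq τ] [Fintype T]
    (n : ℕ) (hn : n = Fintype.card τ + 1)
    (p h Y w M ν b : ℕ) (hp : p.Prime) (hh : 1 ≤ h) (h2 : p = 2 → 2 ≤ h)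
    (hY : 1 ≤ Y) (hw : 1 ≤ w) (hYp : Y ≤ p ^ h) (hmM : ν + h * KK n w ≤ M)
    (φ : Option τ → ℤ)
    (hφ : ∀ j, (p : ℤ) ^ ν ∣ φ j) (hφ0 : ¬ (p : ℤ) ^ (ν + 1) ∣ φ none)
    (S : Finset ι) (x : ι → Option τ → ℕ) (hx : ∀ i ∈ S, ∀ j, (x i j).Prime)
    (hxY : ∀ i ∈ S, ∀ j, x i j ≤ Y) (hxp : ∀ i ∈ S, ∀ j, x i j ≠ p)
    (hinj : ∀ i ∈ S, ∀ j, ∀ i' ∈ S, ∀ j', x i j = x i' j' → i = i' ∧ j = j')
    (κ : ι → (ZMod (p ^ M))ˣ)
    (hrel : ∀ i ∈ S, ∏ j, (ud (p ^ M) (x i j)) ^ φ j = κ i)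
    (lab : Finset ι → T)
    (hlab : ∀ W ⊆ S, ∀ W' ⊆ S, W.card = w → W'.card = w → lab W = lab W' →
      ∏ i ∈ W, κ i = ∏ i ∈ W', κ i)
    (hb : (p ^ h) ^ n * Fintype.card T ≤ b ^ w) :
    S.card < mm n w * (w * (b + 1)) := by
  have hn1 : 1 ≤ n := by omega
  have hB := BB_pos hn1 w
  have hD := DD_pos hn1 w
  have hp2 : 2 ≤ p := hp.two_le
  have hA2 : 2 ≤ p ^ h := hp2.trans (Nat.le_self_pow (by omega) p)
  have hcardτ : Fintype.card τ = n - 1 := by omega
  have hDB : DD n w = 2 * BB n w ^ n := rfl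
  have hKK : KK n w = BB n w * DD n w := rfl
  have hpig : (p ^ (h * KK n w)) ^ (KK n w ^ Fintype.card τ) <
      ((p ^ h) ^ (BB n w ^ n) + 1) ^ (DD n w ^ (Fintype.card τ + 1)) := by
    have e1 : (p ^ (h * KK n w)) ^ (KK n w ^ Fintype.card τ) = (p ^ h) ^ (KK n w ^ n) := by
      rw [pow_mul, ← pow_mul, ← pow_mul, ← pow_mul, hn, pow_succ (KK _ w)]
      congr 1
      ring
    have e2 : KK n w ^ n = BB n w ^ n * DD n w ^ (Fintype.card τ + 1) := by
      rw [hKK, mul_pow, hn]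
    rw [e1, e2, pow_mul]
    apply Nat.pow_lt_pow_left (by omega)
    positivity
  have hsize : DD n w ^ (Fintype.card τ + 1) *
      ((p ^ h) ^ (BB n w ^ n) * (((Y ^ w) ^ (Fintype.card τ + 1)) ^ (DD n w - 1)) ^
        (Fintype.card τ + 1)) < p ^ (h * KK n w) := by
    rw [← hn]
    have e1 : DD n w ^ n < (2 ^ DD n w) ^ n := Nat.pow_lt_pow_left Nat.lt_two_pow_self (by omega)
    have e2 : (2 ^ DD n w) ^ n ≤ (p ^ h) ^ (DD n w * n) := by
      rw [← pow_mul]
      exact Nat.pow_le_pow_left hA2 _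
    have e3 : (((Y ^ w) ^ n) ^ (DD n w - 1)) ^ n ≤ (p ^ h) ^ (w * n * (DD n w) * n) := by
      rw [← pow_mul, ← pow_mul, ← pow_mul]
      refine (Nat.pow_le_pow_left hYp _).trans (Nat.pow_le_pow_right (by omega) ?_)
      calc w * (n * ((DD n w - 1) * n)) ≤ w * (n * (DD n w * n)) :=
            Nat.mul_le_mul_left _ (Nat.mul_le_mul_left _
              (Nat.mul_le_mul_right _ (Nat.sub_le _ _)))
        _ = w * n * DD n w * n := by ring
    calc DD n w ^ n * ((p ^ h) ^ (BB n w ^ n) * (((Y ^ w) ^ n) ^ (DD n w - 1)) ^ n)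
        < (p ^ h) ^ (DD n w * n) * ((p ^ h) ^ (BB n w ^ n) * (p ^ h) ^ (w * n * (DD n w) * n)) := by
          have h1 : DD n w ^ n < (p ^ h) ^ (DD n w * n) := lt_of_lt_of_le e1 e2
          calc DD n w ^ n * ((p ^ h) ^ (BB n w ^ n) * (((Y ^ w) ^ n) ^ (DD n w - 1)) ^ n)
              ≤ DD n w ^ n * ((p ^ h) ^ (BB n w ^ n) * (p ^ h) ^ (w * n * (DD n w) * n)) := by
                gcongr
            _ < _ := by
                apply Nat.mul_lt_mul_of_pos_right h1
                positivity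
      _ = (p ^ h) ^ (DD n w * n + (BB n w ^ n + w * n * (DD n w) * n)) := by
          rw [pow_add, pow_add]
      _ ≤ (p ^ h) ^ (KK n w) := by
          apply Nat.pow_le_pow_right (by omega)
          rw [hKK]
          have e4 : BB n w ^ n ≤ DD n w := by rw [hDB]; omega
          have e5 : BB n w * DD n w = 14 * n * DD n w + 2 * w * n ^ 2 * DD n w := by
            unfold BB
            ring
          rw [e5]
          have e6 : w * n * DD n w * n = w * n ^ 2 * DD n w := by ring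
          rw [e6]
          have e7 : DD n w ≤ n * DD n w := Nat.le_mul_of_pos_left _ hn1
          have e8 : 14 * n * DD n w = 14 * (n * DD n w) := by ring
          have e9 : 2 * w * n ^ 2 * DD n w = 2 * (w * n ^ 2 * DD n w) := by ring
          have e10 : DD n w * n = n * DD n w := mul_comm _ _
          rw [e8, e9, e10]
          omega
      _ = p ^ (h * KK n w) := by rw [pow_mul]
  have key := key_padic p h (KK n w) (DD n w) ((p ^ h) ^ (BB n w ^ n)) Y w M ν (w * (b + 1))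
    hp hh h2 (by rw [hKK]; exact Nat.mul_pos (by omega) (by omega)) (by omega) hY hmM hpig hsize
    φ hφ hφ0 S x hx hxY hxp hinj κ hrel lab hlab (by
      rw [← hn]
      exact lt_of_le_of_lt hb (choose_gt hw))
  rw [← hn] at key
  exact key

/-- **Key Lemma, archimedean form, with parameters chosen** -/
theorem key_arch' {ι τ T : Type} [Fintype τ] [DecidableEq τ] [Fintype T]
    (n : ℕ) (hn : n = Fintype.card τ + 1)
    (A Y w b : ℕ) (hY : 1 ≤ Y) (hw : 1 ≤ w) (hA2 : 2 ≤ A) (hYA : Y ≤ A)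
    (η : ℝ) (hη0 : 0 ≤ η) (hη : η * (A : ℝ) ^ (KK n w) ≤ 1)
    (φ : Option τ → ℤ) (hφ0 : φ none ≠ 0) (hφ : ∀ j, |φ j| ≤ |φ none|)
    (S : Finset ι) (x : ι → Option τ → ℕ) (hx : ∀ i ∈ S, ∀ j, (x i j).Prime)
    (hxY : ∀ i ∈ S, ∀ j, x i j ≤ Y)
    (hinj : ∀ i ∈ S, ∀ j, ∀ i' ∈ S, ∀ j', x i j = x i' j' → i = i' ∧ j = j')
    (κ : ι → ℝ)
    (hrel : ∀ i ∈ S, |∑ j, (φ j : ℝ) * Real.log (x i j) - κ i| ≤ η)
    (lab : Finset ι → T)
    (hlab : ∀ W ⊆ S, ∀ W' ⊆ S, W.card = w → W'.card = w → lab W = lab W' →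
      ∑ i ∈ W, κ i = ∑ i ∈ W', κ i)
    (hb : (4 * n * w * DD n w * A ^ 2) ^ n * Fintype.card T ≤ b ^ w) :
    S.card < mm n w * (w * (b + 1)) := by
  have hn1 : 1 ≤ n := by omega
  have hB := BB_pos hn1 w
  have hD := DD_pos hn1 w
  have hcardτ : Fintype.card τ = n - 1 := by omega
  have hDB : DD n w = 2 * BB n w ^ n := rfl
  have hKK : KK n w = BB n w * DD n w := rfl
  have hBD : BB n w ≤ DD n w := BB_le_DD hn1 w
  have hmm : mm n w = 2 ^ ((n + 1) * n) * DD n w ^ n + 1 := rfl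
  have hBdef : BB n w = 14 * n + 2 * w * n ^ 2 := rfl
  rw [hmm]
  clear hmm
  generalize DD n w = D at *
  generalize KK n w = K at *
  generalize BB n w = B at *
  obtain ⟨r, hr⟩ : ∃ r, r = K ^ (n - 1) := ⟨_, rfl⟩
  obtain ⟨L, hL⟩ : ∃ L, L = D ^ n := ⟨_, rfl⟩
  obtain ⟨Z', hZ'⟩ : ∃ Z', Z' = A ^ (w * n ^ 2 * D) := ⟨_, rfl⟩
  obtain ⟨e, he⟩ : ∃ e, e = 4 + 3 * n * D + w * n ^ 2 * D := ⟨_, rfl⟩
  obtain ⟨H, hH⟩ : ∃ H, H = A ^ e := ⟨_, rfl⟩
  obtain ⟨N, hN⟩ : ∃ N, N = 4 * r * Z' := ⟨_, rfl⟩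
  obtain ⟨R, hR⟩ : ∃ R, R = 2 * n * D * A := ⟨_, rfl⟩
  have hKpos : 1 ≤ K := by rw [hKK]; exact Nat.mul_pos (by omega) (by omega)
  have hrpos : 1 ≤ r := by rw [hr]; exact Nat.one_le_pow _ _ hKpos
  have hApos : 1 ≤ A := by omega
  have hZpos : 1 ≤ Z' := by rw [hZ']; exact Nat.one_le_pow _ _ hApos
  have hHpos : 1 ≤ H := by rw [hH]; exact Nat.one_le_pow _ _ hApos
  have hLpos : 1 ≤ L := by rw [hL]; exact Nat.one_le_pow _ _ (by omega)
  have hwD : w ≤ D := by
    refine le_trans ?_ hBD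
    rw [hBdef]
    have : 1 ≤ n ^ 2 := Nat.one_le_pow _ _ hn1
    have e1 := Nat.mul_le_mul_left w this
    have e2 : 2 * w * n ^ 2 = 2 * (w * n ^ 2) := by ring
    rw [e2]
    omega
  have hKn : K = 14 * n * D + 2 * w * n ^ 2 * D := by
    rw [hKK, hBdef]
    ring
  -- powers of two
  have hL2 : L ≤ 2 ^ (n * D) := by
    rw [hL, mul_comm n D, pow_mul]
    exact Nat.pow_le_pow_left Nat.lt_two_pow_self.le n
  have hLr : 2 * r ≤ L := by
    have e1 : r = B ^ (n - 1) * D ^ (n - 1) := by rw [hr, hKK, mul_pow]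
    have e2 : L = D ^ (n - 1) * D := by
      rw [hL, ← pow_succ]
      congr 1
      omega
    have e3 : B ^ (n - 1) ≤ B ^ n := Nat.pow_le_pow_right (by omega) (by omega)
    rw [e1, e2, hDB]
    calc 2 * (B ^ (n - 1) * (2 * B ^ n) ^ (n - 1)) = (2 * B ^ n) ^ (n - 1) * (2 * B ^ (n - 1)) := by
          ring
      _ ≤ _ := Nat.mul_le_mul_left _ (by omega)
  have hrL : r ≤ L := by omega
  have hpig : (2 * (D ^ (Fintype.card τ + 1) * H * N) + 1) ^ (K ^ Fintype.card τ) <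
      (H + 1) ^ (D ^ (Fintype.card τ + 1)) := by
    rw [← hn, hcardτ, ← hr, ← hL]
    have e1 : 2 * (L * H * N) + 1 ≤ A ^ (2 * e) := by
      have e2 : 2 * (L * H * N) + 1 ≤ 16 * (L * r) * (H * Z') := by
        rw [hN]
        have : 1 ≤ L * r * (H * Z') := Nat.mul_pos (Nat.mul_pos hLpos hrpos)
          (Nat.mul_pos hHpos hZpos)
        have e3 : L * H * (4 * r * Z') = 4 * (L * r * (H * Z')) := by ring
        have e5 : 16 * (L * r) * (H * Z') = 16 * (L * r * (H * Z')) := by ring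
        rw [e3, e5]
        omega
      have e4 : 16 * (L * r) ≤ A ^ (4 + 2 * (n * D)) := by
        calc 16 * (L * r) ≤ 2 ^ 4 * (2 ^ (n * D) * 2 ^ (n * D)) := by
              apply Nat.mul_le_mul (by norm_num)
              exact Nat.mul_le_mul hL2 (hrL.trans hL2)
          _ = 2 ^ (4 + 2 * (n * D)) := by ring
          _ ≤ _ := Nat.pow_le_pow_left hA2 _
      calc 2 * (L * H * N) + 1 ≤ 16 * (L * r) * (H * Z') := e2
        _ ≤ A ^ (4 + 2 * (n * D)) * (A ^ e * A ^ (w * n ^ 2 * D)) := by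
            rw [← hH, ← hZ']
            exact Nat.mul_le_mul_right _ e4
        _ = A ^ (4 + 2 * (n * D) + (e + w * n ^ 2 * D)) := by
            rw [pow_add A (4 + 2 * (n * D)), pow_add A e]
        _ ≤ A ^ (2 * e) := by
            apply Nat.pow_le_pow_right hApos
            have : 3 * n * D = 3 * (n * D) := by ring
            omega
    calc (2 * (L * H * N) + 1) ^ r ≤ (A ^ (2 * e)) ^ r := Nat.pow_le_pow_left e1 _
      _ = A ^ (e * (2 * r)) := by rw [← pow_mul]; congr 1; ring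
      _ ≤ A ^ (e * L) := Nat.pow_le_pow_right hApos (Nat.mul_le_mul_left _ hLr)
      _ = H ^ L := by rw [pow_mul, hH]
      _ < (H + 1) ^ L := Nat.pow_lt_pow_left (by omega) (by omega)
  have hAr : (0 : ℝ) < A := by exact_mod_cast hApos
  have hDr : (0 : ℝ) < D := by
    have : 0 < D := by omega
    exact_mod_cast this
  have hnr : (0 : ℝ) < n := by exact_mod_cast hn1
  have hn' : (Fintype.card τ : ℝ) + 1 = n := by rw [hn]; push_cast; ring
  have hη1 : η ≤ 1 / (A : ℝ) ^ K := by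
    rw [le_div_iff₀ (by positivity)]
    exact hη
  have hAK : ∀ k : ℕ, k ≤ K → ∀ c : ℕ, c ≤ 2 ^ k → (c : ℝ) * η ≤ 1 / (A : ℝ) ^ (K - k) := by
    intro k hk c hc
    have h1 : (c : ℝ) ≤ (A : ℝ) ^ k := by
      have : c ≤ A ^ k := hc.trans (Nat.pow_le_pow_left hA2 _)
      exact_mod_cast this
    calc (c : ℝ) * η ≤ (A : ℝ) ^ k * (1 / (A : ℝ) ^ K) :=
          mul_le_mul h1 hη1 hη0 (by positivity)
      _ = 1 / (A : ℝ) ^ (K - k) := by
          have : K = k + (K - k) := by omega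
          conv_lhs => rw [this, pow_add]
          field_simp
  -- the condition on `η`
  have hη2 : 2 * (D : ℝ) * (((Fintype.card τ : ℝ) + 1) * (2 * w * η)) ≤ 1 := by
    rw [hn']
    have h1 := hAK (2 + D + n + w) (by
      rw [hKn]
      have e9 : 14 * n * D = 14 * (n * D) := by ring
      have e11 : n ≤ n * D := Nat.le_mul_of_pos_right _ (by omega)
      have e12 : D ≤ n * D := Nat.le_mul_of_pos_left _ hn1
      rw [e9]
      omega) (4 * D * n * w) (by
      calc 4 * D * n * w ≤ 2 ^ 2 * 2 ^ D * 2 ^ n * 2 ^ w := by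
            apply Nat.mul_le_mul _ Nat.lt_two_pow_self.le
            apply Nat.mul_le_mul _ Nat.lt_two_pow_self.le
            exact Nat.mul_le_mul (by norm_num) Nat.lt_two_pow_self.le
        _ = _ := by ring)
    push_cast at h1
    have h2 : 1 / (A : ℝ) ^ (K - (2 + D + n + w)) ≤ 1 := by
      rw [div_le_one (by positivity)]
      exact one_le_pow₀ (by exact_mod_cast hApos)
    calc 2 * (D : ℝ) * ((n : ℝ) * (2 * w * η)) = 4 * D * n * w * η := by ring
      _ ≤ 1 := h1.trans h2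
  have hsR : (((Fintype.card τ : ℝ) + 1) * (1 / (R : ℝ))) * (2 * D * A) ≤ 1 := by
    rw [hn', hR]
    push_cast
    have : (n : ℝ) * (1 / (2 * n * D * A)) * (2 * D * A) = 1 := by
      field_simp
    exact this.le
  have hZsize : (((((Y ^ w : ℕ) : ℝ) ^ (Fintype.card τ + 1)) ^ (D - 1)) ^
      (Fintype.card τ + 1)) ≤ (Z' : ℝ) := by
    rw [← hn, hZ']
    have e3 : (((Y ^ w) ^ n) ^ (D - 1)) ^ n ≤ A ^ (w * n ^ 2 * D) := by
      rw [← pow_mul, ← pow_mul, ← pow_mul]
      refine (Nat.pow_le_pow_left hYA _).trans (Nat.pow_le_pow_right (by omega) ?_)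
      calc w * (n * ((D - 1) * n)) ≤ w * (n * (D * n)) :=
            Nat.mul_le_mul_left _ (Nat.mul_le_mul_left _
              (Nat.mul_le_mul_right _ (Nat.sub_le _ _)))
        _ = w * n ^ 2 * D := by ring
    exact_mod_cast e3
  have hm4 : (Fintype.card τ : ℝ) ≤ 2 ^ n := by
    have : Fintype.card τ ≤ 2 ^ n := by
      rw [hcardτ]
      exact (Nat.sub_le _ _).trans Nat.lt_two_pow_self.le
    exact_mod_cast this
  have h3m : 3 ^ Fintype.card τ ≤ 2 ^ (2 * n) := by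
    rw [hcardτ, pow_mul]
    exact (Nat.pow_le_pow_left (by norm_num) _).trans
      (Nat.pow_le_pow_right (by norm_num) (Nat.sub_le _ _))
  have hsize : ((D ^ (Fintype.card τ + 1) : ℕ) * (H * (3 ^ Fintype.card τ *
        (2 * D * ((Fintype.card τ + 1) * (2 * w * η)) +
          2 * Fintype.card τ * (1 / (A : ℝ)) ^ K))) +
      (K ^ Fintype.card τ : ℕ) * (1 / (N : ℝ))) *
      (((((Y ^ w : ℕ) : ℝ) ^ (Fintype.card τ + 1)) ^ (D - 1)) ^ (Fintype.card τ + 1)) < 1 := by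
    have hpos : 0 ≤ ((D ^ (Fintype.card τ + 1) : ℕ) * (H * (3 ^ Fintype.card τ *
        (2 * D * (((Fintype.card τ : ℝ) + 1) * (2 * w * η)) +
          2 * Fintype.card τ * (1 / (A : ℝ)) ^ K))) +
      (K ^ Fintype.card τ : ℕ) * (1 / (N : ℝ))) := by positivity
    refine lt_of_le_of_lt (mul_le_mul_of_nonneg_left hZsize hpos) ?_
    rw [hn', ← hn, hcardτ, ← hL, ← hr, ← hcardτ]
    -- three terms
    have hcAH : ∀ (c k : ℕ) (y : ℝ), c * L ≤ 2 ^ k → 0 ≤ y → y * (A : ℝ) ^ K ≤ 1 →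
        k + e + w * n ^ 2 * D ≤ K → (c : ℝ) * L * H * y * Z' ≤ 1 := by
      intro c k y hc hy hyA hk
      have h1 : ((c * L : ℕ) : ℝ) ≤ (A : ℝ) ^ k := by
        have : c * L ≤ A ^ k := hc.trans (Nat.pow_le_pow_left hA2 _)
        exact_mod_cast this
      push_cast at h1
      calc (c : ℝ) * L * H * y * Z' ≤ (A : ℝ) ^ k * H * y * Z' := by gcongr
        _ = y * (A : ℝ) ^ (k + e + w * n ^ 2 * D) := by
            rw [hH, hZ']
            push_cast
            rw [pow_add, pow_add]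
            ring
        _ ≤ y * (A : ℝ) ^ K := by
            apply mul_le_mul_of_nonneg_left _ hy
            exact pow_le_pow_right₀ (by exact_mod_cast hApos) hk
        _ ≤ 1 := hyA
    have t1 := hcAH (16 * 3 ^ Fintype.card τ * D * n * w) (4 + 2 * n + D + n + w + n * D) η (by
      calc 16 * 3 ^ Fintype.card τ * D * n * w * L
          ≤ 2 ^ 4 * 2 ^ (2 * n) * 2 ^ D * 2 ^ n * 2 ^ w * 2 ^ (n * D) := by
            apply Nat.mul_le_mul _ hL2
            apply Nat.mul_le_mul _ Nat.lt_two_pow_self.le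
            apply Nat.mul_le_mul _ Nat.lt_two_pow_self.le
            apply Nat.mul_le_mul _ Nat.lt_two_pow_self.le
            exact Nat.mul_le_mul (by norm_num) h3m
        _ = _ := by ring) hη0 hη (by
      rw [hKn, he]
      have e8 : 3 * n * D = 3 * (n * D) := by ring
      have e9 : 14 * n * D = 14 * (n * D) := by ring
      have e10 : 2 * w * n ^ 2 * D = 2 * (w * n ^ 2 * D) := by ring
      have e11 : n ≤ n * D := Nat.le_mul_of_pos_right _ (by omega)
      have e12 : D ≤ n * D := Nat.le_mul_of_pos_left _ hn1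
      rw [e8, e9, e10]
      omega)
    have t2 := hcAH (8 * 3 ^ Fintype.card τ * Fintype.card τ) (3 + 2 * n + n + n * D)
      ((1 / (A : ℝ)) ^ K) (by
      have hcn : Fintype.card τ ≤ 2 ^ n := by
        rw [hcardτ]
        exact (Nat.sub_le _ _).trans Nat.lt_two_pow_self.le
      calc 8 * 3 ^ Fintype.card τ * Fintype.card τ * L
          ≤ 2 ^ 3 * 2 ^ (2 * n) * 2 ^ n * 2 ^ (n * D) := by
            apply Nat.mul_le_mul _ hL2
            apply Nat.mul_le_mul _ hcn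
            exact Nat.mul_le_mul (by norm_num) h3m
        _ = _ := by ring) (by positivity) (by
      rw [one_div, inv_pow, inv_mul_cancel₀ (by positivity)]) (by
      rw [hKn, he]
      have e8 : 3 * n * D = 3 * (n * D) := by ring
      have e9 : 14 * n * D = 14 * (n * D) := by ring
      have e10 : 2 * w * n ^ 2 * D = 2 * (w * n ^ 2 * D) := by ring
      have e11 : n ≤ n * D := Nat.le_mul_of_pos_right _ (by omega)
      have e12 : D ≤ n * D := Nat.le_mul_of_pos_left _ hn1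
      rw [e8, e9, e10]
      omega)
    have t3 : (r : ℝ) * (1 / (N : ℝ)) * Z' = 1 / 4 := by
      have hr0 : (0 : ℝ) < r := by exact_mod_cast hrpos
      have hZ0 : (0 : ℝ) < Z' := by exact_mod_cast hZpos
      rw [hN]
      push_cast
      field_simp
    push_cast at t1 t2 ⊢
    have hfin : ((L : ℝ) * (H * (3 ^ Fintype.card τ *
        (2 * D * (n * (2 * w * η)) + 2 * Fintype.card τ * (1 / (A : ℝ)) ^ K))) +
        r * (1 / (N : ℝ))) * Z' =
        1 / 4 * (16 * 3 ^ Fintype.card τ * D * n * w * L * H * η * Z') +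
        1 / 4 * (8 * 3 ^ Fintype.card τ * Fintype.card τ * L * H * (1 / (A : ℝ)) ^ K * Z') +
        r * (1 / (N : ℝ)) * Z' := by ring
    rw [hfin, t3]
    linarith
  have key := key_arch K D H N Y w R (w * (b + 1)) hKpos (by omega)
    (by rw [hN]; exact Nat.mul_pos (Nat.mul_pos (by norm_num) hrpos) hZpos) hY
    (by rw [hR]; exact Nat.mul_pos (Nat.mul_pos (Nat.mul_pos (by norm_num) hn1) (by omega)) hApos)
    hpig (A : ℝ) η (by exact_mod_cast hApos) hη0 hη2 hsR hsize φ hφ0 hφ S x hx hxY hinj κ hrel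
    lab hlab (by
      rw [← hn]
      refine lt_of_le_of_lt ?_ (choose_gt hw)
      refine le_trans (Nat.mul_le_mul_right _ (Nat.pow_le_pow_left ?_ n)) hb
      rw [hR]
      have h1 : w * Y * (2 * n * D * A) ≤ w * A * (2 * n * D * A) :=
        Nat.mul_le_mul_right _ (Nat.mul_le_mul_left _ hYA)
      have h2 : w * A * (2 * n * D * A) = 2 * n * w * D * A ^ 2 := by ring
      have h3 : 1 ≤ 2 * n * w * D * A ^ 2 := by
        have : 0 < 2 * n * w * D * A ^ 2 := by positivity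
        exact this
      have h4 : 4 * n * w * D * A ^ 2 = 2 * (2 * n * w * D * A ^ 2) := by ring
      omega)
  rw [← hn] at key
  exact key

end Pool.Agent.Y913
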