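import Pool.Agent.Y913.Core

/-!
`p`-adic core bound: combination of the auxiliary polynomial with the zero estimate.
-/

set_option autoImplicit false

namespace Pool.Agent.Y913

open Finset

lemma list_prod_bound (l : List ℤ) (Z : ℤ) (hZ : 1 ≤ Z) (n : ℕ) (hl : l.length ≤ n)
    (h : ∀ x ∈ l, 1 ≤ x ∧ x ≤ Z) : 1 ≤ l.prod ∧ l.prod ≤ Z ^ n := by
  induction l generalizing n with
  | nil =>
    simp only [List.prod_nil, le_refl, true_and]
    exact one_le_pow₀ hZ
  | cons x l ih =>
    cases n with
    | zero => simp at hl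
    | succ n =>
      have h1 := ih n (by simpa using hl) (fun y hy => h y (List.mem_cons_of_mem _ hy))
      have h2 := h x List.mem_cons_self
      rw [List.prod_cons, pow_succ, mul_comm (Z ^ n) Z]
      constructor
      · nlinarith [h1.1, h2.1]
      · exact mul_le_mul h2.2 h1.2 (by linarith [h1.1]) (by linarith)

/-- size bound for the value of the auxiliary form -/
lemma abs_form_le {σ : Type} [Fintype σ] [DecidableEq σ] {D H : ℕ} (G : (σ → Fin D) → ℤ)
    (hG : ∀ u, |G u| ≤ H) (P Q : σ → ℤ) (Z : ℤ) (hZ : 1 ≤ Z)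
    (hP : ∀ j, 1 ≤ P j ∧ P j ≤ Z) (hQ : ∀ j, 1 ≤ Q j ∧ Q j ≤ Z) :
    |∑ u : σ → Fin D, G u * ∏ j, (P j ^ (u j : ℕ) * Q j ^ (D - 1 - (u j : ℕ)))| ≤
      (D ^ Fintype.card σ : ℕ) * (H * (Z ^ (D - 1)) ^ Fintype.card σ) := by
  have hterm : ∀ u : σ → Fin D, |G u * ∏ j, (P j ^ (u j : ℕ) * Q j ^ (D - 1 - (u j : ℕ)))| ≤
      (H * (Z ^ (D - 1)) ^ Fintype.card σ) := by
    intro u
    rw [abs_mul]
    apply mul_le_mul (hG u) _ (abs_nonneg _) (by positivity)
    rw [Finset.abs_prod]
    calc ∏ j, |P j ^ (u j : ℕ) * Q j ^ (D - 1 - (u j : ℕ))| ≤ ∏ _j : σ, Z ^ (D - 1) := by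
          apply Finset.prod_le_prod
          · intro j _; exact abs_nonneg _
          · intro j _
            rw [abs_mul, abs_pow, abs_pow, abs_of_pos (by linarith [(hP j).1]),
              abs_of_pos (by linarith [(hQ j).1])]
            have h5 : (D - 1) = (u j : ℕ) + (D - 1 - (u j : ℕ)) := by
              have := (u j).isLt
              omega
            conv_rhs => rw [h5, pow_add]
            apply mul_le_mul
            · exact pow_le_pow_left₀ (by linarith [(hP j).1]) (hP j).2 _
            · exact pow_le_pow_left₀ (by linarith [(hQ j).1]) (hQ j).2 _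
            · exact pow_nonneg (by linarith [(hQ j).1]) _
            · positivity
      _ = (Z ^ (D - 1)) ^ Fintype.card σ := by
          rw [Finset.prod_const, Finset.card_univ]
  calc |∑ u : σ → Fin D, G u * ∏ j, (P j ^ (u j : ℕ) * Q j ^ (D - 1 - (u j : ℕ)))|
      ≤ ∑ u : σ → Fin D, |G u * ∏ j, (P j ^ (u j : ℕ) * Q j ^ (D - 1 - (u j : ℕ)))| :=
        Finset.abs_sum_le_sum_abs _ _
    _ ≤ ∑ _u : σ → Fin D, (H * (Z ^ (D - 1)) ^ Fintype.card σ) :=
        Finset.sum_le_sum (fun u _ => hterm u)
    _ = _ := by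
        rw [Finset.sum_const, Finset.card_univ, nsmul_eq_mul]
        simp

/-- **`p`-adic core bound** -/
theorem card_le_padic {ι τ : Type} [Fintype τ] [DecidableEq τ] (q π d0 D H Z : ℕ) [NeZero q]
    (hD : 1 ≤ D) (hZ : 1 ≤ Z) (hπ : q ∣ π ^ d0)
    (hpig : q ^ (d0 ^ Fintype.card τ) < (H + 1) ^ (D ^ (Fintype.card τ + 1)))
    (hsize : D ^ (Fintype.card τ + 1) *
      (H * ((Z ^ (Fintype.card τ + 1)) ^ (D - 1)) ^ (Fintype.card τ + 1)) < q)
    (ψ : τ → ℕ) (I : Finset ι) (P Q : ι → Option τ → ℕ)
    (hP : ∀ t ∈ I, ∀ j, 1 ≤ P t j ∧ P t j ≤ Z) (hQ : ∀ t ∈ I, ∀ j, 1 ≤ Q t j ∧ Q t j ≤ Z)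
    (hQu : ∀ t ∈ I, ∀ j, IsUnit ((Q t j : ℕ) : ZMod q))
    (hPQ : ∀ t ∈ I, ∀ j, (P t (some j)) ≡ (Q t (some j)) [MOD π])
    (hrel : ∀ t ∈ I, ((P t none : ℕ) : ZMod q) * ∏ j, ((Q t (some j) : ℕ) : ZMod q) ^ ψ j =
          ((Q t none : ℕ) : ZMod q) * ∏ j, ((P t (some j) : ℕ) : ZMod q) ^ ψ j)
    (ℓ : ι → Option τ → ℕ)
    (hℓ : ∀ t ∈ I, ∀ j, (P t j).factorization (ℓ t j) ≠ (Q t j).factorization (ℓ t j))
    (h0 : ∀ t ∈ I, ∀ j, ∀ t' ∈ I, ∀ j', (t' ≠ t ∨ j' ≠ j) →
      (P t' j').factorization (ℓ t j) = 0 ∧ (Q t' j').factorization (ℓ t j) = 0) :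
    I.card ≤ 2 ^ ((Fintype.card τ + 1 + 1) * (Fintype.card τ + 1)) *
      D ^ (Fintype.card τ + 1) := by
  classical
  obtain ⟨G, hG0, hGH, hG⟩ := exists_aux q π d0 D H hπ hpig ψ
  have hcard : Fintype.card (Option τ) = Fintype.card τ + 1 := Fintype.card_option
  have key := card_le_core (σ := Option τ) hD G hG0 I P Q
    (fun t ht j => by have := (hP t ht j).1; omega)
    (fun t ht j => by have := (hQ t ht j).1; omega) ℓ hℓ h0 (by
      intro ts hlen hts
      rw [hcard] at hlen
      set P' : Option τ → ℤ := fun j => (ts.map (fun t => (P t j : ℤ))).prod with hP'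
      set Q' : Option τ → ℤ := fun j => (ts.map (fun t => (Q t j : ℤ))).prod with hQ'
      have hcast : ∀ (R : ι → Option τ → ℕ) (j : Option τ),
          (((ts.map (fun t => (R t j : ℤ))).prod : ℤ) : ZMod q) =
          (ts.map (fun t => ((R t j : ℕ) : ZMod q))).prod := by
        intro R j
        clear hlen hts hP' hQ' P' Q'
        induction ts with
        | nil => simp
        | cons t ts ih =>
          rw [List.map_cons, List.prod_cons, List.map_cons, List.prod_cons, Int.cast_mul, ih]
          simp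
      have hdvd := hG P' Q' (by
        intro j
        rw [hQ']
        simp only
        rw [hcast Q j]
        clear hlen hcast hP' hQ' P' Q'
        induction ts with
        | nil => simp
        | cons t ts ih =>
          rw [List.map_cons, List.prod_cons]
          exact (hQu t (hts t List.mem_cons_self) j).mul
            (ih (fun s hs => hts s (List.mem_cons_of_mem _ hs)))) (by
        intro j
        rw [hP', hQ']
        simp only
        clear hlen hcast hP' hQ' P' Q'
        induction ts with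
        | nil => simp
        | cons t ts ih =>
          rw [List.map_cons, List.prod_cons, List.map_cons, List.prod_cons]
          have h1 := ih (fun s hs => hts s (List.mem_cons_of_mem _ hs))
          have h2 : (π : ℤ) ∣ (P t (some j) : ℤ) - (Q t (some j) : ℤ) :=
            (Nat.modEq_iff_dvd.mp (hPQ t (hts t List.mem_cons_self) j).symm)
          obtain ⟨x, hx⟩ := h1
          obtain ⟨y, hy⟩ := h2
          refine ⟨y * (ts.map (fun t => (P t (some j) : ℤ))).prod + Q t (some j) * x, ?_⟩
          linear_combination (ts.map (fun t => (P t (some j) : ℤ))).prod * hy +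
            (Q t (some j) : ℤ) * hx) (by
        rw [hP', hQ']
        simp only
        simp_rw [hcast]
        clear hlen hcast hP' hQ' P' Q'
        induction ts with
        | nil => simp
        | cons t ts ih =>
          simp_rw [List.map_cons, List.prod_cons, mul_pow, Finset.prod_mul_distrib]
          have h1 := ih (fun s hs => hts s (List.mem_cons_of_mem _ hs))
          have h2 := hrel t (hts t List.mem_cons_self)
          calc _ = (((P t none : ℕ) : ZMod q) * ∏ j, ((Q t (some j) : ℕ) : ZMod q) ^ ψ j) *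
              ((ts.map (fun t => ((P t none : ℕ) : ZMod q))).prod *
                ∏ j, (ts.map (fun t => ((Q t (some j) : ℕ) : ZMod q))).prod ^ ψ j) := by ring
            _ = _ := by rw [h1, h2]; ring)
      have hbd := abs_form_le G hGH P' Q' ((Z : ℤ) ^ (Fintype.card τ + 1))
        (one_le_pow₀ (by exact_mod_cast hZ))
        (fun j => list_prod_bound _ (Z : ℤ) (by exact_mod_cast hZ) _
          (by rw [List.length_map]; exact hlen) (by
            intro x hx
            rw [List.mem_map] at hx
            obtain ⟨t, ht, rfl⟩ := hx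
            have := hP t (hts t ht) j
            exact ⟨by exact_mod_cast this.1, by exact_mod_cast this.2⟩))
        (fun j => list_prod_bound _ (Z : ℤ) (by exact_mod_cast hZ) _
          (by rw [List.length_map]; exact hlen) (by
            intro x hx
            rw [List.mem_map] at hx
            obtain ⟨t, ht, rfl⟩ := hx
            have := hQ t (hts t ht) j
            exact ⟨by exact_mod_cast this.1, by exact_mod_cast this.2⟩))
      apply Int.eq_zero_of_abs_lt_dvd hdvd
      refine lt_of_le_of_lt hbd ?_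
      rw [hcard]
      exact_mod_cast hsize)
  rw [hcard] at key
  exact key

end Pool.Agent.Y913
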