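import Pool.Agent.H301R2.ZG.Grp

/-!
Consequence of the zero estimate: a non-zero polynomial of degree `< D` in each variable cannot
vanish at all products of at most `n` elements of a large finite family `Γ` of points of the torus
all of whose quotients have multiplicatively independent coordinates.
-/

open MvPolynomial

set_option autoImplicit false

namespace Pool.Agent.Y913

open Pool.Agent.H364R2 Pool.Agent.H301R2.ZG

variable {σ : Type} [DecidableEq σ]

/-- the polynomial with coefficient function `G` on the box `[0,D)^σ` -/
noncomputable def polyG [Fintype σ] {D : ℕ} (G : (σ → Fin D) → ℤ) : MvPolynomial σ ℂ :=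
  ∑ u : σ → Fin D, monomial (Finsupp.equivFunOnFinite.symm (fun j => (u j : ℕ))) (G u : ℂ)

lemma coeff_polyG [Fintype σ] {D : ℕ} (G : (σ → Fin D) → ℤ) (v : σ → Fin D) :
    coeff (Finsupp.equivFunOnFinite.symm (fun j => (v j : ℕ))) (polyG G) = (G v : ℂ) := by
  classical
  unfold polyG
  rw [coeff_sum, Finset.sum_eq_single v]
  · rw [coeff_monomial, if_pos rfl]
  · intro u _ huv
    rw [coeff_monomial, if_neg]
    intro h
    apply huv
    have := Finsupp.equivFunOnFinite.symm.injective h
    funext j
    exact Fin.ext (congrFun this j)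
  · intro h; exact absurd (Finset.mem_univ v) h

lemma polyG_ne_zero [Fintype σ] {D : ℕ} {G : (σ → Fin D) → ℤ} (hG : G ≠ 0) : polyG G ≠ 0 := by
  intro h
  apply hG
  funext v
  have := coeff_polyG G v
  rw [h, coeff_zero] at this
  exact_mod_cast this.symm

lemma polyG_mem_box [Fintype σ] {D : ℕ} (G : (σ → Fin D) → ℤ) :
    polyG G ∈ box ℂ (fun _ : σ => D) 1 := by
  classical
  unfold polyG
  apply Submodule.sum_mem
  intro u _
  rw [mem_box]
  intro m hm j
  have h1 := support_monomial_subset hm
  rw [Finset.mem_singleton] at h1
  subst h1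
  simp only [Finsupp.equivFunOnFinite_symm_apply_apply]
  have := (u j).isLt
  omega

lemma eval_polyG [Fintype σ] {D : ℕ} (G : (σ → Fin D) → ℤ) (z : σ → ℂ) :
    eval z (polyG G) = ∑ u : σ → Fin D, (G u : ℂ) * ∏ j, z j ^ (u j : ℕ) := by
  unfold polyG
  rw [map_sum]
  apply Finset.sum_congr rfl
  intro u _
  rw [eval_monomial, Finsupp.prod_fintype]
  · simp
  · intro i; simp

/-- a polynomial vanishing at all powers of a point with multiplicatively independent
coordinates is zero. -/
lemma eq_zero_of_powers [Fintype σ] (z : σ → ℂ)
    (hz : ∀ u u' : σ → ℕ, ∏ j, z j ^ u j = ∏ j, z j ^ u' j → u = u')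
    (f : MvPolynomial σ ℂ) (hf : ∀ k : ℕ, eval (fun j => z j ^ k) f = 0) : f = 0 := by
  classical
  -- characters of `ℕ`
  let χ : (σ →₀ ℕ) → (Multiplicative ℕ →* ℂ) := fun m =>
    powersHom ℂ (∏ j, z j ^ m j)
  have hχ : Function.Injective χ := by
    intro m m' h
    have h1 := (powersHom ℂ).injective h
    have h2 := hz (fun j => m j) (fun j => m' j) h1
    ext j
    exact congrFun h2 j
  have hli := (linearIndependent_monoidHom (Multiplicative ℕ) ℂ).comp χ hχ
  rw [linearIndependent_iff'] at hli
  have h3 := hli f.support (fun m => coeff m f) (by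
    funext k
    rw [Finset.sum_apply]
    have h4 := hf (Multiplicative.toAdd k)
    rw [eval_eq'] at h4
    rw [Pi.zero_apply, ← h4]
    apply Finset.sum_congr rfl
    intro m _
    simp only [Function.comp, Pi.smul_apply, smul_eq_mul, χ, powersHom_apply]
    congr 1
    rw [← Finset.prod_pow]
    apply Finset.prod_congr rfl
    intro j _
    rw [← pow_mul, ← pow_mul, mul_comm])
  ext m
  rw [coeff_zero]
  by_cases hm : m ∈ f.support
  · exact h3 m hm
  · exact notMem_support_iff.mp hm

lemma prodG_mul (gs : List (σ → ℂ)) (j : σ) :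
    prodG (fun _ : σ => false) gs j = (gs.map (fun g => g j)).prod := by
  induction gs with
  | nil => simp [prodG, gone]
  | cons g gs ih =>
    unfold prodG at ih ⊢
    rw [List.foldr_cons, List.map_cons, List.prod_cons, ← ih]
    simp [gmul]

/-- **the form of the zero estimate which we need** -/
theorem card_le_of_vanish [Fintype σ] {D : ℕ} (hD : 1 ≤ D)
    (G : (σ → Fin D) → ℤ) (hG : G ≠ 0) (Γ : Finset (σ → ℂ)) (hne : ∀ g ∈ Γ, ∀ j, g j ≠ 0)
    (hind : ∀ g ∈ Γ, ∀ g' ∈ Γ, g ≠ g' → ∀ u u' : σ → ℕ,
      ∏ j, (g' j / g j) ^ u j = ∏ j, (g' j / g j) ^ u' j → u = u')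
    (hvan : ∀ gs : List (σ → ℂ), gs.length ≤ Fintype.card σ → (∀ g ∈ gs, g ∈ Γ) →
      ∑ u : σ → Fin D, (G u : ℂ) * ∏ j, ((gs.map (fun g => g j)).prod) ^ (u j : ℕ) = 0) :
    Γ.card ≤ 2 ^ ((Fintype.card σ + 1) * Fintype.card σ) * D ^ Fintype.card σ := by
  classical
  let add : σ → Bool := fun _ => false
  obtain ⟨P, hP, hPbot, hone, hstab, hhom, hbound⟩ :=
    zero_estimate_grp add (l := 0) (fun k => k.elim0) Γ 0 (polyG G) (fun _ => D)
      (fun _ => hD) (fun g hg j _ => hne g hg j) (polyG_ne_zero hG) (polyG_mem_box G) (by
        intro ks gs hks hgs hmem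
        have h0 : ks = [] := by
          cases ks with
          | nil => rfl
          | cons k _ => exact k.elim0
        subst h0
        simp only [derIter]
        rw [eval_polyG]
        have := hvan gs hgs hmem
        rw [← this]
        apply Finset.sum_congr rfl
        intro u _
        congr 1
        apply Finset.prod_congr rfl
        intro j _
        rw [prodG_mul])
  have hE : Indep P ((∅ : Finset σ) : Set σ) := by
    intro f hf hfP
    rw [Finset.coe_empty, supported_empty, Algebra.mem_bot] at hf
    obtain ⟨c, rfl⟩ := hf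
    by_contra hc
    have hc0 : c ≠ 0 := by
      rintro rfl
      exact hc (map_zero _)
    apply hP.1.ne_top
    rw [Ideal.eq_top_iff_one]
    have h1 : (1 : MvPolynomial σ ℂ) = C c⁻¹ * algebraMap ℂ (MvPolynomial σ ℂ) c := by
      rw [algebraMap_eq, ← C_mul, inv_mul_cancel₀ hc0, C_1]
    rw [h1]
    exact P.mul_mem_left _ hfP
  have key := hbound ∅ hE Γ (Finset.Subset.refl _) (by
    intro g hg g' hg' htr
    by_contra hne'
    -- the quotient stabilises `P`
    have hgG : IsG add g := fun j _ => hne g hg j
    have hgG' : IsG add g' := fun j _ => hne g' hg' j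
    set z : σ → ℂ := gmul add g' (ginv add g) with hz
    have hzj : ∀ j, z j = g' j / g j := by
      intro j
      simp [hz, gmul, ginv, add, div_eq_mul_inv]
    have htrz : trI add z P = P := by
      have h1 : trI add (ginv add g) (trI add g P) = P := by
        rw [trI_trI, ginv_gmul add hgG, trI_gone]
      have h2 : trI add (ginv add g) (trI add g' P) = P := by
        rw [← htr]; exact h1
      rw [trI_trI] at h2
      have h3 : gmul add (ginv add g) g' = z := by
        funext j
        simp [hz, gmul, add, mul_comm]
      rwa [h3] at h2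
    -- all powers of `z` are zeros of `P`
    have hpow : ∀ k : ℕ, (fun j => z j ^ k) ∈ ZP add P := by
      intro k
      induction k with
      | zero =>
        have h0 : (fun j : σ => z j ^ 0) = gone add := by
          funext j
          simp [gone, add]
        rw [h0]
        exact hone
      | succ k ih =>
        refine ⟨?_, ?_⟩
        · intro j _
          apply pow_ne_zero
          rw [hzj]
          exact div_ne_zero (hne g' hg' j) (hne g hg j)
        · intro f hf
          have h1 : tr add z f ∈ P := by
            rw [← htrz] at hf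
            exact hf
          have h2 := ih.2 _ h1
          rw [eval_tr] at h2
          have h3 : gmul add (fun j => z j ^ k) z = fun j => z j ^ (k + 1) := by
            funext j
            simp [gmul, add, pow_succ]
          rwa [h3] at h2
    apply hPbot
    rw [eq_bot_iff]
    intro f hf
    rw [Ideal.mem_bot]
    apply eq_zero_of_powers z
    · intro u u' h
      apply hind g hg g' hg' hne'
      simpa [hzj] using h
    · intro k
      exact (hpow k).2 f hf) 0 (fun k => k.elim0) (fun k => k.elim0) (by
        intro c _
        funext k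
        exact k.elim0)
  simpa using key

end Pool.Agent.Y913
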