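import Pool.Agent.Y913.Count

/-!
Encoding of coprime pairs by the increasing tuple of their primes and the exponent vector.
-/

set_option autoImplicit false

namespace Pool.Agent.Y913

open Finset

/-- the primes dividing the two members of a pair -/
def prs (q : ℕ × ℕ) : Finset ℕ := (q.1 * q.2).primeFactors

/-- the increasing enumeration of the primes of a pair (if there are `n` of them) -/
noncomputable def enc (n : ℕ) (q : ℕ × ℕ) : Fin n → ℕ :=
  if h : (prs q).card = n then (prs q).orderEmbOfFin h else fun _ => 0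

/-- the exponent vector -/
noncomputable def expo (n : ℕ) (q : ℕ × ℕ) : Fin n → ℤ := fun j =>
  (q.2.factorization (enc n q j) : ℤ) - (q.1.factorization (enc n q j) : ℤ)

/-- the pairs considered -/
def Good (n : ℕ) (q : ℕ × ℕ) : Prop :=
  0 < q.1 ∧ 0 < q.2 ∧ Nat.Coprime q.1 q.2 ∧ (prs q).card = n

lemma enc_eq {n : ℕ} {q : ℕ × ℕ} (h : (prs q).card = n) : enc n q = (prs q).orderEmbOfFin h := by
  unfold enc
  rw [dif_pos h]

lemma enc_mem {n : ℕ} {q : ℕ × ℕ} (h : (prs q).card = n) (j : Fin n) : enc n q j ∈ prs q := by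
  rw [enc_eq h]
  exact Finset.orderEmbOfFin_mem _ h j

lemma enc_inj {n : ℕ} {q : ℕ × ℕ} (h : (prs q).card = n) : Function.Injective (enc n q) := by
  rw [enc_eq h]
  exact ((prs q).orderEmbOfFin h).injective

lemma prod_enc {n : ℕ} {q : ℕ × ℕ} (h : (prs q).card = n) {M : Type} [CommMonoid M] (f : ℕ → M) :
    ∏ j, f (enc n q j) = ∏ l ∈ prs q, f l := by
  rw [enc_eq h]
  have h1 := Finset.prod_image (s := (Finset.univ : Finset (Fin n))) (f := f)
    (g := (prs q).orderEmbOfFin h) (fun i _ j _ hij => ((prs q).orderEmbOfFin h).injective hij)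
  rw [← h1]
  congr 1
  rw [← Finset.coe_inj]
  push_cast
  rw [Set.image_univ, Finset.range_orderEmbOfFin]

lemma factorization_min {q : ℕ × ℕ} (hc : Nat.Coprime q.1 q.2) (l : ℕ) :
    q.1.factorization l = 0 ∨ q.2.factorization l = 0 := by
  by_contra hcon
  push Not at hcon
  have h1 : l ∈ q.1.primeFactors := by
    rw [← Nat.support_factorization, Finsupp.mem_support_iff]
    exact hcon.1
  have h2 : l ∈ q.2.primeFactors := by
    rw [← Nat.support_factorization, Finsupp.mem_support_iff]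
    exact hcon.2
  exact Finset.disjoint_left.mp hc.disjoint_primeFactors h1 h2

lemma snd_eq {n : ℕ} {q : ℕ × ℕ} (hq : Good n q) :
    q.2 = ∏ j, enc n q j ^ (expo n q j).toNat := by
  obtain ⟨h1, h2, h3, h4⟩ := hq
  have e1 : ∏ j, enc n q j ^ (expo n q j).toNat =
      ∏ l ∈ prs q, l ^ ((q.2.factorization l : ℤ) - (q.1.factorization l : ℤ)).toNat :=
    prod_enc h4 (fun l => l ^ ((q.2.factorization l : ℤ) - (q.1.factorization l : ℤ)).toNat)
  rw [e1]
  have e2 : ∏ l ∈ prs q, l ^ ((q.2.factorization l : ℤ) - (q.1.factorization l : ℤ)).toNat =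
      ∏ l ∈ prs q, l ^ (q.2.factorization l) := by
    apply Finset.prod_congr rfl
    intro l _
    congr 1
    rcases factorization_min h3 l with h | h <;> omega
  rw [e2]
  conv_lhs => rw [← Nat.prod_factorization_pow_eq_self h2.ne']
  rw [Finsupp.prod, Nat.support_factorization]
  apply Finset.prod_subset
  · exact Nat.primeFactors_mono (Dvd.intro_left _ rfl) (mul_ne_zero h1.ne' h2.ne')
  · intro l _ hl
    have : q.2.factorization l = 0 := by
      rw [← Nat.support_factorization, Finsupp.mem_support_iff, not_not] at hl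
      exact hl
    rw [this, pow_zero]

lemma fst_eq {n : ℕ} {q : ℕ × ℕ} (hq : Good n q) :
    q.1 = ∏ j, enc n q j ^ (-expo n q j).toNat := by
  obtain ⟨h1, h2, h3, h4⟩ := hq
  have e1 : ∏ j, enc n q j ^ (-expo n q j).toNat =
      ∏ l ∈ prs q, l ^ (-((q.2.factorization l : ℤ) - (q.1.factorization l : ℤ))).toNat :=
    prod_enc h4 (fun l => l ^ (-((q.2.factorization l : ℤ) - (q.1.factorization l : ℤ))).toNat)
  rw [e1]
  have e2 : ∏ l ∈ prs q, l ^ (-((q.2.factorization l : ℤ) - (q.1.factorization l : ℤ))).toNat =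
      ∏ l ∈ prs q, l ^ (q.1.factorization l) := by
    apply Finset.prod_congr rfl
    intro l _
    congr 1
    rcases factorization_min h3 l with h | h <;> omega
  rw [e2]
  conv_lhs => rw [← Nat.prod_factorization_pow_eq_self h1.ne']
  rw [Finsupp.prod, Nat.support_factorization]
  apply Finset.prod_subset
  · exact Nat.primeFactors_mono (Dvd.intro _ rfl) (mul_ne_zero h1.ne' h2.ne')
  · intro l _ hl
    have : q.1.factorization l = 0 := by
      rw [← Nat.support_factorization, Finsupp.mem_support_iff, not_not] at hl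
      exact hl
    rw [this, pow_zero]

lemma expo_ne_zero {n : ℕ} {q : ℕ × ℕ} (hq : Good n q) (j : Fin n) : expo n q j ≠ 0 := by
  obtain ⟨h1, h2, h3, h4⟩ := hq
  have hm := enc_mem h4 j
  unfold prs at hm
  have h5 : (q.1 * q.2).factorization (enc n q j) ≠ 0 := by
    rw [← Finsupp.mem_support_iff, Nat.support_factorization]
    exact hm
  rw [Nat.factorization_mul h1.ne' h2.ne', Finsupp.add_apply] at h5
  unfold expo
  rcases factorization_min h3 (enc n q j) with h | h <;> omega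

lemma log_rel {n : ℕ} {q : ℕ × ℕ} (hq : Good n q) :
    ∑ j, (expo n q j : ℝ) * Real.log (enc n q j) = Real.log q.2 - Real.log q.1 := by
  have hp : ∀ j, (0 : ℝ) < enc n q j := fun j => by
    have := Nat.pos_of_mem_primeFactors (enc_mem hq.2.2.2 j)
    exact_mod_cast this
  have e : ∀ (f : Fin n → ℕ), Real.log ((∏ j, enc n q j ^ f j : ℕ) : ℝ) =
      ∑ j, (f j : ℝ) * Real.log (enc n q j) := by
    intro f
    push_cast
    rw [Real.log_prod (fun j _ => pow_ne_zero _ (hp j).ne')]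
    apply Finset.sum_congr rfl
    intro j _
    rw [Real.log_pow]
  conv_rhs => rw [snd_eq hq, fst_eq hq]
  rw [e, e, ← Finset.sum_sub_distrib]
  apply Finset.sum_congr rfl
  intro j _
  rw [← sub_mul]
  congr 1
  have h1 : ((expo n q j).toNat : ℤ) - ((-expo n q j).toNat : ℤ) = expo n q j := by omega
  exact_mod_cast h1.symm

lemma ud_rel {n N : ℕ} {q : ℕ × ℕ} (hq : Good n q) (h1 : q.1.Coprime N) (h2 : q.2.Coprime N) :
    ∏ j, (ud N (enc n q j)) ^ (expo n q j) = ud N q.2 * (ud N q.1)⁻¹ := by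
  have hc : ∀ j, (enc n q j).Coprime N := by
    intro j
    have hm := enc_mem hq.2.2.2 j
    unfold prs at hm
    have hd := Nat.dvd_of_mem_primeFactors hm
    exact Nat.Coprime.coprime_dvd_left hd (Nat.Coprime.mul_left h1 h2)
  have e : ∀ (f : Fin n → ℕ), ud N (∏ j, enc n q j ^ f j) = ∏ j, (ud N (enc n q j)) ^ f j := by
    intro f
    rw [ud_prod _ _ (fun j _ => Nat.Coprime.pow_left _ (hc j))]
    apply Finset.prod_congr rfl
    intro j _
    rw [← Units.val_inj, ud_coe (Nat.Coprime.pow_left _ (hc j)), Units.val_pow_eq_pow_val,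
      ud_coe (hc j)]
    push_cast
    rfl
  conv_rhs => rw [snd_eq hq, fst_eq hq]
  rw [e, e, ← Finset.prod_inv_distrib, ← Finset.prod_mul_distrib]
  apply Finset.prod_congr rfl
  intro j _
  rw [← zpow_natCast, ← zpow_natCast, ← zpow_neg, ← zpow_add]
  congr 1
  omega

/-- summation over the exponent vectors -/
theorem card_le_fibers {n E Bd : ℕ} (Q : Finset (ℕ × ℕ)) (hQ : ∀ q ∈ Q, Good n q)
    (hE : ∀ q ∈ Q, ∀ j, (expo n q j).natAbs ≤ E)
    (hB : ∀ φ : Fin n → ℤ, (∀ j, φ j ≠ 0 ∧ (φ j).natAbs ≤ E) →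
      ∀ X : Finset (Fin n → ℕ), (∀ x ∈ X, ∃ q ∈ Q, expo n q = φ ∧ enc n q = x) → X.card ≤ Bd) :
    Q.card ≤ (2 * E + 1) ^ n * Bd := by
  classical
  have hmaps : Set.MapsTo (expo n) (Q : Set (ℕ × ℕ))
      (Fintype.piFinset (fun _ : Fin n => Finset.Icc (-(E : ℤ)) E) : Set (Fin n → ℤ)) := by
    intro q hq
    rw [Finset.mem_coe, Fintype.mem_piFinset]
    intro j
    have := hE q hq j
    rw [Finset.mem_Icc]
    omega
  rw [Finset.card_eq_sum_card_fiberwise hmaps]
  calc ∑ φ ∈ Fintype.piFinset (fun _ : Fin n => Finset.Icc (-(E : ℤ)) E),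
        (Q.filter (fun q => expo n q = φ)).card
      ≤ ∑ _φ ∈ Fintype.piFinset (fun _ : Fin n => Finset.Icc (-(E : ℤ)) E), Bd := by
        apply Finset.sum_le_sum
        intro φ _
        rcases (Q.filter (fun q => expo n q = φ)).eq_empty_or_nonempty with he | ⟨q0, hq0⟩
        · rw [he]; simp
        · have hq0' := Finset.mem_filter.mp hq0
          have hinj : Set.InjOn (enc n) ((Q.filter (fun q => expo n q = φ)) : Set (ℕ × ℕ)) := by
            intro q hq q' hq' heq
            rw [Finset.mem_coe, Finset.mem_filter] at hq hq'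
            have e1 := fst_eq (hQ q hq.1)
            have e2 := fst_eq (hQ q' hq'.1)
            have e3 := snd_eq (hQ q hq.1)
            have e4 := snd_eq (hQ q' hq'.1)
            rw [hq.2, heq] at e1 e3
            rw [hq'.2] at e2 e4
            exact Prod.ext (e1.trans e2.symm) (e3.trans e4.symm)
          rw [← Finset.card_image_of_injOn hinj]
          apply hB φ
          · intro j
            rw [← hq0'.2]
            exact ⟨expo_ne_zero (hQ q0 hq0'.1) j, hE q0 hq0'.1 j⟩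
          · intro x hx
            rw [Finset.mem_image] at hx
            obtain ⟨q, hq, rfl⟩ := hx
            rw [Finset.mem_filter] at hq
            exact ⟨q, hq.1, hq.2, rfl⟩
    _ = (2 * E + 1) ^ n * Bd := by
        rw [Finset.sum_const, Fintype.card_piFinset, Finset.prod_const, Finset.card_univ,
          Fintype.card_fin, Int.card_Icc, smul_eq_mul]
        congr 2
        omega

lemma natAbs_expo_le {n E : ℕ} {q : ℕ × ℕ} (hq : Good n q) (h1 : q.1 < 2 ^ (E + 1))
    (h2 : q.2 < 2 ^ (E + 1)) (j : Fin n) : (expo n q j).natAbs ≤ E := by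
  have hf : ∀ m : ℕ, 0 < m → m < 2 ^ (E + 1) → m.factorization (enc n q j) ≤ E := by
    intro m hm0 hm
    have hp := Nat.prime_of_mem_primeFactors (enc_mem hq.2.2.2 j)
    have h3 : (enc n q j) ^ m.factorization (enc n q j) ≤ m :=
      Nat.le_of_dvd hm0 (Nat.ordProj_dvd m _)
    have h4 : 2 ^ m.factorization (enc n q j) ≤ m :=
      (Nat.pow_le_pow_left hp.two_le _).trans h3
    have h5 : 2 ^ m.factorization (enc n q j) < 2 ^ (E + 1) := lt_of_le_of_lt h4 hm
    have h6 := (Nat.pow_lt_pow_iff_right (by norm_num : 1 < 2)).mp h5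
    omega
  have h3 := hf q.1 hq.1 h1
  have h4 := hf q.2 hq.2.1 h2
  unfold expo
  omega

/-- **pairs, infinite place** -/
theorem pairs_arch {n E A Y w b : ℕ} (hY : 1 ≤ Y) (hw : 1 ≤ w) (hA2 : 2 ≤ A) (hYA : Y ≤ A)
    (η : ℝ) (hη0 : 0 ≤ η) (hη : η * (A : ℝ) ^ (KK n w) ≤ 1)
    (hb : (4 * n * w * DD n w * A ^ 2) ^ n ≤ b ^ w)
    (Q : Finset (ℕ × ℕ)) (hQ : ∀ q ∈ Q, Good n q) (hQE : ∀ q ∈ Q, q.1 < 2 ^ (E + 1) ∧
      q.2 < 2 ^ (E + 1)) (hQY : ∀ q ∈ Q, ∀ l ∈ prs q, l ≤ Y)
    (hQη : ∀ q ∈ Q, |Real.log q.2 - Real.log q.1| ≤ η) :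
    Q.card ≤ (2 * E + 1) ^ n * (n ^ 2 * (mm n w * (w * (b + 1)))) ^ n := by
  classical
  apply card_le_fibers Q hQ (fun q hq j => natAbs_expo_le (hQ q hq) (hQE q hq).1 (hQE q hq).2 j)
  intro φ hφ X hX
  have key := count_arch (σ := Fin n) (T := Unit) A Y w b hY hw hA2 hYA η hη0
    (by rw [Fintype.card_fin]; exact hη) φ (fun j => (hφ j).1) X
    (by
      intro x hx j
      obtain ⟨q, hq, _, rfl⟩ := hX x hx
      have hm := enc_mem (hQ q hq).2.2.2 j
      exact ⟨Nat.prime_of_mem_primeFactors hm, hQY q hq _ hm⟩)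
    (by
      intro x hx
      obtain ⟨q, hq, _, rfl⟩ := hX x hx
      exact enc_inj (hQ q hq).2.2.2)
    (fun _ => 0)
    (by
      intro x hx
      obtain ⟨q, hq, hqφ, rfl⟩ := hX x hx
      rw [← hqφ, log_rel (hQ q hq), sub_zero]
      exact hQη q hq)
    (fun _ => ()) (by
      intro W _ W' _ _ _ _
      simp)
    (by rw [Fintype.card_fin, Fintype.card_unit, mul_one]; exact hb)
  rw [Fintype.card_fin] at key
  exact key

/-- **pairs, finite place** -/
theorem pairs_padic {n E p h Y w M b : ℕ} (hp : p.Prime) (hh : 1 ≤ h) (h2 : p = 2 → 2 ≤ h)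
    (hY : 1 ≤ Y) (hw : 1 ≤ w) (hYp : Y ≤ p ^ h) (hM : E * p ^ (h * KK n w) ≤ p ^ M)
    (hb : (p ^ h) ^ n ≤ b ^ w) (κ : (ZMod (p ^ M))ˣ)
    (Q : Finset (ℕ × ℕ)) (hQ : ∀ q ∈ Q, Good n q) (hQE : ∀ q ∈ Q, q.1 < 2 ^ (E + 1) ∧
      q.2 < 2 ^ (E + 1)) (hQY : ∀ q ∈ Q, ∀ l ∈ prs q, l ≤ Y ∧ l ≠ p)
    (hQp : ∀ q ∈ Q, (q.2 : ZMod (p ^ M)) = κ * q.1) :
    Q.card ≤ (2 * E + 1) ^ n * (n ^ 2 * (mm n w * (w * (b + 1)))) ^ n := by
  classical
  apply card_le_fibers Q hQ (fun q hq j => natAbs_expo_le (hQ q hq) (hQE q hq).1 (hQE q hq).2 j)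
  intro φ hφ X hX
  have key := count_padic (σ := Fin n) (T := Unit) p h Y w M b E hp hh h2 hY hw hYp
    (by rw [Fintype.card_fin]; exact hM) φ hφ X
    (by
      intro x hx j
      obtain ⟨q, hq, _, rfl⟩ := hX x hx
      have hm := enc_mem (hQ q hq).2.2.2 j
      exact ⟨Nat.prime_of_mem_primeFactors hm, (hQY q hq _ hm).1, (hQY q hq _ hm).2⟩)
    (by
      intro x hx
      obtain ⟨q, hq, _, rfl⟩ := hX x hx
      exact enc_inj (hQ q hq).2.2.2)
    (fun _ => κ)
    (by
      intro x hx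
      obtain ⟨q, hq, hqφ, rfl⟩ := hX x hx
      have hnd : ∀ m : ℕ, m ∣ q.1 * q.2 → m.Coprime (p ^ M) := by
        intro m hm
        apply Nat.Coprime.pow_right
        rw [Nat.coprime_comm, hp.coprime_iff_not_dvd]
        intro hpm
        have h5 : p ∈ prs q := by
          unfold prs
          rw [Nat.mem_primeFactors]
          exact ⟨hp, hpm.trans hm, mul_ne_zero (hQ q hq).1.ne' (hQ q hq).2.1.ne'⟩
        exact (hQY q hq p h5).2 rfl
      have h5 := hnd q.1 (Dvd.intro _ rfl)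
      have h6 := hnd q.2 (Dvd.intro_left _ rfl)
      rw [← hqφ, ud_rel (hQ q hq) h5 h6, mul_inv_eq_iff_eq_mul, ← Units.val_inj, ud_coe h6,
        Units.val_mul, ud_coe h5]
      exact hQp q hq)
    (fun _ => ()) (by
      intro W _ W' _ hW hW' _
      simp [hW, hW'])
    (by rw [Fintype.card_fin, Fintype.card_unit, mul_one]; exact hb)
  rw [Fintype.card_fin] at key
  exact key

end Pool.Agent.Y913
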